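import Pool.Agent.H24.Lib.R_seed8.H112R2.Dim
set_option autoImplicit false

/-! Module John: the lattice points of a norm ball contain a large proper GAP. -/

namespace H112

open Finset

/-- greedy choice of a basis inside a spanning set -/
theorem john_greedy {E : Type*} [NormedAddCommGroup E] [InnerProductSpace ℝ E]
    [FiniteDimensional ℝ E] (F : Set E) (hF : F.Finite) (hspan : Submodule.span ℝ F = ⊤)
    (j : ℕ) (hj : j ≤ Module.finrank ℝ E) :
    ∃ v : Fin j → E, LinearIndependent ℝ v ∧ (∀ i, v i ∈ F) ∧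
      ∀ i, ∀ y ∈ F, y ∉ Submodule.span ℝ (v '' {l | l < i}) → ‖v i‖ ≤ ‖y‖ := by
  induction j with
  | zero =>
    exact ⟨Fin.elim0, linearIndependent_empty_type, fun i => i.elim0, fun i => i.elim0⟩
  | succ j ih =>
    obtain ⟨v, hv, hvF, hmin⟩ := ih (by omega)
    set W := Submodule.span ℝ (Set.range v) with hW
    have hWtop : W ≠ ⊤ := by
      intro h
      have h1 : Module.finrank ℝ W = j := by
        rw [hW, finrank_span_eq_card hv, Fintype.card_fin]
      rw [h, finrank_top] at h1
      omega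
    have hex : (F \ (W : Set E)).Nonempty := by
      by_contra h
      rw [Set.not_nonempty_iff_eq_empty, Set.sdiff_eq_empty] at h
      exact hWtop (top_le_iff.mp (hspan ▸ Submodule.span_le.mpr h))
    obtain ⟨y₀, ⟨hy₀F, hy₀W⟩, hy₀⟩ :=
      Set.exists_min_image (F \ (W : Set E)) (fun y => ‖y‖) (hF.subset Set.sdiff_subset) hex
    refine ⟨Fin.snoc v y₀, linearIndependent_finSnoc.mpr ⟨hv, hy₀W⟩, ?_, ?_⟩
    · intro i
      refine Fin.lastCases ?_ (fun i => ?_) i
      · rw [Fin.snoc_last]; exact hy₀F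
      · rw [Fin.snoc_castSucc]; exact hvF i
    · intro i
      refine Fin.lastCases ?_ (fun i => ?_) i
      · intro y hy hyn
        rw [Fin.snoc_last]
        apply hy₀ y
        refine ⟨hy, fun h => hyn ?_⟩
        refine Submodule.span_mono ?_ h
        rintro _ ⟨l, rfl⟩
        exact ⟨Fin.castSucc l, Fin.castSucc_lt_last l, Fin.snoc_castSucc (α := fun _ => E) _ _ _⟩
      · intro y hy hyn
        rw [Fin.snoc_castSucc]
        apply hmin i y hy
        intro h
        apply hyn
        refine Submodule.span_mono ?_ h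
        rintro _ ⟨l, hl, rfl⟩
        exact ⟨Fin.castSucc l, Fin.castSucc_lt_castSucc_iff.mpr hl,
          Fin.snoc_castSucc (α := fun _ => E) _ _ _⟩

open scoped InnerProductSpace in
/-- Euclidean core of the discrete John theorem -/
theorem john_core {k : ℕ} (hk : 0 < k) (Λ : AddSubgroup (EuclideanSpace ℝ (Fin k)))
    (F : Set (EuclideanSpace ℝ (Fin k))) (hF : F.Finite) (hFΛ : ∀ x ∈ F, x ∈ Λ)
    (h1 : ∀ x ∈ Λ, ‖x‖ ≤ (√k)⁻¹ → x ∈ F) (h2 : ∀ x ∈ F, ‖x‖ ≤ √k)
    (hspan : Submodule.span ℝ F = ⊤) :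
    ∃ (v : Fin k → EuclideanSpace ℝ (Fin k)) (L : Fin k → ℕ), LinearIndependent ℝ v ∧
      (∀ i, v i ∈ F) ∧
      (∀ a : Fin k → ℤ, (∀ i, |a i| ≤ L i) → ∑ i, a i • v i ∈ F) ∧
      F.ncard ≤ (4 * k ^ 3) ^ k * ∏ i, (2 * L i + 1) := by
  classical
  have hfr : Module.finrank ℝ (EuclideanSpace ℝ (Fin k)) = k := by simp
  obtain ⟨v, hv, hvF, hmin⟩ := john_greedy F hF hspan k hfr.ge
  set s : ℝ := √k with hs
  have hk' : (1 : ℝ) ≤ k := by exact_mod_cast hk
  have hs1 : 1 ≤ s := Real.one_le_sqrt.mpr hk'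
  have hs0 : 0 < s := by linarith
  have hss : s * s = k := Real.mul_self_sqrt (by linarith)
  have hl : ∀ i, 0 < ‖v i‖ := fun i => norm_pos_iff.mpr (hv.ne_zero i)
  set b := InnerProductSpace.gramSchmidtOrthonormalBasis (𝕜 := ℝ) (by rw [hfr, Fintype.card_fin]) v with hb
  have htri : ∀ i j, i < j → ⟪b j, v i⟫_ℝ = 0 := fun i j hij =>
    InnerProductSpace.gramSchmidtOrthonormalBasis_inv_triangular _ _ hij
  have hnotin : ∀ (i : Fin k) (x : EuclideanSpace ℝ (Fin k)), ⟪b i, x⟫_ℝ ≠ 0 →
      x ∉ Submodule.span ℝ (v '' {l | l < i}) := by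
    intro i x hx hmem
    apply hx
    refine Submodule.span_induction (p := fun y _ => ⟪b i, y⟫_ℝ = 0) ?_ ?_ ?_ ?_ hmem
    · rintro _ ⟨l, hl, rfl⟩
      exact htri l i hl
    · exact inner_zero_right _
    · intro y z _ _ hy hz
      rw [inner_add_right, hy, hz, add_zero]
    · intro c y _ hy
      rw [inner_smul_right, hy, mul_zero]
  -- monotonicity of the lengths
  have hmono : ∀ i j : Fin k, i ≤ j → ‖v i‖ ≤ ‖v j‖ := by
    intro i j hij
    refine hmin i (v j) (hvF j) ?_
    apply hv.notMem_span_image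
    intro h
    exact absurd h (not_lt.mpr hij)
  -- lattice vectors whose last nonzero coordinate is at `i` have norm at least `‖v i‖`
  set w : Fin k → ℝ := fun i => min ‖v i‖ s⁻¹ / s with hw
  have hw0 : ∀ i, 0 < w i := fun i => div_pos (lt_min (hl i) (inv_pos.mpr hs0)) hs0
  have hsq : ∀ x : EuclideanSpace ℝ (Fin k), ‖x‖ ^ 2 = ∑ i, ⟪b i, x⟫_ℝ ^ 2 := by
    intro x
    have := b.sum_sq_norm_inner_right x
    rw [← this]
    refine Finset.sum_congr rfl fun i _ => ?_
    rw [Real.norm_eq_abs, sq_abs]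
  have hne : (Finset.univ : Finset (Fin k)).Nonempty := ⟨⟨0, hk⟩, Finset.mem_univ _⟩
  have hcell : ∀ x ∈ Λ, (∀ i, |⟪b i, x⟫_ℝ| < w i) → x = 0 := by
    intro x hx hxw
    have hxn : ‖x‖ ≤ s⁻¹ := by
      have : ‖x‖ ^ 2 ≤ (s⁻¹) ^ 2 := by
        rw [hsq]
        calc ∑ i, ⟪b i, x⟫_ℝ ^ 2 ≤ ∑ i : Fin k, (s⁻¹ / s) ^ 2 := by
              refine Finset.sum_le_sum fun i _ => ?_
              rw [← sq_abs]
              refine pow_le_pow_left₀ (abs_nonneg _) ((hxw i).le.trans ?_) 2
              exact div_le_div_of_nonneg_right (min_le_right _ _) hs0.le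
          _ = (s⁻¹) ^ 2 := by
              rw [Finset.sum_const, Finset.card_univ, Fintype.card_fin, nsmul_eq_mul, ← hss]
              field_simp
      exact le_of_sq_le_sq this (inv_nonneg.mpr hs0.le)
    have hxF := h1 x hx hxn
    by_contra hx0
    set S := Finset.univ.filter (fun i => ⟪b i, x⟫_ℝ ≠ 0) with hS
    have hSne : S.Nonempty := by
      by_contra h
      rw [Finset.not_nonempty_iff_eq_empty] at h
      apply hx0
      have : ‖x‖ ^ 2 = 0 := by
        rw [hsq]
        refine Finset.sum_eq_zero fun i _ => ?_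
        have : i ∉ S := by rw [h]; exact Finset.notMem_empty i
        rw [hS, Finset.mem_filter, not_and, not_not] at this
        rw [this (Finset.mem_univ i)]
        ring
      exact norm_eq_zero.mp (pow_eq_zero_iff (two_ne_zero) |>.mp this)
    set i := S.max' hSne with hi
    have hiS : ⟪b i, x⟫_ℝ ≠ 0 := (Finset.mem_filter.mp (S.max'_mem hSne)).2
    have hlast : ∀ j, i < j → ⟪b j, x⟫_ℝ = 0 := by
      intro j hj
      by_contra h
      exact absurd (S.le_max' j (Finset.mem_filter.mpr ⟨Finset.mem_univ _, h⟩)) (not_le.mpr hj)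
    have h3 : ‖v i‖ ≤ ‖x‖ := hmin i x hxF (hnotin i x hiS)
    have h4 : ‖x‖ ^ 2 < ‖v i‖ ^ 2 := by
      rw [hsq]
      calc ∑ j, ⟪b j, x⟫_ℝ ^ 2 < ∑ j : Fin k, (‖v i‖ / s) ^ 2 := by
            refine Finset.sum_lt_sum_of_nonempty hne fun j _ => ?_
            rcases lt_or_ge i j with hij | hij
            · rw [hlast j hij, zero_pow two_ne_zero]
              exact pow_pos (div_pos (hl i) hs0) 2
            · rw [← sq_abs]
              refine pow_lt_pow_left₀ ((hxw j).trans_le ?_) (abs_nonneg _) two_ne_zero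
              refine div_le_div_of_nonneg_right ((min_le_left _ _).trans (hmono j i hij)) hs0.le
        _ = ‖v i‖ ^ 2 := by
            rw [Finset.sum_const, Finset.card_univ, Fintype.card_fin, nsmul_eq_mul, ← hss]
            field_simp
    have h5 : ‖x‖ < ‖v i‖ := lt_of_pow_lt_pow_left₀ 2 (hl i).le h4
    linarith
  -- the counting
  set L : Fin k → ℕ := fun i => ⌊1 / (s ^ 3 * ‖v i‖)⌋₊ with hL
  refine ⟨v, L, hv, hvF, ?_, ?_⟩
  · intro a ha
    apply h1
    · exact AddSubgroup.sum_mem _ fun i _ => AddSubgroup.zsmul_mem _ (hFΛ _ (hvF i)) _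
    · calc ‖∑ i, a i • v i‖ ≤ ∑ i, ‖a i • v i‖ := norm_sum_le _ _
        _ ≤ ∑ i : Fin k, 1 / s ^ 3 := by
            refine Finset.sum_le_sum fun i _ => ?_
            rw [← Int.cast_smul_eq_zsmul ℝ, norm_smul, Real.norm_eq_abs]
            have h6 : |(a i : ℝ)| ≤ L i := by
              have := ha i
              exact_mod_cast this
            have h7 : (L i : ℝ) ≤ 1 / (s ^ 3 * ‖v i‖) := Nat.floor_le (by
              have := hl i
              positivity)
            calc |(a i : ℝ)| * ‖v i‖ ≤ (1 / (s ^ 3 * ‖v i‖)) * ‖v i‖ :=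
                  mul_le_mul_of_nonneg_right (h6.trans h7) (norm_nonneg _)
              _ = 1 / s ^ 3 := by
                  have := (hl i).ne'
                  field_simp
        _ = s⁻¹ := by
            rw [Finset.sum_const, Finset.card_univ, Fintype.card_fin, nsmul_eq_mul, ← hss]
            field_simp
  · -- injection into a box
    set X : Fin k → ℝ := fun i => s / w i with hX
    set T : Finset (Fin k → ℤ) := Fintype.piFinset fun i => Finset.Icc ⌊-X i⌋ ⌊X i⌋ with hT
    set g : EuclideanSpace ℝ (Fin k) → (Fin k → ℤ) := fun y i => ⌊⟪b i, y⟫_ℝ / w i⌋ with hg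
    have hbound : ∀ y ∈ F, ∀ i, |⟪b i, y⟫_ℝ| ≤ s := by
      intro y hy i
      calc |⟪b i, y⟫_ℝ| ≤ ‖b i‖ * ‖y‖ := abs_real_inner_le_norm _ _
        _ = ‖y‖ := by rw [b.orthonormal.1 i, one_mul]
        _ ≤ s := h2 y hy
    have hmaps : ∀ y ∈ hF.toFinset, g y ∈ T := by
      intro y hy
      rw [Set.Finite.mem_toFinset] at hy
      rw [hT, Fintype.mem_piFinset]
      intro i
      have h8 := abs_le.mp (hbound y hy i)
      rw [Finset.mem_Icc]
      constructor
      · apply Int.floor_le_floor
        simp only [hX]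
        rw [← neg_div]
        exact div_le_div_of_nonneg_right h8.1 (hw0 i).le
      · apply Int.floor_le_floor
        exact div_le_div_of_nonneg_right h8.2 (hw0 i).le
    have hinj : Set.InjOn g hF.toFinset := by
      intro y hy z hz hyz
      rw [Set.Finite.coe_toFinset] at hy hz
      have : y - z = 0 := by
        apply hcell _ (Λ.sub_mem (hFΛ y hy) (hFΛ z hz))
        intro i
        have h9 : ⌊⟪b i, y⟫_ℝ / w i⌋ = ⌊⟪b i, z⟫_ℝ / w i⌋ := congrFun hyz i
        have h10 := Int.abs_sub_lt_one_of_floor_eq_floor h9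
        rw [inner_sub_right]
        rw [← sub_div, abs_div, abs_of_pos (hw0 i), div_lt_one (hw0 i)] at h10
        exact h10
      exact sub_eq_zero.mp this
    have hcard : hF.toFinset.card ≤ T.card := Finset.card_le_card_of_injOn g hmaps hinj
    rw [Set.ncard_eq_toFinset_card F hF]
    refine hcard.trans ?_
    rw [hT, Fintype.card_piFinset]
    have hterm : ∀ i, (Finset.Icc ⌊-X i⌋ ⌊X i⌋).card ≤ 4 * k ^ 3 * (2 * L i + 1) := by
      intro i
      have hXi : X i = k / min ‖v i‖ s⁻¹ := by
        simp only [hX, hw]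
        rw [div_div_eq_mul_div, ← hss]
      have hm0 : 0 < min ‖v i‖ s⁻¹ := lt_min (hl i) (inv_pos.mpr hs0)
      have hX1 : 1 ≤ X i := by
        rw [hXi, le_div_iff₀ hm0, one_mul]
        have : min ‖v i‖ s⁻¹ ≤ 1 := (min_le_right _ _).trans (inv_le_one_of_one_le₀ hs1)
        linarith
      have hcard2 : ((Finset.Icc ⌊-X i⌋ ⌊X i⌋).card : ℝ) ≤ 4 * X i := by
        rw [Int.card_Icc]
        have h11 := Int.floor_le (X i)
        have h12 := Int.lt_floor_add_one (-X i)
        have h13 : ⌊-X i⌋ ≤ ⌊X i⌋ := Int.floor_le_floor (by linarith)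
        have h14 : ((⌊X i⌋ + 1 - ⌊-X i⌋).toNat : ℤ) = ⌊X i⌋ + 1 - ⌊-X i⌋ :=
          Int.toNat_of_nonneg (by omega)
        have h15 : (((⌊X i⌋ + 1 - ⌊-X i⌋).toNat : ℕ) : ℝ) = (⌊X i⌋ : ℝ) + 1 - ⌊-X i⌋ := by
          have := congrArg (Int.cast : ℤ → ℝ) h14
          push_cast at this
          exact this
        rw [h15]
        linarith
      have hL1 : 1 / (s ^ 3 * ‖v i‖) ≤ 2 * (L i : ℝ) + 1 := by
        have := Nat.lt_floor_add_one (1 / (s ^ 3 * ‖v i‖))
        have h16 : (0 : ℝ) ≤ (L i : ℝ) := Nat.cast_nonneg _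
        simp only [hL] at h16 ⊢
        linarith
      have hfin : 4 * X i ≤ 4 * k ^ 3 * (2 * (L i : ℝ) + 1) := by
        have h16 : (0 : ℝ) ≤ (L i : ℝ) := Nat.cast_nonneg _
        have hs5 : s ^ 5 ≤ (k : ℝ) ^ 3 := by
          rw [← hss]
          calc s ^ 5 ≤ s ^ 5 * s := le_mul_of_one_le_right (by positivity) hs1
            _ = (s * s) ^ 3 := by ring
        have hs3 : s ^ 3 ≤ (k : ℝ) ^ 3 := by
          refine le_trans ?_ hs5
          exact pow_le_pow_right₀ hs1 (by norm_num)
        have hmain : X i ≤ k ^ 3 * (2 * (L i : ℝ) + 1) := by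
          rw [hXi]
          rcases le_total ‖v i‖ s⁻¹ with h | h
          · rw [min_eq_left h]
            have hvi := (hl i).ne'
            calc (k : ℝ) / ‖v i‖ = s ^ 5 * (1 / (s ^ 3 * ‖v i‖)) := by
                  rw [← hss]; field_simp
              _ ≤ k ^ 3 * (2 * (L i : ℝ) + 1) := by
                  refine mul_le_mul hs5 hL1 ?_ (by positivity)
                  have := hl i
                  positivity
          · rw [min_eq_right h]
            calc (k : ℝ) / s⁻¹ = s ^ 3 := by rw [← hss]; field_simp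
              _ ≤ k ^ 3 * 1 := by rw [mul_one]; exact hs3
              _ ≤ k ^ 3 * (2 * (L i : ℝ) + 1) := by
                  refine mul_le_mul_of_nonneg_left ?_ (by positivity)
                  linarith
        linarith
      have := hcard2.trans hfin
      exact_mod_cast this
    calc ∏ i, (Finset.Icc ⌊-X i⌋ ⌊X i⌋).card ≤ ∏ i : Fin k, (4 * k ^ 3 * (2 * L i + 1)) :=
          Finset.prod_le_prod' fun i _ => hterm i
      _ = (4 * k ^ 3) ^ k * ∏ i, (2 * L i + 1) := by
          rw [Finset.prod_mul_distrib, Finset.prod_const, Finset.card_univ, Fintype.card_fin]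

/-- discrete John theorem with `m^{O(m)}` loss (inner GAP). -/
theorem discrete_john {m : ℕ} (N : Seminorm ℝ (Fin m → ℝ)) {r : ℝ} (hr : 0 ≤ r)
    (hfin : (LL N r).Finite) :
    ∃ (k : ℕ) (v : Fin k → (Fin m → ℤ)) (L : Fin k → ℕ), k ≤ m ∧ LinearIndependent ℤ v ∧
      (∀ a : Fin k → ℤ, (∀ i, |a i| ≤ L i) → ∑ i, a i • v i ∈ LL N r) ∧
      (LL N r).ncard ≤ (4 * k ^ 3) ^ k * ∏ i, (2 * L i + 1) := by
  classical
  obtain ⟨k, x, hli, hx, hc⟩ := Dim_family N hfin
  let e : (Fin m → ℤ) → (Fin m → ℝ) := fun c l => (c l : ℝ)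
  have he_inj : Function.Injective e := by
    intro c d h
    funext l
    have h' : (c l : ℝ) = (d l : ℝ) := congrFun h l
    exact_mod_cast h'
  have he_zsmul : ∀ (a : ℤ) (c : Fin m → ℤ), e (a • c) = (a : ℝ) • e c := by
    intro a c; funext l; simp [e]
  have he_sum : ∀ {ι : Type} (t : Finset ι) (f : ι → Fin m → ℤ), e (∑ i ∈ t, f i) =
      ∑ i ∈ t, e (f i) := by
    intro ι t f; funext l; simp [e]
  have hkm : k ≤ m := by
    have := hli.fintype_card_le_finrank
    simpa using this
  rcases Nat.eq_zero_or_pos k with hk0 | hkpos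
  · subst hk0
    refine ⟨0, Fin.elim0, Fin.elim0, Nat.zero_le _, linearIndependent_empty_type, ?_, ?_⟩
    · intro a _
      have : ∑ i : Fin 0, a i • (Fin.elim0 i : Fin m → ℤ) = 0 := by simp
      rw [this]
      change N (fun i => ((0 : Fin m → ℤ) i : ℝ)) ≤ r
      have h0 : (fun i => ((0 : Fin m → ℤ) i : ℝ)) = (0 : Fin m → ℝ) := by funext i; simp
      rw [h0, map_zero]
      exact hr
    · have hsub : LL N r ⊆ {0} := by
        intro y hy
        obtain ⟨a, _, ha⟩ := hc y hy
        rw [Set.mem_singleton_iff]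
        apply he_inj
        change (fun l => (y l : ℝ)) = _
        rw [ha]
        funext l
        simp [e]
      have := Set.ncard_le_ncard hsub (Set.finite_singleton _)
      rw [Set.ncard_singleton] at this
      simpa using this
  · let Φ : EuclideanSpace ℝ (Fin k) →ₗ[ℝ] (Fin m → ℝ) :=
      { toFun := fun a => ∑ i, a i • e (x i)
        map_add' := by
          intro a b
          simp only [PiLp.add_apply, add_smul, Finset.sum_add_distrib]
        map_smul' := by
          intro c a
          simp only [PiLp.smul_apply, smul_eq_mul, mul_smul, RingHom.id_apply, Finset.smul_sum] }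
    have hΦ : ∀ a, Φ a = ∑ i, a i • e (x i) := fun a => rfl
    have hΦinj : Function.Injective Φ := by
      rw [injective_iff_map_eq_zero]
      intro a ha
      rw [hΦ] at ha
      have := Fintype.linearIndependent_iff.mp hli (fun i => a i) ha
      ext i
      exact this i
    let ι : (Fin m → ℤ) →+ (Fin m → ℝ) :=
      { toFun := e
        map_zero' := by funext l; simp [e]
        map_add' := by intro a b; funext l; simp [e] }
    let Λ : AddSubgroup (EuclideanSpace ℝ (Fin k)) := (ι.range).comap Φ.toAddMonoidHom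
    have hΛ : ∀ a, a ∈ Λ ↔ ∃ c, e c = Φ a := by
      intro a
      change Φ a ∈ ι.range ↔ _
      rw [AddMonoidHom.mem_range]
      rfl
    set F : Set (EuclideanSpace ℝ (Fin k)) := Φ ⁻¹' (e '' LL N r) with hF
    have hFfin : F.Finite := (hfin.image e).preimage hΦinj.injOn
    have hFcard : F.ncard = (LL N r).ncard := by
      rw [hF, Set.ncard_preimage_of_injective_subset_range hΦinj, Set.ncard_image_of_injective _ he_inj]
      rintro _ ⟨y, hy, rfl⟩
      obtain ⟨a, _, ha⟩ := hc y hy
      refine ⟨WithLp.toLp 2 a, ?_⟩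
      rw [hΦ]
      exact ha.symm
    have hxi : ∀ i, EuclideanSpace.single i (1 : ℝ) ∈ F := by
      intro i
      refine ⟨x i, hx i, ?_⟩
      rw [hΦ, Finset.sum_eq_single i]
      · simp
      · intro j _ hj; simp [hj]
      · intro h; exact absurd (Finset.mem_univ i) h
    obtain ⟨v, L, hv, hvF, hvL, hcard⟩ := john_core hkpos Λ F hFfin
      (by
        intro a ha
        obtain ⟨c, _, hc'⟩ := ha
        exact (hΛ a).mpr ⟨c, hc'⟩)
      (by
        intro a ha han
        obtain ⟨c, hc'⟩ := (hΛ a).mp ha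
        refine ⟨c, ?_, hc'⟩
        change N (e c) ≤ r
        rw [hc', hΦ]
        have hkk : (0 : ℝ) < k := by exact_mod_cast hkpos
        calc N (∑ i, a i • e (x i)) ≤ ∑ i, N (a i • e (x i)) := Dim_sum_le N _ _
          _ ≤ ∑ i, |a i| * r := by
              refine Finset.sum_le_sum fun i _ => ?_
              rw [map_smul_eq_mul, Real.norm_eq_abs]
              exact mul_le_mul_of_nonneg_left (hx i) (abs_nonneg _)
          _ = (∑ i, |a i|) * r := by rw [Finset.sum_mul]
          _ ≤ 1 * r := by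
              refine mul_le_mul_of_nonneg_right ?_ hr
              have h1 : (∑ i, |a i|) ^ 2 ≤ (k : ℝ) * ∑ i, |a i| ^ 2 := by
                have := sq_sum_le_card_mul_sum_sq (s := (Finset.univ : Finset (Fin k)))
                  (f := fun i => |a i|)
                rwa [Finset.card_univ, Fintype.card_fin] at this
              have h2 : ∑ i, |a i| ^ 2 = ‖a‖ ^ 2 := by
                rw [EuclideanSpace.norm_sq_eq]
                simp
              have h3 : ‖a‖ ^ 2 ≤ (k : ℝ)⁻¹ := by
                calc ‖a‖ ^ 2 ≤ ((√k)⁻¹) ^ 2 := pow_le_pow_left₀ (norm_nonneg _) han 2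
                  _ = (k : ℝ)⁻¹ := by rw [inv_pow, Real.sq_sqrt hkk.le]
              have h4 : (∑ i, |a i|) ^ 2 ≤ 1 ^ 2 := by
                calc (∑ i, |a i|) ^ 2 ≤ (k : ℝ) * ‖a‖ ^ 2 := by rw [← h2]; exact h1
                  _ ≤ k * (k : ℝ)⁻¹ := mul_le_mul_of_nonneg_left h3 hkk.le
                  _ = 1 ^ 2 := by rw [mul_inv_cancel₀ hkk.ne']; ring
              exact le_of_sq_le_sq h4 zero_le_one
          _ = r := one_mul r)
      (by
        intro a ha
        obtain ⟨y, hy, hya⟩ := ha
        obtain ⟨c, hc1, hc2⟩ := hc y hy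
        have : a = WithLp.toLp 2 c := by
          apply hΦinj
          rw [← hya, hΦ]
          exact hc2
        rw [this]
        have h5 : ‖(WithLp.toLp 2 c : EuclideanSpace ℝ (Fin k))‖ ^ 2 ≤ (√k) ^ 2 := by
          rw [EuclideanSpace.norm_sq_eq, Real.sq_sqrt (Nat.cast_nonneg k)]
          calc ∑ i, ‖c i‖ ^ 2 ≤ ∑ i : Fin k, (1 : ℝ) := by
                refine Finset.sum_le_sum fun i _ => ?_
                rw [Real.norm_eq_abs]
                exact pow_le_one₀ (abs_nonneg _) (hc1 i)
            _ = k := by simp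
        exact le_of_sq_le_sq h5 (Real.sqrt_nonneg _))
      (by
        rw [eq_top_iff]
        intro a _
        have : a = ∑ i, a i • EuclideanSpace.single i (1 : ℝ) := by
          ext j
          simp [Pi.single_apply]
        rw [this]
        exact Submodule.sum_mem _ fun i _ =>
          Submodule.smul_mem _ _ (Submodule.subset_span (hxi i)))
    choose y hy hye using hvF
    refine ⟨k, y, L, hkm, ?_, ?_, ?_⟩
    · rw [Fintype.linearIndependent_iff]
      intro g hg i
      have h6 : ∑ i, (g i : ℝ) • v i = 0 := by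
        apply hΦinj
        rw [map_zero, map_sum]
        have : ∀ i, Φ ((g i : ℝ) • v i) = e (g i • y i) := by
          intro i
          rw [map_smul, he_zsmul, hye]
        simp only [this]
        rw [← he_sum, hg]
        funext l; simp [e]
      have := Fintype.linearIndependent_iff.mp hv (fun i => (g i : ℝ)) h6 i
      exact_mod_cast this
    · intro a ha
      obtain ⟨c, hc1, hc2⟩ := hvL a ha
      have : ∑ i, a i • y i = c := by
        apply he_inj
        rw [he_sum, hc2, map_sum]
        refine Finset.sum_congr rfl fun i _ => ?_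
        rw [he_zsmul, hye, map_zsmul, Int.cast_smul_eq_zsmul]
      rw [this]
      exact hc1
    · rw [← hFcard]
      exact hcard

end H112
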