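import Pool.Agent.H24.Lib.R_seed8.H112R2.Final
import Pool.Agent.H24.Lib.R_seed8.H112R2.Gap
set_option autoImplicit false

/-! Final theorem, torsion-free groups: covering by translates of a proper progression. -/

namespace H112

open Finset
open scoped Pointwise

theorem ann_eq_bot {G : Type*} [AddCommGroup G] {S : Set (G →+ UnitAddCircle)}
    (hfin : (bohr S (1 / 6)).Finite)
    (htf : ∀ (n : ℕ) (x : G), n ≠ 0 → n • x = 0 → x = 0) : ann S = ⊥ := by
  haveI := ann_finite hfin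
  rw [AddSubgroup.eq_bot_iff_forall]
  intro x hx
  have h1 : Nat.card (ann S) • (⟨x, hx⟩ : ann S) = 0 := card_nsmul_eq_zero'
  have h2 : Nat.card (ann S) • x = 0 := by
    have h3 := congrArg (ann S).subtype h1
    rw [map_nsmul, map_zero] at h3
    exact h3
  exact htf _ x Nat.card_pos.ne' h2

theorem near_pfr_gap_fg {G : Type*} [AddCommGroup G] [AddGroup.FG G] [DecidableEq G]
    (htf : ∀ (n : ℕ) (x : G), n ≠ 0 → n • x = 0 → x = 0) {K : ℝ}
    {A : Finset G} (hA : A.Nonempty) (hK : ((A + A).card : ℝ) ≤ K * A.card) (hK1 : 1 ≤ K) :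
    ∃ (k : ℕ) (v : Fin k → G) (L : Fin k → ℕ) (T : Finset G),
      (k : ℝ) ≤ 300 * Real.log (2 * K) ∧
      (∀ a b : Fin k → ℤ, (∀ i, |a i| ≤ L i) → (∀ i, |b i| ≤ L i) →
        ∑ i, a i • v i = ∑ i, b i • v i → a = b) ∧
      ∏ i, (2 * L i + 1) ≤ A.card ∧
      (T.card : ℝ) ≤ (2 * K) ^ (17000 * (1 + Real.log (1 + Real.log (2 * K)))) ∧
      ∀ a ∈ A, ∃ t ∈ T, ∃ c : Fin k → ℤ, (∀ i, |c i| ≤ L i) ∧ a = t + ∑ i, c i • v i := by
  obtain ⟨κ, hκ⟩ : ∃ κ : ℝ, κ = Real.log (2 * K) := ⟨_, rfl⟩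
  have hκlog2 : Real.log 2 ≤ κ := by
    rw [hκ]; exact Real.log_le_log (by norm_num) (by linarith)
  have hκ69 : (0.69 : ℝ) < κ := lt_of_lt_of_le log_two_gt hκlog2
  obtain ⟨S, X, V, ρ, m, N, ψ, hfin, hV1, hsize, hρ0, hρ12, hX, hN, h1, h2, hm, hXV⟩ :=
    structure_thm hA hK hK1 hκ
  obtain ⟨k, v, L, T, hk, hprop, hvol, hT, hcov⟩ :=
    gap_final S hfin hA hV1 hsize hρ0 hρ12 hX N ψ hN h1 h2 (ann_eq_bot hfin htf)
  have hlogκ : 0 ≤ Real.log (1 + κ) := Real.log_nonneg (by linarith)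
  refine ⟨k, v, L, T, ?_, hprop, hvol, ?_, hcov⟩
  · rw [← hκ]
    have : (k : ℝ) ≤ m := by exact_mod_cast hk
    exact this.trans hm
  · rw [← exp_eq_rpow hK1, ← hκ]
    have h3 : ((4 * (m : ℝ) + 1)) ^ m ≤
        Real.exp ((300 * κ) * (8 * (1 + Real.log (1 + κ)))) :=
      pow_le_exp (by positivity) (log_4m_le hκ69 hm) hm (by positivity)
    have h4 : (12 * (m : ℝ) ^ 3) ^ m ≤
        Real.exp ((300 * κ) * (20 * (1 + Real.log (1 + κ)))) := by
      rcases Nat.eq_zero_or_pos m with h0 | hpos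
      · subst h0
        rw [pow_zero]
        exact Real.one_le_exp (by positivity)
      · have hm1 : (0 : ℝ) < m := by exact_mod_cast hpos
        exact pow_le_exp (by positivity) (log_12m_le hκ69 hm hpos) hm (by positivity)
    have hV0 : 0 ≤ V := by linarith
    calc (T.card : ℝ) ≤ X.card * (V * (4 * m + 1) ^ m * (12 * m ^ 3) ^ m) := hT
      _ = (X.card * V) * ((4 * m + 1) ^ m * (12 * m ^ 3) ^ m) := by ring
      _ ≤ Real.exp (8000 * κ * (1 + Real.log (1 + κ))) *
            (Real.exp ((300 * κ) * (8 * (1 + Real.log (1 + κ)))) *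
              Real.exp ((300 * κ) * (20 * (1 + Real.log (1 + κ))))) := by
          apply mul_le_mul hXV _ (by positivity) (by positivity)
          exact mul_le_mul h3 h4 (by positivity) (by positivity)
      _ = Real.exp (8000 * κ * (1 + Real.log (1 + κ)) +
            ((300 * κ) * (8 * (1 + Real.log (1 + κ))) +
              (300 * κ) * (20 * (1 + Real.log (1 + κ))))) := by
          rw [← Real.exp_add, ← Real.exp_add]
      _ ≤ Real.exp (17000 * κ * (1 + Real.log (1 + κ))) := by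
          apply Real.exp_le_exp.2
          have h10 : 0 ≤ κ * Real.log (1 + κ) := mul_nonneg (by linarith) hlogκ
          nlinarith

/-- **Torsion-free groups: covering by few translates of a proper progression.** -/
theorem near_pfr_gap {G : Type*} [AddCommGroup G] [DecidableEq G]
    (htf : ∀ (n : ℕ) (x : G), n ≠ 0 → n • x = 0 → x = 0) {K : ℝ}
    {A : Finset G} (hA : A.Nonempty) (hK : ((A + A).card : ℝ) ≤ K * A.card) :
    ∃ (k : ℕ) (v : Fin k → G) (L : Fin k → ℕ) (T : Finset G),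
      (k : ℝ) ≤ 300 * Real.log (2 * K) ∧
      (∀ a b : Fin k → ℤ, (∀ i, |a i| ≤ L i) → (∀ i, |b i| ≤ L i) →
        ∑ i, a i • v i = ∑ i, b i • v i → a = b) ∧
      ∏ i, (2 * L i + 1) ≤ A.card ∧
      (T.card : ℝ) ≤ (2 * K) ^ (17000 * (1 + Real.log (1 + Real.log (2 * K)))) ∧
      ∀ a ∈ A, ∃ t ∈ T, ∃ c : Fin k → ℤ, (∀ i, |c i| ≤ L i) ∧ a = t + ∑ i, c i • v i := by
  classical
  have hApos : (0 : ℝ) < A.card := by exact_mod_cast hA.card_pos
  have hK1 : 1 ≤ K := by
    have h1 : (A.card : ℝ) ≤ (A + A).card := by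
      exact_mod_cast Finset.card_le_card_add_right hA
    nlinarith
  obtain ⟨Γ, hΓ⟩ : ∃ Γ : AddSubgroup G, Γ = AddSubgroup.closure (A : Set G) := ⟨_, rfl⟩
  obtain ⟨A', hA'⟩ := exists_model A Γ (fun a ha => by
    rw [hΓ]; exact AddSubgroup.subset_closure ha)
  have hinj : Function.Injective Γ.subtype := Γ.subtype_injective
  haveI : AddGroup.FG Γ := by
    rw [AddGroup.fg_iff_addSubgroup_fg]
    exact ⟨A, hΓ.symm⟩
  have hA'ne : A'.Nonempty := by
    rw [← hA'] at hA; exact Finset.image_nonempty.1 hA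
  have hcard : A'.card = A.card := by
    rw [← hA', Finset.card_image_of_injective _ hinj]
  have hcard2 : (A' + A').card = (A + A).card := by
    rw [← hA', ← Finset.image_add, Finset.card_image_of_injective _ hinj]
  have hK' : ((A' + A').card : ℝ) ≤ K * A'.card := by rw [hcard2, hcard]; exact hK
  have htf' : ∀ (n : ℕ) (x : Γ), n ≠ 0 → n • x = 0 → x = 0 := by
    intro n x hn hx
    apply hinj
    rw [map_zero]
    apply htf n _ hn
    rw [← map_nsmul, hx, map_zero]
  obtain ⟨k, v, L, T, hk, hprop, hvol, hT, hcov⟩ := near_pfr_gap_fg htf' hA'ne hK' hK1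
  have hsum : ∀ c : Fin k → ℤ, ∑ i, c i • Γ.subtype (v i) = Γ.subtype (∑ i, c i • v i) := by
    intro c
    rw [map_sum]
    simp only [map_zsmul]
  refine ⟨k, fun i => Γ.subtype (v i), L, T.image Γ.subtype, hk, ?_, ?_, ?_, ?_⟩
  · intro a b ha hb hab
    rw [hsum, hsum] at hab
    exact hprop a b ha hb (hinj hab)
  · rw [← hcard]; exact hvol
  · refine le_trans ?_ hT
    exact_mod_cast Finset.card_image_le
  · intro a ha
    rw [← hA'] at ha
    obtain ⟨a', ha', rfl⟩ := Finset.mem_image.1 ha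
    obtain ⟨t, ht, c, hc, e⟩ := hcov a' ha'
    refine ⟨Γ.subtype t, Finset.mem_image_of_mem _ ht, c, hc, ?_⟩
    rw [hsum, e, map_add]

theorem cover_pigeonhole {G : Type*} [DecidableEq G] {A T : Finset G} (hA : A.Nonempty)
    (P : G → G → Prop) [∀ t, DecidablePred (P t)] (hcov : ∀ a ∈ A, ∃ t ∈ T, P t a) :
    ∃ t ∈ T, A.card ≤ T.card * (A.filter (P t)).card := by
  by_contra hcon
  push Not at hcon
  have h1 : A ⊆ T.biUnion fun t => A.filter (P t) := by
    intro a ha
    obtain ⟨t, ht, h⟩ := hcov a ha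
    exact Finset.mem_biUnion.2 ⟨t, ht, Finset.mem_filter.2 ⟨ha, h⟩⟩
  have hTne : T.Nonempty := by
    obtain ⟨a, ha⟩ := hA
    obtain ⟨t, ht, _⟩ := hcov a ha
    exact ⟨t, ht⟩
  have h2 : A.card ≤ ∑ t ∈ T, (A.filter (P t)).card :=
    (Finset.card_le_card h1).trans Finset.card_biUnion_le
  have h3 : ∑ t ∈ T, T.card * (A.filter (P t)).card < ∑ _t ∈ T, A.card :=
    Finset.sum_lt_sum_of_nonempty hTne hcon
  rw [← Finset.mul_sum, Finset.sum_const, smul_eq_mul] at h3
  have h4 : T.card * A.card ≤ T.card * ∑ t ∈ T, (A.filter (P t)).card :=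
    Nat.mul_le_mul_left _ h2
  omega

/-- form with progressions `{a + ∑ n_i v_i : 0 ≤ n_i < N_i}` -/
theorem near_pfr_gap' {G : Type*} [AddCommGroup G] [DecidableEq G]
    (htf : ∀ (n : ℕ) (x : G), n ≠ 0 → n • x = 0 → x = 0) {K : ℝ}
    {A : Finset G} (hA : A.Nonempty) (hK : ((A + A).card : ℝ) ≤ K * A.card) :
    ∃ (k : ℕ) (v : Fin k → G) (N : Fin k → ℕ) (T : Finset G),
      (k : ℝ) ≤ 300 * Real.log (2 * K) ∧ (∀ i, 1 ≤ N i) ∧
      (∀ m n : Fin k → ℕ, (∀ i, m i < N i) → (∀ i, n i < N i) →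
        ∑ i, m i • v i = ∑ i, n i • v i → m = n) ∧
      ∏ i, N i ≤ A.card ∧
      (T.card : ℝ) ≤ (2 * K) ^ (17000 * (1 + Real.log (1 + Real.log (2 * K)))) ∧
      ∀ a ∈ A, ∃ t ∈ T, ∃ n : Fin k → ℕ, (∀ i, n i < N i) ∧ a = t + ∑ i, n i • v i := by
  classical
  obtain ⟨k, v, L, T, hk, hprop, hvol, hT, hcov⟩ := near_pfr_gap htf hA hK
  have hshift : ∀ m : Fin k → ℕ, ∑ i, m i • v i =
      ∑ i, ((m i : ℤ) - L i) • v i + ∑ i, (L i) • v i := by
    intro m
    rw [← Finset.sum_add_distrib]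
    apply Finset.sum_congr rfl
    intro i _
    rw [sub_smul, natCast_zsmul, natCast_zsmul, sub_add_cancel]
  refine ⟨k, v, fun i => 2 * L i + 1, T.image fun t => t - ∑ i, L i • v i, hk,
    fun i => Nat.le_add_left 1 _, ?_, hvol, ?_, ?_⟩
  · intro m n hm hn h
    rw [hshift m, hshift n] at h
    have h2 := hprop (fun i => (m i : ℤ) - L i) (fun i => (n i : ℤ) - L i)
      (fun i => by
        have h5 : m i < 2 * L i + 1 := hm i
        rw [abs_le]; constructor <;> omega)
      (fun i => by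
        have h5 : n i < 2 * L i + 1 := hn i
        rw [abs_le]; constructor <;> omega)
      (add_right_cancel h)
    funext i
    have h3 : (m i : ℤ) - L i = (n i : ℤ) - L i := congrFun h2 i
    omega
  · refine le_trans ?_ hT
    exact_mod_cast Finset.card_image_le
  · intro a ha
    obtain ⟨t, ht, c, hc, e⟩ := hcov a ha
    refine ⟨t - ∑ i, L i • v i, Finset.mem_image_of_mem _ ht, fun i => (c i + L i).toNat, ?_, ?_⟩
    · intro i
      have h5 := abs_le.1 (hc i)
      show (c i + L i).toNat < 2 * L i + 1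
      omega
    · rw [hshift fun i => (c i + L i).toNat, e]
      have h4 : ∀ i, (((c i + L i).toNat : ℤ) - L i) = c i := by
        intro i
        have h5 := abs_le.1 (hc i)
        omega
      have h6 : ∑ i, (((c i + L i).toNat : ℤ) - L i) • v i = ∑ i, c i • v i :=
        Finset.sum_congr rfl fun i _ => by rw [h4 i]
      rw [h6]
      generalize ∑ i, c i • v i = p
      generalize ∑ i, L i • v i = q
      abel

end H112
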