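import Mathlib
set_option autoImplicit false

/-! Module Auer: maximal-determinant basis inside a finite set. -/

namespace H112

/-- In a finite set `Y` of vectors there is a linearly independent family such that every element
of `Y` has coordinates in `[-1,1]` with respect to it. -/
theorem exists_auer {V : Type*} [AddCommGroup V] [Module ℝ V] (Y : Set V) (hY : Y.Finite) :
    ∃ (k : ℕ) (v : Fin k → V), LinearIndependent ℝ v ∧ (∀ i, v i ∈ Y) ∧
      ∀ y ∈ Y, ∃ a : Fin k → ℝ, (∀ i, |a i| ≤ 1) ∧ y = ∑ i, a i • v i := by
  classical
  have : FiniteDimensional ℝ (Submodule.span ℝ Y) := FiniteDimensional.span_of_finite ℝ hY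
  set W := Submodule.span ℝ Y with hW
  set k := Module.finrank ℝ W with hk
  let b : Module.Basis (Fin k) ℝ W := Module.finBasis ℝ W
  -- set of tuples
  let T : Set (Fin k → W) := {v | ∀ i, v i ∈ ((Subtype.val : W → V) ⁻¹' Y)}
  have hT : T.Finite := Set.Finite.pi' (fun _ => hY.preimage Subtype.val_injective.injOn)
  -- a tuple with nonzero determinant
  obtain ⟨w, hwT, hw⟩ : ∃ w ∈ T, IsUnit (b.det w) := by
    obtain ⟨B, hBY, hspan, hli⟩ := exists_linearIndependent ℝ Y
    have hBfin : B.Finite := hY.subset hBY
    have : Fintype B := hBfin.fintype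
    -- lift to W
    let f : B → W := fun x => ⟨x.1, Submodule.subset_span (hBY x.2)⟩
    have hfli : LinearIndependent ℝ f := by
      apply LinearIndependent.of_comp W.subtype
      exact hli
    have hfspan : ⊤ ≤ Submodule.span ℝ (Set.range f) := by
      intro x _
      have hx : (x : V) ∈ Submodule.span ℝ B := by rw [hspan]; exact x.2
      have : Submodule.map W.subtype (Submodule.span ℝ (Set.range f)) = Submodule.span ℝ B := by
        rw [Submodule.map_span, ← Set.range_comp]
        congr 1
        ext z
        constructor
        · rintro ⟨y, rfl⟩; exact y.2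
        · intro hz; exact ⟨⟨z, hz⟩, rfl⟩
      rw [← this] at hx
      obtain ⟨y, hy, hyx⟩ := hx
      have : y = x := Subtype.ext hyx
      rwa [← this]
    let c : Module.Basis B ℝ W := Module.Basis.mk hfli hfspan
    have hcard : Fintype.card B = k := by
      rw [hk, Module.finrank_eq_card_basis c]
    let e : B ≃ Fin k := Fintype.equivFinOfCardEq hcard
    let c' := c.reindex e
    refine ⟨c', ?_, ?_⟩
    · intro i
      simp only [Set.mem_preimage, c', c, Module.Basis.reindex_apply, Module.Basis.mk_apply]
      exact hBY (e.symm i).2
    · rw [← Module.Basis.is_basis_iff_det b]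
      exact ⟨c'.linearIndependent, c'.span_eq⟩
  obtain ⟨v, hvT, hvmax⟩ := Set.exists_max_image T (fun v => |b.det v|) hT ⟨w, hwT⟩
  have hv0 : 0 < |b.det v| := lt_of_lt_of_le (abs_pos.mpr hw.ne_zero) (hvmax w hwT)
  have hvunit : IsUnit (b.det v) := isUnit_iff_ne_zero.mpr (abs_pos.mp hv0)
  obtain ⟨hvli, hvspan⟩ := (Module.Basis.is_basis_iff_det b).mpr hvunit
  let c : Module.Basis (Fin k) ℝ W := Module.Basis.mk hvli hvspan.ge
  refine ⟨k, fun i => (v i : V), ?_, fun i => hvT i, ?_⟩
  · exact hvli.map' W.subtype (Submodule.ker_subtype W)
  · intro y hy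
    let y' : W := ⟨y, Submodule.subset_span hy⟩
    have hsum : y' = ∑ i, c.repr y' i • v i := by
      conv_lhs => rw [← c.sum_repr y']
      simp [c]
    refine ⟨fun i => c.repr y' i, ?_, ?_⟩
    · intro i
      have hdet : b.det (Function.update v i y') = c.repr y' i * b.det v := by
        conv_lhs => rw [hsum]
        rw [← AlternatingMap.coe_multilinearMap, MultilinearMap.map_update_sum]
        rw [Finset.sum_eq_single i]
        · rw [MultilinearMap.map_update_smul, Function.update_eq_self, smul_eq_mul]
        · intro j _ hji
          rw [MultilinearMap.map_update_smul, AlternatingMap.coe_multilinearMap,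
            AlternatingMap.map_update_self _ _ hji.symm, smul_zero]
        · intro h; exact absurd (Finset.mem_univ i) h
      have hT' : Function.update v i y' ∈ T := by
        intro j
        by_cases hj : j = i
        · subst hj; simpa using hy
        · rw [Function.update_of_ne hj]; exact hvT j
      have := hvmax _ hT'
      simp only [hdet, abs_mul] at this
      exact le_of_mul_le_mul_right (by linarith) hv0
    · have := congrArg (Subtype.val) hsum
      simpa using this

end H112
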