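import Pool.Agent.H24.Lib.R_seed8.H112R2.Shannon
set_option autoImplicit false

/-! Module E2: convolution of laws (multiplication in the group algebra). -/

namespace H112

open Finset

variable {G : Type*} [AddCommGroup G]

theorem Conv_sum_prodLaw {α β M : Type*} [AddCommMonoid M] (p : α →₀ ℝ) (q : β →₀ ℝ)
    (g : α × β → ℝ → M) (hg : ∀ x, g x 0 = 0) :
    (prodLaw p q).sum g = p.sum fun x a => q.sum fun y b => g (x, y) (a * b) := by
  classical
  have hsub : (prodLaw p q).support ⊆ p.support ×ˢ q.support := by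
    intro x hx
    rw [Finsupp.mem_support_iff, prodLaw_apply] at hx
    rw [Finset.mem_product, Finsupp.mem_support_iff, Finsupp.mem_support_iff]
    exact ⟨left_ne_zero_of_mul hx, right_ne_zero_of_mul hx⟩
  rw [Finsupp.sum_of_support_subset (prodLaw p q) hsub g (fun _ _ => hg _), Finset.sum_product]
  rfl

theorem Conv_mapDomain_prodLaw {α β γ δ : Type*} (p : α →₀ ℝ) (q : β →₀ ℝ) (f : α → γ)
    (g : β → δ) :
    (prodLaw p q).mapDomain (Prod.map f g) = prodLaw (p.mapDomain f) (q.mapDomain g) := by
  classical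
  ext ⟨c, d⟩
  rw [prodLaw_apply]
  simp only [Finsupp.mapDomain]
  rw [Conv_sum_prodLaw]
  · simp only [Finsupp.sum, Finsupp.coe_finsetSum, Finset.sum_apply, Prod.map]
    rw [Finset.sum_mul_sum]
    refine Finset.sum_congr rfl fun i _ => Finset.sum_congr rfl fun j _ => ?_
    simp only [Finsupp.single_apply, Prod.mk.injEq]
    by_cases h1 : f i = c <;> by_cases h2 : g j = d <;> simp [h1, h2]
  · intro x; simp

theorem Conv_prodLaw_assoc {α β γ : Type*} (p : α →₀ ℝ) (q : β →₀ ℝ) (r : γ →₀ ℝ) :
    (prodLaw p (prodLaw q r)).mapDomain (Equiv.prodAssoc α β γ).symm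
      = prodLaw (prodLaw p q) r := by
  ext ⟨⟨x, y⟩, z⟩
  rw [← Finsupp.equivMapDomain_eq_mapDomain, Finsupp.equivMapDomain_apply]
  simp [mul_assoc]

theorem Conv_prodLaw_swap {α β : Type*} (p : α →₀ ℝ) (q : β →₀ ℝ) :
    (prodLaw p q).mapDomain (Equiv.prodComm α β) = prodLaw q p := by
  ext ⟨x, y⟩
  rw [← Finsupp.equivMapDomain_eq_mapDomain, Finsupp.equivMapDomain_apply]
  simp [mul_comm]

theorem Conv_prodLaw_fst {α β : Type*} (p : α →₀ ℝ) {q : β →₀ ℝ} (hq : IsLaw q) :
    (prodLaw p q).mapDomain Prod.fst = p := by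
  classical
  ext c
  simp only [Finsupp.mapDomain]
  rw [Conv_sum_prodLaw]
  · simp only [Finsupp.sum, Finsupp.coe_finsetSum, Finset.sum_apply]
    have h1 : ∀ i ∈ p.support, (∑ j ∈ q.support, (Finsupp.single i (p i * q j)) c)
        = Finsupp.single i (p i) c := by
      intro i _
      by_cases h : i = c
      · subst h
        simp only [Finsupp.single_eq_same]
        rw [← Finset.mul_sum]
        have := hq.2
        simp only [Finsupp.sum] at this
        rw [this, mul_one]
      · simp [Finsupp.single_apply, h]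
    rw [Finset.sum_congr rfl h1]
    have := congrArg (fun f => f c) (Finsupp.sum_single p)
    simpa [Finsupp.sum] using this
  · intro x; simp

theorem Conv_prodLaw_snd {α β : Type*} {p : α →₀ ℝ} (hp : IsLaw p) (q : β →₀ ℝ) :
    (prodLaw p q).mapDomain Prod.snd = q := by
  rw [← Conv_prodLaw_swap q p, ← Finsupp.mapDomain_comp]
  exact Conv_prodLaw_fst q hp

theorem coeff_mul (p q : AddMonoidAlgebra ℝ G) :
    (p * q).coeff = (prodLaw p.coeff q.coeff).mapDomain fun x => x.1 + x.2 := by
  rw [AddMonoidAlgebra.mul_def, Finsupp.mapDomain, Conv_sum_prodLaw]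
  · simp only [AddMonoidAlgebra.coeff_finsuppSum, AddMonoidAlgebra.coeff_single]
  · intro x; simp

/-- value of a convolution -/
theorem coeff_mul_apply (p q : AddMonoidAlgebra ℝ G) (y : G) :
    (p * q).coeff y = p.coeff.sum fun x a => a * q.coeff (y - x) := by
  classical
  rw [AddMonoidAlgebra.coeff_mul]
  refine Finsupp.sum_congr fun x _ => ?_
  rw [Finsupp.sum, Finset.sum_eq_single (y - x)]
  · simp
  · intro b _ hb
    rw [if_neg]
    intro h
    apply hb
    rw [← h]; abel
  · intro h
    rw [Finsupp.notMem_support_iff] at h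
    simp [h]

theorem support_mul_subset [DecidableEq G] {p q : AddMonoidAlgebra ℝ G} {A B C : Finset G}
    (hA : p.coeff.support ⊆ A) (hB : q.coeff.support ⊆ B) (hC : ∀ a ∈ A, ∀ b ∈ B, a + b ∈ C) :
    (p * q).coeff.support ⊆ C := by
  intro y hy
  rw [Finsupp.mem_support_iff, coeff_mul_apply] at hy
  obtain ⟨x, hx, hne⟩ := Finset.exists_ne_zero_of_sum_ne_zero hy
  have h2 : y - x ∈ q.coeff.support := by
    rw [Finsupp.mem_support_iff]
    exact right_ne_zero_of_mul hne
  have := hC x (hA hx) (y - x) (hB h2)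
  simpa using this

theorem Law.one : Law (1 : AddMonoidAlgebra ℝ G) := by
  classical
  rw [AddMonoidAlgebra.one_def]
  constructor
  · intro x
    simp only [AddMonoidAlgebra.coeff_single, Finsupp.single_apply]
    split_ifs <;> norm_num
  · simp [AddMonoidAlgebra.coeff_single]

theorem Law.mul {p q : AddMonoidAlgebra ℝ G} (hp : Law p) (hq : Law q) : Law (p * q) := by
  unfold Law
  rw [coeff_mul]
  exact isLaw_mapDomain (isLaw_prodLaw hp hq) _

theorem Law.pow {p : AddMonoidAlgebra ℝ G} (hp : Law p) (n : ℕ) : Law (p ^ n) := by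
  induction n with
  | zero => rw [pow_zero]; exact Law.one
  | succ n ih => rw [pow_succ]; exact ih.mul hp

theorem Law.refl {p : AddMonoidAlgebra ℝ G} (hp : Law p) : Law (refl p) := by
  unfold Law H112.refl
  exact isLaw_mapDomain hp _

theorem law_U {A : Finset G} (hA : A.Nonempty) : Law (U A) := isLaw_unif hA

theorem refl_apply (p : AddMonoidAlgebra ℝ G) (x : G) : (refl p).coeff x = p.coeff (-x) := by
  unfold refl
  rw [AddMonoidAlgebra.coeff_ofCoeff]
  conv_lhs => rw [← neg_neg x]
  exact Finsupp.mapDomain_apply neg_injective _ _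

theorem refl_mul (p q : AddMonoidAlgebra ℝ G) : refl (p * q) = refl p * refl q := by
  apply AddMonoidAlgebra.coeff_injective
  rw [coeff_mul]
  unfold refl
  simp only [AddMonoidAlgebra.coeff_ofCoeff]
  rw [coeff_mul, ← Conv_mapDomain_prodLaw, ← Finsupp.mapDomain_comp, ← Finsupp.mapDomain_comp]
  congr 1
  funext x
  simp [add_comm]

theorem refl_one : refl (1 : AddMonoidAlgebra ℝ G) = 1 := by
  apply AddMonoidAlgebra.coeff_injective
  unfold refl
  rw [AddMonoidAlgebra.coeff_ofCoeff, AddMonoidAlgebra.one_def, AddMonoidAlgebra.coeff_single,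
    Finsupp.mapDomain_single, neg_zero]

theorem refl_pow (p : AddMonoidAlgebra ℝ G) (n : ℕ) : refl (p ^ n) = refl p ^ n := by
  induction n with
  | zero => rw [pow_zero, pow_zero, refl_one]
  | succ n ih => rw [pow_succ, pow_succ, refl_mul, ih]

theorem refl_refl (p : AddMonoidAlgebra ℝ G) : refl (refl p) = p := by
  apply AddMonoidAlgebra.coeff_injective
  ext x
  rw [refl_apply, refl_apply, neg_neg]

theorem H_refl (p : AddMonoidAlgebra ℝ G) : H (refl p) = H p := by
  unfold H refl
  exact ent_mapDomain_of_injOn _ neg_injective.injOn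

theorem H_one : H (1 : AddMonoidAlgebra ℝ G) = 0 := by
  unfold H ent
  rw [AddMonoidAlgebra.one_def, AddMonoidAlgebra.coeff_single]
  simp

theorem H_U {A : Finset G} (hA : A.Nonempty) : H (U A) = Real.log A.card := ent_unif hA

theorem H_mul_le {p q : AddMonoidAlgebra ℝ G} (hp : Law p) (hq : Law q) :
    H (p * q) ≤ H p + H q := by
  unfold H
  rw [coeff_mul, ← ent_prodLaw hp hq]
  exact ent_mapDomain_le (isLaw_prodLaw hp hq) _

theorem H_le_mul {p q : AddMonoidAlgebra ℝ G} (hp : Law p) (hq : Law q) :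
    H p ≤ H (p * q) := by
  have hw := isLaw_prodLaw hp hq
  have h1 := ent_subadd hw (fun o : G × G => o.1 + o.2) (fun o : G × G => o.2)
  have h2 : ent ((prodLaw p.coeff q.coeff).mapDomain fun o : G × G => (o.1 + o.2, o.2)) =
      ent (prodLaw p.coeff q.coeff) := by
    apply ent_mapDomain_of_injOn
    apply Function.Injective.injOn
    rintro ⟨a, b⟩ ⟨c, d⟩ h
    simp only [Prod.mk.injEq] at h
    obtain ⟨h1, h2⟩ := h
    subst h2
    rw [add_left_injective _ |>.eq_iff] at h1
    rw [h1]
  have h3 : ent ((prodLaw p.coeff q.coeff).mapDomain fun o : G × G => o.2) = H q := by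
    have h4 := Conv_prodLaw_snd hp q.coeff
    exact congrArg ent h4
  rw [h2, h3, ← coeff_mul, ent_prodLaw hp hq] at h1
  unfold H at *
  linarith

/-- `H(X+Y+Z) + H(Y) ≤ H(X+Y) + H(Y+Z)` for independent `X, Y, Z`. -/
theorem H_submod {p q r : AddMonoidAlgebra ℝ G} (hp : Law p) (hq : Law q) (hr : Law r) :
    H (p * q * r) + H q ≤ H (p * q) + H (q * r) := by
  have hqr := isLaw_prodLaw hq hr
  have hw := isLaw_prodLaw hp hqr
  set w := prodLaw p.coeff (prodLaw q.coeff r.coeff) with hwdef
  have h1 := ent_submod hw (fun o : G × G × G => o.1) (fun o => o.2.2)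
    (fun o => o.1 + o.2.1 + o.2.2)
  -- H(A,B,C)
  have e1 : ent (w.mapDomain fun o : G × G × G => (o.1, o.2.2, o.1 + o.2.1 + o.2.2)) =
      H p + (H q + H r) := by
    rw [ent_mapDomain_of_injOn, hwdef, ent_prodLaw hp hqr, ent_prodLaw hq hr]
    · rfl
    · apply Function.Injective.injOn
      rintro ⟨a, b, c⟩ ⟨a', b', c'⟩ h
      simp only [Prod.mk.injEq] at h
      obtain ⟨h1, h2, h3⟩ := h
      subst h1 h2
      have : b = b' := by
        have h4 := add_right_cancel h3
        exact add_left_cancel h4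
      rw [this]
  -- H(C)
  have e2 : w.mapDomain (fun o : G × G × G => o.1 + o.2.1 + o.2.2) = (p * q * r).coeff := by
    rw [coeff_mul, coeff_mul, hwdef]
    have : prodLaw ((prodLaw p.coeff q.coeff).mapDomain fun x => x.1 + x.2) r.coeff =
        (prodLaw (prodLaw p.coeff q.coeff) r.coeff).mapDomain
          (Prod.map (fun x => x.1 + x.2) id) := by
      rw [Conv_mapDomain_prodLaw, Finsupp.mapDomain_id]
    rw [this, ← Conv_prodLaw_assoc, ← Finsupp.mapDomain_comp, ← Finsupp.mapDomain_comp]
    rfl
  -- H(A,C)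
  have e3 : ent (w.mapDomain fun o : G × G × G => (o.1, o.1 + o.2.1 + o.2.2)) =
      H p + H (q * r) := by
    have h4 : (w.mapDomain fun o : G × G × G => (o.1, o.1 + o.2.1 + o.2.2)) =
        (prodLaw p.coeff (q * r).coeff).mapDomain (fun x : G × G => (x.1, x.1 + x.2)) := by
      rw [coeff_mul q r]
      have : prodLaw p.coeff ((prodLaw q.coeff r.coeff).mapDomain fun x => x.1 + x.2) =
          (prodLaw p.coeff (prodLaw q.coeff r.coeff)).mapDomain
            (Prod.map id (fun x => x.1 + x.2)) := by
        rw [Conv_mapDomain_prodLaw, Finsupp.mapDomain_id]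
      rw [this, ← Finsupp.mapDomain_comp, hwdef]
      congr 1
      funext x
      simp [add_assoc]
    rw [h4, ent_mapDomain_of_injOn, ent_prodLaw hp (Law.mul hq hr)]
    · rfl
    · apply Function.Injective.injOn
      rintro ⟨a, b⟩ ⟨a', b'⟩ h
      simp only [Prod.mk.injEq] at h
      obtain ⟨h1, h2⟩ := h
      subst h1
      rw [add_left_cancel h2]
  -- H(B,C)
  have e4 : ent (w.mapDomain fun o : G × G × G => (o.2.2, o.1 + o.2.1 + o.2.2)) =
      H (p * q) + H r := by
    have h4 : (w.mapDomain fun o : G × G × G => (o.2.2, o.1 + o.2.1 + o.2.2)) =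
        (prodLaw (p * q).coeff r.coeff).mapDomain (fun x : G × G => (x.2, x.1 + x.2)) := by
      rw [coeff_mul p q]
      have : prodLaw ((prodLaw p.coeff q.coeff).mapDomain fun x => x.1 + x.2) r.coeff =
          (prodLaw (prodLaw p.coeff q.coeff) r.coeff).mapDomain
            (Prod.map (fun x => x.1 + x.2) id) := by
        rw [Conv_mapDomain_prodLaw, Finsupp.mapDomain_id]
      rw [this, ← Conv_prodLaw_assoc, ← Finsupp.mapDomain_comp, ← Finsupp.mapDomain_comp, hwdef]
      rfl
    rw [h4, ent_mapDomain_of_injOn, ent_prodLaw (Law.mul hp hq) hr]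
    · rfl
    · apply Function.Injective.injOn
      rintro ⟨a, b⟩ ⟨a', b'⟩ h
      simp only [Prod.mk.injEq] at h
      obtain ⟨h1, h2⟩ := h
      subst h1
      rw [add_right_cancel h2]
  rw [e1, e2, e3, e4] at h1
  have : H (p * q * r) = ent (p * q * r).coeff := rfl
  linarith

/-- Ruzsa triangle inequality: `H(X-Y) + H(Z) ≤ H(X+Z) + H(Z+Y)` for independent `X, Y, Z`. -/
theorem H_ruzsa {p q r : AddMonoidAlgebra ℝ G} (hp : Law p) (hq : Law q) (hr : Law r) :
    H (p * refl q) + H r ≤ H (p * r) + H (r * q) := by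
  have hqr := isLaw_prodLaw hq hr
  have hw := isLaw_prodLaw hp hqr
  set w := prodLaw p.coeff (prodLaw q.coeff r.coeff) with hwdef
  have h1 := ent_submod hw (fun o : G × G × G => o.1 + o.2.2) (fun o => o.2.1)
    (fun o => o.1 - o.2.1)
  -- H(A,B,C)
  have e1 : ent (w.mapDomain fun o : G × G × G => (o.1 + o.2.2, o.2.1, o.1 - o.2.1)) =
      H p + (H q + H r) := by
    rw [ent_mapDomain_of_injOn, hwdef, ent_prodLaw hp hqr, ent_prodLaw hq hr]
    · rfl
    · apply Function.Injective.injOn
      rintro ⟨a, b, c⟩ ⟨a', b', c'⟩ h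
      simp only [Prod.mk.injEq] at h
      obtain ⟨h1, h2, h3⟩ := h
      subst h2
      have h4 : a = a' := by
        have := congrArg (fun t => t + b) h3
        simpa using this
      subst h4
      rw [add_left_cancel h1]
  -- H(C)
  have e2 : w.mapDomain (fun o : G × G × G => o.1 - o.2.1) = (p * refl q).coeff := by
    rw [coeff_mul]
    unfold refl
    rw [AddMonoidAlgebra.coeff_ofCoeff]
    have h5 : prodLaw p.coeff (q.coeff.mapDomain fun x => -x) =
        (prodLaw p.coeff q.coeff).mapDomain (Prod.map id (fun x => -x)) := by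
      rw [Conv_mapDomain_prodLaw, Finsupp.mapDomain_id]
    have h6 : prodLaw p.coeff q.coeff = w.mapDomain (Prod.map id Prod.fst) := by
      rw [hwdef, Conv_mapDomain_prodLaw, Finsupp.mapDomain_id, Conv_prodLaw_fst _ hr]
    rw [h5, h6, ← Finsupp.mapDomain_comp, ← Finsupp.mapDomain_comp]
    congr 1
    funext x
    simp [sub_eq_add_neg]
  -- H(A,C)
  have e3 : ent (w.mapDomain fun o : G × G × G => (o.1 + o.2.2, o.1 - o.2.1)) ≤
      H (p * r) + H (r * q) := by
    have h4 : (w.mapDomain fun o : G × G × G => (o.1 + o.2.2, o.1 - o.2.1)) =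
        (w.mapDomain fun o : G × G × G => (o.1 + o.2.2, o.2.1 + o.2.2)).mapDomain
          (fun x : G × G => (x.1, x.1 - x.2)) := by
      rw [← Finsupp.mapDomain_comp]
      congr 1
      funext x
      simp
    rw [h4, ent_mapDomain_of_injOn]
    · refine (ent_subadd hw _ _).trans (le_of_eq ?_)
      congr 1
      · have h5 : w.mapDomain (fun o : G × G × G => o.1 + o.2.2) = (p * r).coeff := by
          rw [coeff_mul]
          have h6 : prodLaw p.coeff r.coeff = w.mapDomain (Prod.map id Prod.snd) := by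
            rw [hwdef, Conv_mapDomain_prodLaw, Finsupp.mapDomain_id, Conv_prodLaw_snd hq]
          rw [h6, ← Finsupp.mapDomain_comp]
          rfl
        rw [h5]; rfl
      · have h5 : w.mapDomain (fun o : G × G × G => o.2.1 + o.2.2) = (r * q).coeff := by
          rw [mul_comm r q, coeff_mul]
          have h6 : prodLaw q.coeff r.coeff = w.mapDomain Prod.snd := by
            rw [hwdef, Conv_prodLaw_snd hp]
          rw [h6, ← Finsupp.mapDomain_comp]
          rfl
        rw [h5]; rfl
    · apply Function.Injective.injOn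
      rintro ⟨a, b⟩ ⟨a', b'⟩ h
      simp only [Prod.mk.injEq] at h
      obtain ⟨h1, h2⟩ := h
      subst h1
      rw [sub_right_inj] at h2
      rw [h2]
  -- H(B,C)
  have e4 : ent (w.mapDomain fun o : G × G × G => (o.2.1, o.1 - o.2.1)) =
      H p + H q := by
    have h6 : prodLaw p.coeff q.coeff = w.mapDomain (Prod.map id Prod.fst) := by
      rw [hwdef, Conv_mapDomain_prodLaw, Finsupp.mapDomain_id, Conv_prodLaw_fst _ hr]
    have h4 : (w.mapDomain fun o : G × G × G => (o.2.1, o.1 - o.2.1)) =
        (prodLaw p.coeff q.coeff).mapDomain (fun x : G × G => (x.2, x.1 - x.2)) := by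
      rw [h6, ← Finsupp.mapDomain_comp]
      rfl
    rw [h4, ent_mapDomain_of_injOn, ent_prodLaw hp hq]
    · rfl
    · apply Function.Injective.injOn
      rintro ⟨a, b⟩ ⟨a', b'⟩ h
      simp only [Prod.mk.injEq] at h
      obtain ⟨h1, h2⟩ := h
      subst h1
      rw [sub_left_inj] at h2
      rw [h2]
  rw [e1, e2, e4] at h1
  have : H (p * refl q) = ent (p * refl q).coeff := rfl
  linarith

/-- the collision probability bounds the entropy: `exp(-H(g * ǧ)) ≤ (g * ǧ)(0)`. -/
theorem exp_neg_le_coeff_zero {g : AddMonoidAlgebra ℝ G} (hg : Law g) :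
    Real.exp (-H (g * refl g)) ≤ (g * refl g).coeff 0 := by
  have hval : ∀ x, (g * refl g).coeff x = ∑ y ∈ g.coeff.support, g.coeff y * g.coeff (y - x) := by
    intro x
    rw [coeff_mul_apply]
    refine Finset.sum_congr rfl fun y _ => ?_
    show g.coeff y * (refl g).coeff (x - y) = _
    rw [refl_apply]
    congr 2
    abel
  have h0 : (g * refl g).coeff 0 = ∑ y ∈ g.coeff.support, g.coeff y ^ 2 := by
    rw [hval]
    refine Finset.sum_congr rfl fun y _ => ?_
    rw [sub_zero, sq]
  have hle : ∀ x, (g * refl g).coeff x ≤ (g * refl g).coeff 0 := by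
    intro x
    rw [hval, h0]
    have h1 : ∀ y ∈ g.coeff.support, g.coeff y * g.coeff (y - x) ≤
        (g.coeff y ^ 2 + g.coeff (y - x) ^ 2) / 2 := by
      intro y _
      nlinarith [sq_nonneg (g.coeff y - g.coeff (y - x))]
    refine (Finset.sum_le_sum h1).trans ?_
    rw [← Finset.sum_div, Finset.sum_add_distrib]
    have h2 : ∑ y ∈ g.coeff.support, g.coeff (y - x) ^ 2 ≤ ∑ y ∈ g.coeff.support, g.coeff y ^ 2 := by
      classical
      have h3 : ∑ y ∈ g.coeff.support, g.coeff (y - x) ^ 2 =
          ∑ z ∈ g.coeff.support.image (fun y => y - x), g.coeff z ^ 2 := by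
        rw [Finset.sum_image]
        intro a _ b _ h
        simpa using h
      rw [h3]
      have h4 : ∑ z ∈ g.coeff.support.image (fun y => y - x), g.coeff z ^ 2 =
          ∑ z ∈ (g.coeff.support.image (fun y => y - x)) ∩ g.coeff.support, g.coeff z ^ 2 := by
        symm
        apply Finset.sum_subset Finset.inter_subset_left
        intro z hz hz2
        rw [Finset.mem_inter, not_and] at hz2
        have := hz2 hz
        rw [Finsupp.notMem_support_iff] at this
        rw [this]; norm_num
      rw [h4]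
      apply Finset.sum_le_sum_of_subset_of_nonneg Finset.inter_subset_right
      intro i _ _
      positivity
    linarith
  have hpos : 0 < (g * refl g).coeff 0 := by
    rw [h0]
    obtain ⟨x, hx⟩ := hg.ne_zero
    apply Finset.sum_pos
    · intro y hy
      rw [Finsupp.mem_support_iff] at hy
      positivity
    · exact ⟨x, hx⟩
  have := neg_log_le_ent (Law.mul hg hg.refl) hle
  have h5 : -H (g * refl g) ≤ Real.log ((g * refl g).coeff 0) := by
    have h6 : H (g * refl g) = ent (g * refl g).coeff := rfl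
    linarith
  calc Real.exp (-H (g * refl g)) ≤ Real.exp (Real.log ((g * refl g).coeff 0)) :=
        Real.exp_le_exp.mpr h5
    _ = _ := Real.exp_log hpos

end H112
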