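import Mathlib
set_option autoImplicit false

/-! Definitions for the near-polynomial Freiman-Ruzsa theorem (helper112). -/

namespace H112

open Finset

/-- a finitely supported probability law -/
def IsLaw {α : Type*} (p : α →₀ ℝ) : Prop := (∀ x, 0 ≤ p x) ∧ (p.sum fun _ a => a) = 1

/-- Shannon entropy of a finitely supported function -/
noncomputable def ent {α : Type*} (p : α →₀ ℝ) : ℝ := p.sum fun _ a => Real.negMulLog a

/-- product law -/
noncomputable def prodLaw {α β : Type*} (p : α →₀ ℝ) (q : β →₀ ℝ) : α × β →₀ ℝ := by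
  classical
  exact Finsupp.onFinset (p.support ×ˢ q.support) (fun x => p x.1 * q x.2) (by
    intro x hx
    rw [Finset.mem_product, Finsupp.mem_support_iff, Finsupp.mem_support_iff]
    exact ⟨left_ne_zero_of_mul hx, right_ne_zero_of_mul hx⟩)

@[simp] theorem prodLaw_apply {α β : Type*} (p : α →₀ ℝ) (q : β →₀ ℝ) (x : α × β) :
    prodLaw p q x = p x.1 * q x.2 := rfl

variable {G : Type*} [AddCommGroup G]

/-- An element of the group algebra is a law. -/
def Law (p : AddMonoidAlgebra ℝ G) : Prop := IsLaw p.coeff

/-- entropy of an element of the group algebra -/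
noncomputable def H (p : AddMonoidAlgebra ℝ G) : ℝ := ent p.coeff

/-- reflection `x ↦ -x` -/
noncomputable def refl (p : AddMonoidAlgebra ℝ G) : AddMonoidAlgebra ℝ G :=
  AddMonoidAlgebra.ofCoeff (p.coeff.mapDomain fun x => -x)

/-- law of `X` conditioned on `X + B = s`, for independent `X ~ p`, `B ~ b`
(a law only if `(p * b).coeff s ≠ 0`). -/
noncomputable def tilt (p b : AddMonoidAlgebra ℝ G) (s : G) : AddMonoidAlgebra ℝ G :=
  AddMonoidAlgebra.ofCoeff (Finsupp.onFinset p.coeff.support
    (fun x => p.coeff x * b.coeff (s - x) / (p * b).coeff s) (by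
      intro x hx
      rw [Finsupp.mem_support_iff]
      intro h0
      apply hx
      simp only [h0, zero_mul, zero_div]))

/-- `e(t) = exp(2πi t)` -/
noncomputable def ee (t : UnitAddCircle) : ℂ := (AddCircle.toCircle t : ℂ)

/-- Fourier transform at a character -/
noncomputable def ft (f : AddMonoidAlgebra ℝ G) (γ : G →+ UnitAddCircle) : ℂ :=
  f.coeff.sum fun x a => (a : ℂ) * ee (γ x)

/-- Bohr set -/
def bohr (S : Set (G →+ UnitAddCircle)) (r : ℝ) : Set G := {x | ∀ γ ∈ S, ‖γ x‖ ≤ r}

/-- the annihilator of a set of characters -/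
def ann (S : Set (G →+ UnitAddCircle)) : AddSubgroup G where
  carrier := {x | ∀ γ ∈ S, γ x = 0}
  zero_mem' := by intro γ _; exact map_zero γ
  add_mem' := by
    intro a b ha hb γ hγ
    rw [map_add, ha γ hγ, hb γ hγ, add_zero]
  neg_mem' := by
    intro a ha γ hγ
    rw [map_neg, ha γ hγ, neg_zero]

/-- uniform law on a finite set -/
noncomputable def unif {α : Type*} (A : Finset α) : α →₀ ℝ := by
  classical
  exact Finsupp.onFinset A (fun x => if x ∈ A then (A.card : ℝ)⁻¹ else 0) (by
    intro x hx
    by_contra h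
    simp [h] at hx)

/-- uniform law as an element of the group algebra -/
noncomputable def U (A : Finset G) : AddMonoidAlgebra ℝ G := AddMonoidAlgebra.ofCoeff (unif A)

end H112
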