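import Pool.Agent.H24.Lib.R_seed8.H112R2.Auer
set_option autoImplicit false

/-! Module D2: lattice points of norm balls: dimension and doubling. -/

namespace H112

/-- lattice points of the ball of radius `r` -/
def LL {m : ℕ} (N : Seminorm ℝ (Fin m → ℝ)) (r : ℝ) : Set (Fin m → ℤ) :=
  {c | N (fun i => (c i : ℝ)) ≤ r}

theorem Dim_sum_le {m : ℕ} (N : Seminorm ℝ (Fin m → ℝ)) {ι : Type*} (s : Finset ι)
    (f : ι → (Fin m → ℝ)) : N (∑ i ∈ s, f i) ≤ ∑ i ∈ s, N (f i) :=
  Finset.le_sum_of_subadditive N (map_zero N).le (map_add_le_add N) s f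

/-- the Auer family for the lattice points of a ball -/
theorem Dim_family {m : ℕ} (N : Seminorm ℝ (Fin m → ℝ)) {r : ℝ} (hfin : (LL N r).Finite) :
    ∃ (k : ℕ) (x : Fin k → (Fin m → ℤ)),
      LinearIndependent ℝ (fun i : Fin k => (fun l => (x i l : ℝ) : Fin m → ℝ)) ∧
      (∀ i, x i ∈ LL N r) ∧
      ∀ y ∈ LL N r, ∃ a : Fin k → ℝ, (∀ i, |a i| ≤ 1) ∧
        (fun l => (y l : ℝ) : Fin m → ℝ) = ∑ i, a i • (fun l => (x i l : ℝ) : Fin m → ℝ) := by
  classical
  let e : (Fin m → ℤ) → (Fin m → ℝ) := fun c l => (c l : ℝ)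
  obtain ⟨k, v, hli, hv, hc⟩ := exists_auer (e '' LL N r) (hfin.image e)
  choose x hx hxv using hv
  have hv' : v = fun i => e (x i) := by funext i; exact (hxv i).symm
  subst hv'
  exact ⟨k, x, hli, hx, fun y hy => hc (e y) ⟨y, hy, rfl⟩⟩

/-- if the lattice points of norm `≤ r` span, then `|L((3Mt+1) r)| ≥ (t+1)^M |L(r)|`
for every `M ≤ m`. -/
theorem dim_growth {m : ℕ} (N : Seminorm ℝ (Fin m → ℝ)) {r : ℝ} (hr : 0 ≤ r)
    (hspan : Submodule.span ℝ {v : Fin m → ℝ | ∃ c ∈ LL N r, v = fun i => (c i : ℝ)} = ⊤)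
    {M t : ℕ} (hM : M ≤ m) (hfin : (LL N ((3 * M * t + 1) * r)).Finite) :
    (t + 1) ^ M * (LL N r).ncard ≤ (LL N ((3 * M * t + 1) * r)).ncard := by
  classical
  have hrR : r ≤ (3 * M * t + 1) * r := by
    have : 0 ≤ (3 * (M : ℝ) * t) * r := by positivity
    linarith
  have hsub : LL N r ⊆ LL N ((3 * M * t + 1) * r) := fun c hc => le_trans hc hrR
  obtain ⟨k, x, hli, hx, hc⟩ := Dim_family N (hfin.subset hsub)
  set v : Fin k → (Fin m → ℝ) := fun i l => (x i l : ℝ) with hv
  have hvspan : Submodule.span ℝ (Set.range v) = ⊤ := by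
    rw [eq_top_iff, ← hspan, Submodule.span_le]
    rintro w ⟨c, hcL, rfl⟩
    obtain ⟨a, _, ha⟩ := hc c hcL
    rw [ha]
    exact Submodule.sum_mem _ fun i _ =>
      Submodule.smul_mem _ _ (Submodule.subset_span ⟨i, rfl⟩)
  let b : Module.Basis (Fin k) ℝ (Fin m → ℝ) := Module.Basis.mk hli hvspan.ge
  have hkm : k = m := by
    have h1 := Module.finrank_eq_card_basis b
    rw [Module.finrank_fin_fun, Fintype.card_fin] at h1
    exact h1.symm
  have hMk : M ≤ k := hkm ▸ hM
  -- coordinate functionals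
  have hcoord : ∀ i j, b.coord j (v i) = if i = j then 1 else 0 := by
    intro i j
    have : b i = v i := by simp [b]
    rw [← this, Module.Basis.coord_apply, Module.Basis.repr_self, Finsupp.single_apply]
  let P : (Fin M → Fin (t + 1)) × LL N r → (Fin m → ℤ) := fun p =>
    (∑ i : Fin M, (3 * (p.1 i : ℕ) : ℤ) • x (Fin.castLE hMk i)) + p.2.1
  have hPcast : ∀ p, (fun l => ((P p) l : ℝ) : Fin m → ℝ) =
      (∑ i : Fin M, (3 * ((p.1 i : ℕ) : ℝ)) • v (Fin.castLE hMk i)) + fun l => ((p.2.1 l : ℤ) : ℝ) := by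
    intro p
    funext l
    simp [P, v]
  have hP : ∀ p, P p ∈ LL N ((3 * M * t + 1) * r) := by
    intro p
    show N _ ≤ _
    rw [hPcast]
    have h1 : N (∑ i : Fin M, (3 * ((p.1 i : ℕ) : ℝ)) • v (Fin.castLE hMk i)) ≤
        ∑ i : Fin M, 3 * t * r := by
      refine (Dim_sum_le N _ _).trans (Finset.sum_le_sum fun i _ => ?_)
      rw [map_smul_eq_mul]
      have h2 : N (v (Fin.castLE hMk i)) ≤ r := hx _
      have h3 : ‖(3 * ((p.1 i : ℕ) : ℝ))‖ ≤ 3 * t := by
        rw [Real.norm_of_nonneg (by positivity)]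
        have : ((p.1 i : ℕ) : ℝ) ≤ t := by exact_mod_cast Nat.lt_succ_iff.mp (p.1 i).2
        linarith
      exact mul_le_mul h3 h2 (apply_nonneg N _) (by positivity)
    have h2 : N (fun l => ((p.2.1 l : ℤ) : ℝ)) ≤ r := p.2.2
    have h3 : (∑ i : Fin M, 3 * (t : ℝ) * r) = 3 * M * t * r := by
      simp; ring
    calc _ ≤ N (∑ i : Fin M, (3 * ((p.1 i : ℕ) : ℝ)) • v (Fin.castLE hMk i)) +
          N (fun l => ((p.2.1 l : ℤ) : ℝ)) := map_add_le_add N _ _
      _ ≤ 3 * M * t * r + r := by rw [← h3]; exact add_le_add h1 h2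
      _ = _ := by ring
  have hinj : Function.Injective (fun p => (⟨P p, hP p⟩ : LL N ((3 * M * t + 1) * r))) := by
    rintro ⟨c, y, hy⟩ ⟨c', y', hy'⟩ hpp
    have hpp' : P (c, ⟨y, hy⟩) = P (c', ⟨y', hy'⟩) := congrArg Subtype.val hpp
    obtain ⟨a, ha1, ha⟩ := hc y hy
    obtain ⟨a', ha1', ha'⟩ := hc y' hy'
    have hcc : c = c' := by
      funext i
      have h0 := congrArg (fun z : Fin m → ℤ => b.coord (Fin.castLE hMk i)
        (fun l => (z l : ℝ))) hpp'
      simp only [hPcast] at h0
      rw [ha, ha'] at h0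
      have hv1 : ∀ s : Fin k → ℝ, ∀ j, b.coord j (∑ i, s i • v i) = s j := by
        intro s j
        rw [map_sum]
        simp only [map_smul, hcoord, smul_eq_mul, mul_ite, mul_one, mul_zero]
        simp
      have hv2 : ∀ s : Fin M → ℝ,
          b.coord (Fin.castLE hMk i) (∑ i, s i • v (Fin.castLE hMk i)) = s i := by
        intro s
        rw [map_sum]
        simp only [map_smul, hcoord, smul_eq_mul, mul_ite, mul_one, mul_zero]
        simp [Fin.castLE_inj]
      rw [map_add, map_add, hv1, hv1, hv2, hv2] at h0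
      have e1 := abs_le.mp (ha1 (Fin.castLE hMk i))
      have e2 := abs_le.mp (ha1' (Fin.castLE hMk i))
      have e3 : ((c i : ℕ) : ℝ) - ((c' i : ℕ) : ℝ) < 1 := by linarith
      have e4 : ((c' i : ℕ) : ℝ) - ((c i : ℕ) : ℝ) < 1 := by linarith
      have e5 : ((c i : ℕ) : ℤ) - ((c' i : ℕ) : ℤ) < 1 := by exact_mod_cast e3
      have e6 : ((c' i : ℕ) : ℤ) - ((c i : ℕ) : ℤ) < 1 := by exact_mod_cast e4
      apply Fin.ext
      omega
    subst hcc
    have : y = y' := by
      have := hpp'
      simp only [P] at this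
      exact add_left_cancel this
    subst this
    rfl
  have : Finite (LL N ((3 * M * t + 1) * r)) := hfin
  have hcard := Nat.card_le_card_of_injective _ hinj
  rw [Nat.card_prod] at hcard
  simpa [Nat.card_coe_set_eq] using hcard

/-- crude doubling -/
theorem doubling {m : ℕ} (N : Seminorm ℝ (Fin m → ℝ)) {r : ℝ} (hr : 0 ≤ r)
    (hfin : (LL N r).Finite) :
    (LL N r).ncard ≤ (4 * m + 1) ^ m * (LL N (r / 2)).ncard := by
  classical
  obtain ⟨k, x, hli, hx, hc⟩ := Dim_family N hfin
  have hkm : k ≤ m := by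
    have := hli.fintype_card_le_finrank
    simpa using this
  have hfin2 : (LL N (r / 2)).Finite :=
    hfin.subset fun c hc => le_trans hc (by linarith : r / 2 ≤ r)
  choose! a ha1 ha using hc
  let cell : (Fin m → ℤ) → (Fin k → ℤ) := fun y i => ⌊2 * m * a y i⌋
  let T : Finset (Fin k → ℤ) := Fintype.piFinset fun _ => Finset.Icc (-(2 * m : ℤ)) (2 * m)
  have hT : T.card = (4 * m + 1) ^ k := by
    simp only [T, Fintype.card_piFinset, Finset.prod_const, Finset.card_univ, Fintype.card_fin,
      Int.card_Icc]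
    congr 1
    omega
  have hmaps : ∀ y ∈ hfin.toFinset, cell y ∈ T := by
    intro y hy
    rw [Set.Finite.mem_toFinset] at hy
    simp only [T, Fintype.mem_piFinset, Finset.mem_Icc, cell]
    intro i
    have h1 := abs_le.mp (ha1 y hy i)
    have hm : (0 : ℝ) ≤ 2 * m := by positivity
    constructor
    · rw [Int.le_floor]; push_cast; nlinarith
    · have : ⌊2 * (m : ℝ) * a y i⌋ ≤ ⌊(2 * (m : ℝ))⌋ := Int.floor_le_floor (by nlinarith)
      refine this.trans ?_
      have : (2 * (m : ℝ)) = ((2 * m : ℤ) : ℝ) := by push_cast; ring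
      rw [this, Int.floor_intCast]
  have hfib : ∀ z ∈ T, (hfin.toFinset.filter fun y => cell y = z).card ≤ (LL N (r / 2)).ncard := by
    intro z _
    rcases (hfin.toFinset.filter fun y => cell y = z).eq_empty_or_nonempty with h | ⟨y0, hy0⟩
    · rw [h]; simp
    · rw [Set.ncard_eq_toFinset_card _ hfin2]
      rw [Finset.mem_filter, Set.Finite.mem_toFinset] at hy0
      apply Finset.card_le_card_of_injOn (fun y => y - y0)
      · intro y hy
        simp only [Finset.coe_filter, Set.Finite.mem_toFinset, Set.mem_setOf_eq] at hy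
        simp only [Set.Finite.coe_toFinset]
        show N _ ≤ r / 2
        have hsub : (fun l => (((y - y0) l : ℤ) : ℝ) : Fin m → ℝ) =
            ∑ i, (a y i - a y0 i) • (fun l => (x i l : ℝ) : Fin m → ℝ) := by
          have e1 := ha y hy.1
          have e2 := ha y0 hy0.1
          have : (fun l => (((y - y0) l : ℤ) : ℝ) : Fin m → ℝ) =
              (fun l => (y l : ℝ)) - (fun l => (y0 l : ℝ)) := by
            funext l; simp
          rw [this, e1, e2, ← Finset.sum_sub_distrib]
          exact Finset.sum_congr rfl fun i _ => (sub_smul _ _ _).symm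
        rw [hsub]
        have hterm : ∀ i : Fin k, N ((a y i - a y0 i) • (fun l => (x i l : ℝ) : Fin m → ℝ)) ≤
            1 / (2 * m) * r := by
          intro i
          rw [map_smul_eq_mul]
          have hmpos : 0 < (m : ℝ) := by
            have : 0 < k := i.pos
            exact_mod_cast lt_of_lt_of_le this hkm
          have hcell : cell y i = cell y0 i := by rw [hy.2, hy0.2]
          have habs : |2 * (m : ℝ) * a y i - 2 * m * a y0 i| < 1 := Int.abs_sub_lt_one_of_floor_eq_floor hcell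
          have h1 : ‖a y i - a y0 i‖ ≤ 1 / (2 * m) := by
            rw [Real.norm_eq_abs, le_div_iff₀ (by positivity)]
            have : |a y i - a y0 i| * (2 * m) = |2 * (m : ℝ) * a y i - 2 * m * a y0 i| := by
              rw [← mul_sub, abs_mul, abs_of_pos (by positivity : (0:ℝ) < 2 * m), mul_comm]
            rw [this]; exact habs.le
          exact mul_le_mul h1 (hx i) (apply_nonneg N _) (by positivity)
        calc _ ≤ ∑ i : Fin k, N ((a y i - a y0 i) • (fun l => (x i l : ℝ) : Fin m → ℝ)) :=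
              Dim_sum_le N _ _
          _ ≤ ∑ i : Fin k, 1 / (2 * m) * r := Finset.sum_le_sum fun i _ => hterm i
          _ = k / (2 * m) * r := by simp; ring
          _ ≤ 1 / 2 * r := by
            apply mul_le_mul_of_nonneg_right _ hr
            rcases Nat.eq_zero_or_pos m with hm | hm
            · subst hm; norm_num
            · rw [div_le_div_iff₀ (by positivity) (by norm_num)]
              have : (k : ℝ) ≤ m := by exact_mod_cast hkm
              linarith
          _ = r / 2 := by ring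
      · intro y _ y' _ h
        exact sub_left_injective h
  have := Finset.card_le_mul_card_image_of_maps_to hmaps _ hfib
  rw [Set.ncard_eq_toFinset_card _ hfin]
  refine this.trans ?_
  rw [hT, mul_comm]
  exact Nat.mul_le_mul_right _ (Nat.pow_le_pow_right (by omega) hkm)

end H112
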