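import Pool.Agent.H24.Lib.R_seed8.H112R2.Main
set_option autoImplicit false

/-! Final theorems: the near-polynomial Freiman-Ruzsa theorem. -/

namespace H112

open Finset
open scoped Pointwise

theorem log_4m_le {m : ℕ} {κ : ℝ} (hκ69 : 0.69 < κ) (hm : (m : ℝ) ≤ 300 * κ) :
    Real.log (4 * m + 1) ≤ 8 * (1 + Real.log (1 + κ)) := by
  have hlogκ : 0 ≤ Real.log (1 + κ) := Real.log_nonneg (by linarith)
  have h1 : (4 * (m : ℝ) + 1) ≤ 1201 * (1 + κ) := by linarith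
  have h2 : Real.log (4 * m + 1) ≤ Real.log 1201 + Real.log (1 + κ) := by
    rw [← Real.log_mul (by norm_num) (by linarith)]
    exact Real.log_le_log (by positivity) h1
  have h3 : Real.log 1201 ≤ 8 := by
    rw [Real.log_le_iff_le_exp (by norm_num)]
    have h4 : (2.7 : ℝ) ≤ Real.exp 1 := by have := Real.exp_one_gt_d9; linarith
    have h5 : Real.exp 8 = Real.exp 1 ^ 8 := by
      rw [← Real.exp_nat_mul]; norm_num
    rw [h5]
    calc (1201 : ℝ) ≤ 2.7 ^ 8 := by norm_num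
      _ ≤ _ := pow_le_pow_left₀ (by norm_num) h4 8
  linarith

theorem log_12m_le {m : ℕ} {κ : ℝ} (hκ69 : 0.69 < κ) (hm : (m : ℝ) ≤ 300 * κ)
    (hm0 : 1 ≤ m) : Real.log (12 * (m : ℝ) ^ 3) ≤ 20 * (1 + Real.log (1 + κ)) := by
  have hlogκ : 0 ≤ Real.log (1 + κ) := Real.log_nonneg (by linarith)
  have hm1 : (1 : ℝ) ≤ m := by exact_mod_cast hm0
  have h1 : 12 * (m : ℝ) ^ 3 ≤ (12 * 300 ^ 3) * (1 + κ) ^ 3 := by
    have : (m : ℝ) ^ 3 ≤ (300 * (1 + κ)) ^ 3 := pow_le_pow_left₀ (by linarith) (by linarith) 3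
    calc 12 * (m : ℝ) ^ 3 ≤ 12 * (300 * (1 + κ)) ^ 3 := by linarith
      _ = _ := by ring
  have h2 : Real.log (12 * (m : ℝ) ^ 3) ≤ Real.log (12 * 300 ^ 3) + 3 * Real.log (1 + κ) := by
    have e1 : 3 * Real.log (1 + κ) = Real.log ((1 + κ) ^ 3) := by
      rw [Real.log_pow]; norm_num
    rw [e1, ← Real.log_mul (by norm_num) (by positivity)]
    exact Real.log_le_log (by positivity) h1
  have h3 : Real.log (12 * 300 ^ 3) ≤ 20 := by
    rw [Real.log_le_iff_le_exp (by norm_num)]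
    have h4 : (2.7 : ℝ) ≤ Real.exp 1 := by have := Real.exp_one_gt_d9; linarith
    have h5 : Real.exp 20 = Real.exp 1 ^ 20 := by
      rw [← Real.exp_nat_mul]; norm_num
    rw [h5]
    calc (12 * 300 ^ 3 : ℝ) ≤ 2.7 ^ 20 := by norm_num
      _ ≤ _ := pow_le_pow_left₀ (by norm_num) h4 20
  linarith

theorem pow_le_exp {x a c : ℝ} {n : ℕ} (hx : 0 < x) (h : Real.log x ≤ a) (hn : (n : ℝ) ≤ c)
    (ha : 0 ≤ a) : x ^ n ≤ Real.exp (c * a) := by
  rw [← Real.exp_log hx, ← Real.exp_nat_mul]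
  apply Real.exp_le_exp.2
  calc (n : ℝ) * Real.log x ≤ n * a := mul_le_mul_of_nonneg_left h (Nat.cast_nonneg n)
    _ ≤ c * a := mul_le_mul_of_nonneg_right hn ha

theorem six_le_exp {κ : ℝ} (hκ69 : 0.69 < κ) : (6 : ℝ) ≤ Real.exp (3 * κ) := by
  have h4 : (2.7 : ℝ) ≤ Real.exp 1 := by have := Real.exp_one_gt_d9; linarith
  have h5 : Real.exp 2 = Real.exp 1 ^ 2 := by
    rw [← Real.exp_nat_mul]; norm_num
  calc (6 : ℝ) ≤ 2.7 ^ 2 := by norm_num
    _ ≤ Real.exp 1 ^ 2 := pow_le_pow_left₀ (by norm_num) h4 2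
    _ = Real.exp 2 := h5.symm
    _ ≤ Real.exp (3 * κ) := Real.exp_le_exp.2 (by linarith)

theorem exp_eq_rpow {K : ℝ} (hK : 1 ≤ K) (C lam : ℝ) :
    Real.exp (C * Real.log (2 * K) * lam) = (2 * K) ^ (C * lam) := by
  rw [Real.rpow_def_of_pos (by linarith)]
  congr 1; ring

/-- near-PFR for finitely generated groups, constant `13000`. -/
theorem near_pfr_fg {G : Type*} [AddCommGroup G] [AddGroup.FG G] [DecidableEq G] {K : ℝ}
    {A : Finset G} (hA : A.Nonempty) (hK : ((A + A).card : ℝ) ≤ K * A.card) (hK1 : 1 ≤ K) :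
    ∃ (d : ℕ) (B : Set (Fin d → ℝ)) (ψ : (Fin d → ℤ) →+ G) (H₀ : AddSubgroup G) (T : Finset G),
      (d : ℝ) ≤ 300 * Real.log (2 * K) ∧ SymmBody B ∧ Finite H₀ ∧
      {c : Fin d → ℤ | (fun i => (c i : ℝ)) ∈ B}.ncard * Nat.card H₀ ≤ A.card ∧
      (T.card : ℝ) ≤ (2 * K) ^ (13000 * (1 + Real.log (1 + Real.log (2 * K)))) ∧
      Covers B ψ H₀ T A := by
  obtain ⟨κ, hκ⟩ : ∃ κ : ℝ, κ = Real.log (2 * K) := ⟨_, rfl⟩
  have hκlog2 : Real.log 2 ≤ κ := by
    rw [hκ]; exact Real.log_le_log (by norm_num) (by linarith)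
  have hκ69 : (0.69 : ℝ) < κ := lt_of_lt_of_le log_two_gt hκlog2
  obtain ⟨S, X, V, ρ, m, N, ψ, hfin, hV1, hsize, hρ0, hρ12, hX, hN, h1, h2, hm, hXV⟩ :=
    structure_thm hA hK hK1 hκ
  obtain ⟨d, B, ψ', H₀, T, hd, hB, hH₀, hvol, hT, hcov⟩ :=
    cover_final S hfin hA hV1 hsize hρ0 hρ12 hX N ψ hN h1 h2
  have hlogκ : 0 ≤ Real.log (1 + κ) := Real.log_nonneg (by linarith)
  refine ⟨d, B, ψ', H₀, T, ?_, hB, hH₀, hvol, ?_, hcov⟩
  · rw [← hκ]
    have : (d : ℝ) ≤ max (m : ℝ) 1 := by exact_mod_cast hd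
    refine this.trans (max_le hm (by linarith))
  · rw [← exp_eq_rpow hK1, ← hκ]
    have h3 : ((4 * (m : ℝ) + 1)) ^ (2 * m) ≤
        Real.exp ((600 * κ) * (8 * (1 + Real.log (1 + κ)))) :=
      pow_le_exp (by positivity) (log_4m_le hκ69 hm) (by push_cast; linarith) (by positivity)
    have hV0 : 0 ≤ V := by linarith
    calc (T.card : ℝ) ≤ X.card * (6 * V * (4 * m + 1) ^ (2 * m)) := hT
      _ = (X.card * V) * (6 * (4 * m + 1) ^ (2 * m)) := by ring
      _ ≤ Real.exp (8000 * κ * (1 + Real.log (1 + κ))) *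
            (Real.exp (3 * κ) * Real.exp ((600 * κ) * (8 * (1 + Real.log (1 + κ))))) := by
          apply mul_le_mul hXV _ (by positivity) (by positivity)
          exact mul_le_mul (six_le_exp hκ69) h3 (by positivity) (by positivity)
      _ = Real.exp (8000 * κ * (1 + Real.log (1 + κ)) +
            (3 * κ + (600 * κ) * (8 * (1 + Real.log (1 + κ))))) := by
          rw [← Real.exp_add, ← Real.exp_add]
      _ ≤ Real.exp (13000 * κ * (1 + Real.log (1 + κ))) := by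
          apply Real.exp_le_exp.2
          have h10 : 0 ≤ κ * Real.log (1 + κ) := mul_nonneg (by linarith) hlogκ
          nlinarith

/-- pulling a finite set back to a subgroup containing it -/
theorem exists_model {G : Type*} [AddCommGroup G] [DecidableEq G] (A : Finset G)
    (Γ : AddSubgroup G) (hΓ : ∀ a ∈ A, a ∈ Γ) :
    ∃ A' : Finset Γ, A'.image Γ.subtype = A := by
  classical
  refine ⟨A.attach.image fun a => ⟨a.1, hΓ a.1 a.2⟩, ?_⟩
  ext x
  simp only [Finset.mem_image, Finset.mem_attach, true_and, Subtype.exists]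
  constructor
  · rintro ⟨a, ha, ⟨b, hb, h⟩, rfl⟩
    have h2 := congrArg Subtype.val h
    simp only at h2
    subst h2
    exact hb
  · intro hx
    exact ⟨x, hΓ x hx, ⟨x, hx, rfl⟩, rfl⟩

/-- **Near-polynomial Freiman-Ruzsa theorem in an arbitrary abelian group.** -/
theorem near_pfr {G : Type*} [AddCommGroup G] [DecidableEq G] {K : ℝ}
    {A : Finset G} (hA : A.Nonempty) (hK : ((A + A).card : ℝ) ≤ K * A.card) :
    ∃ (d : ℕ) (B : Set (Fin d → ℝ)) (ψ : (Fin d → ℤ) →+ G) (H₀ : AddSubgroup G) (T : Finset G),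
      (d : ℝ) ≤ 300 * Real.log (2 * K) ∧ SymmBody B ∧ Finite H₀ ∧
      {c : Fin d → ℤ | (fun i => (c i : ℝ)) ∈ B}.ncard * Nat.card H₀ ≤ A.card ∧
      (T.card : ℝ) ≤ (2 * K) ^ (13000 * (1 + Real.log (1 + Real.log (2 * K)))) ∧
      Covers B ψ H₀ T A := by
  classical
  have hApos : (0 : ℝ) < A.card := by exact_mod_cast hA.card_pos
  have hK1 : 1 ≤ K := by
    have h1 : (A.card : ℝ) ≤ (A + A).card := by
      exact_mod_cast Finset.card_le_card_add_right hA
    nlinarith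
  obtain ⟨Γ, hΓ⟩ : ∃ Γ : AddSubgroup G, Γ = AddSubgroup.closure (A : Set G) := ⟨_, rfl⟩
  obtain ⟨A', hA'⟩ := exists_model A Γ (fun a ha => by
    rw [hΓ]; exact AddSubgroup.subset_closure ha)
  have hinj : Function.Injective Γ.subtype := Γ.subtype_injective
  haveI : AddGroup.FG Γ := by
    rw [AddGroup.fg_iff_addSubgroup_fg]
    exact ⟨A, hΓ.symm⟩
  have hA'ne : A'.Nonempty := by
    rw [← hA'] at hA; exact Finset.image_nonempty.1 hA
  have hcard : A'.card = A.card := by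
    rw [← hA', Finset.card_image_of_injective _ hinj]
  have hcard2 : (A' + A').card = (A + A).card := by
    rw [← hA', ← Finset.image_add, Finset.card_image_of_injective _ hinj]
  have hK' : ((A' + A').card : ℝ) ≤ K * A'.card := by rw [hcard2, hcard]; exact hK
  obtain ⟨d, B, ψ, H₀, T, hd, hB, hH₀, hvol, hT, hcov⟩ := near_pfr_fg hA'ne hK' hK1
  refine ⟨d, B, Γ.subtype.comp ψ, H₀.map Γ.subtype, T.image Γ.subtype, hd, hB, ?_, ?_, ?_, ?_⟩
  · have : (H₀.map Γ.subtype : Set G).Finite := by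
      rw [AddSubgroup.coe_map]
      exact (Set.toFinite (H₀ : Set Γ)).image _
    exact this.to_subtype
  · have h1 : Nat.card (H₀.map Γ.subtype) = Nat.card H₀ :=
      Nat.card_congr (H₀.equivMapOfInjective Γ.subtype hinj).toEquiv.symm
    rw [h1, ← hcard]
    exact hvol
  · refine le_trans ?_ hT
    exact_mod_cast Finset.card_image_le
  · intro a ha
    rw [← hA'] at ha
    obtain ⟨a', ha', rfl⟩ := Finset.mem_image.1 ha
    obtain ⟨t, ht, c, hc, h, hh, e⟩ := hcov a' ha'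
    refine ⟨Γ.subtype t, Finset.mem_image_of_mem _ ht, c, hc, Γ.subtype h, ⟨h, hh, rfl⟩, ?_⟩
    rw [e, map_add, map_add]
    rfl

end H112
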