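import Pool.Agent.H24.Lib.R_seed8.H112R2.Defs
set_option autoImplicit false

/-! Module R: finitely generated abelian groups are residually finite. -/

namespace H112

theorem exists_finite_quotient (G : Type*) [AddCommGroup G] [AddGroup.FG G] (F : Finset G) :
    ∃ (Q : Type) (_ : AddCommGroup Q) (_ : Fintype Q) (π : G →+ Q), Set.InjOn π F := by
  classical
  obtain ⟨n, ι, hι, p, hp, e, ⟨φ⟩⟩ := AddCommGroup.equiv_free_prod_directSum_zmod G
  set M : ℕ := ∑ x ∈ F, ∑ i : Fin n, ((φ x).1 i).natAbs with hM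
  set N : ℕ := 2 * M + 1 with hN
  have : NeZero N := ⟨by omega⟩
  have : ∀ i, NeZero (p i ^ e i) := fun i => ⟨pow_ne_zero _ (hp i).ne_zero⟩
  have : Finite ((Fin n → ZMod N) × (∀ i : ι, ZMod (p i ^ e i))) := inferInstance
  let π : G →+ (Fin n → ZMod N) × (∀ i : ι, ZMod (p i ^ e i)) :=
    { toFun := fun x => (fun i => (((φ x).1 i : ℤ) : ZMod N), fun i => (φ x).2 i)
      map_zero' := by
        ext i
        · simp
        · simp
      map_add' := by
        intro x y
        ext i
        · simp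
        · simp }
  refine ⟨(Fin n → ZMod N) × (∀ i : ι, ZMod (p i ^ e i)), inferInstance, Fintype.ofFinite _, π, ?_⟩
  intro x hx y hy hxy
  have hb : ∀ z ∈ F, ∀ i : Fin n, ((φ z).1 i).natAbs ≤ M := by
    intro z hz i
    calc ((φ z).1 i).natAbs ≤ ∑ i : Fin n, ((φ z).1 i).natAbs :=
          Finset.single_le_sum (f := fun i => ((φ z).1 i).natAbs) (fun _ _ => Nat.zero_le _)
            (Finset.mem_univ i)
      _ ≤ M := Finset.single_le_sum (f := fun z => ∑ i : Fin n, ((φ z).1 i).natAbs)
            (fun _ _ => Nat.zero_le _) hz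
  apply φ.injective
  have h1 : (fun i => (((φ x).1 i : ℤ) : ZMod N)) = fun i => (((φ y).1 i : ℤ) : ZMod N) :=
    congrArg Prod.fst hxy
  have h2 : (fun i => (φ x).2 i) = fun i => (φ y).2 i := congrArg Prod.snd hxy
  refine Prod.ext ?_ ?_
  · ext i
    have h3 := congrFun h1 i
    rw [ZMod.intCast_eq_intCast_iff_dvd_sub] at h3
    have hx' := hb x hx i
    have hy' := hb y hy i
    have h4 : (φ y).1 i - (φ x).1 i = 0 := by
      apply Int.eq_zero_of_abs_lt_dvd h3
      rw [abs_lt]
      constructor <;> omega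
    omega
  · exact DFinsupp.ext fun i => congrFun h2 i

end H112
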