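import Pool.Agent.H24.Lib.R_seed8.H112R2.Defs
import Pool.Agent.H24.Lib.R_seed8.H112R2.Dim
set_option autoImplicit false

/-! Module D1: a finite Bohr set is a convex coset progression. -/

namespace H112

open scoped ENNReal

variable {G : Type*} [AddCommGroup G]

theorem lattice_rep_exists (t : UnitAddCircle) : ∃ s : ℝ, (s : UnitAddCircle) = t ∧ |s| = ‖t‖ := by
  induction t using QuotientAddGroup.induction_on with
  | H x =>
    refine ⟨x - round x, ?_, ?_⟩
    · rw [← sub_eq_zero, ← AddCircle.coe_sub]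
      rw [AddCircle.coe_eq_zero_iff]
      exact ⟨-round x, by simp⟩
    · exact (UnitAddCircle.norm_eq (x := x)).symm

/-- a real representative of smallest absolute value -/
noncomputable def lrep (t : UnitAddCircle) : ℝ := (lattice_rep_exists t).choose

theorem lrep_coe (t : UnitAddCircle) : ((lrep t : ℝ) : UnitAddCircle) = t :=
  (lattice_rep_exists t).choose_spec.1

theorem lrep_abs (t : UnitAddCircle) : |lrep t| = ‖t‖ :=
  (lattice_rep_exists t).choose_spec.2

theorem lattice_norm_lt {s : ℝ} (h : |s| < 1 / 2) : ‖(s : UnitAddCircle)‖ = |s| := by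
  rw [UnitAddCircle.norm_eq]
  have : round s = 0 := by
    rw [round_eq_zero_iff]
    exact ⟨by linarith [neg_abs_le s], by linarith [le_abs_self s]⟩
  rw [this]; simp

theorem lattice_unique {s s' : ℝ} (h : |s| < 1 / 2) (h' : |s'| < 1 / 2)
    (e : (s : UnitAddCircle) = (s' : UnitAddCircle)) : s = s' := by
  rw [← sub_eq_zero, ← AddCircle.coe_sub, AddCircle.coe_eq_zero_iff] at e
  obtain ⟨n, hn⟩ := e
  have h1 : |(n : ℝ)| < 1 := by
    have : (n : ℝ) = s - s' := by simpa using hn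
    rw [this]
    calc |s - s'| ≤ |s| + |s'| := abs_sub _ _
      _ < 1 := by linarith
  have h2 : n = 0 := by
    have : |n| < 1 := by exact_mod_cast h1
    exact Int.abs_lt_one_iff.mp this
  rw [h2] at hn
  simp at hn
  linarith

/-- the ambient space of bounded functions on `S` -/
abbrev LatE (S : Set (G →+ UnitAddCircle)) := lp (fun _ : S => ℝ) ∞

theorem norm_le_half (t : UnitAddCircle) : ‖t‖ ≤ 1 / 2 := by
  have := AddCircle.norm_le_half_period (1 : ℝ) (x := t) one_ne_zero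
  simpa using this

/-- the vector of representatives -/
noncomputable def lv (S : Set (G →+ UnitAddCircle)) (x : G) : LatE S :=
  ⟨fun γ => lrep (γ.1 x), by
    apply memℓp_infty
    refine ⟨1 / 2, ?_⟩
    rintro _ ⟨γ, rfl⟩
    simp only [Real.norm_eq_abs, lrep_abs]
    exact norm_le_half _⟩

@[simp] theorem lv_apply (S : Set (G →+ UnitAddCircle)) (x : G) (γ : S) :
    (lv S x : ∀ _ : S, ℝ) γ = lrep (γ.1 x) := rfl

theorem lattice_lift (S : Set (G →+ UnitAddCircle)) (B : Set G) (l : LatE S)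
    (hl : l ∈ Submodule.span ℤ (lv S '' B)) :
    ∃ y : G, ∀ γ : S, γ.1 y = (((l : ∀ _ : S, ℝ) γ : ℝ) : UnitAddCircle) := by
  induction hl using Submodule.span_induction with
  | mem x hx =>
    obtain ⟨y, _, rfl⟩ := hx
    exact ⟨y, fun γ => by rw [lv_apply, lrep_coe]⟩
  | zero => exact ⟨0, fun γ => by simp⟩
  | add a b _ _ iha ihb =>
    obtain ⟨y, hy⟩ := iha
    obtain ⟨z, hz⟩ := ihb
    exact ⟨y + z, fun γ => by rw [map_add, hy, hz]; simp⟩
  | smul n a _ ih =>
    obtain ⟨y, hy⟩ := ih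
    exact ⟨n • y, fun γ => by
      rw [map_zsmul, hy]
      simp [zsmul_eq_mul]⟩


theorem lattice_small (S : Set (G →+ UnitAddCircle)) (B : Set G) (l : LatE S)
    (hl : l ∈ Submodule.span ℤ (lv S '' B)) (hn : ‖l‖ ≤ 1 / 6) :
    l ∈ lv S '' bohr S (1 / 6) := by
  obtain ⟨y, hy⟩ := lattice_lift S B l hl
  have hl6 : ∀ γ : S, |(l : ∀ _ : S, ℝ) γ| ≤ 1 / 6 := fun γ =>
    (lp.norm_apply_le_norm ENNReal.top_ne_zero l γ).trans hn
  have hyn : ∀ γ : S, ‖γ.1 y‖ = |(l : ∀ _ : S, ℝ) γ| := fun γ => by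
    rw [hy γ, lattice_norm_lt (by linarith [hl6 γ])]
  refine ⟨y, fun γ hγ => ?_, ?_⟩
  · have := hyn ⟨γ, hγ⟩
    simp only at this
    rw [this]; exact hl6 _
  · ext γ
    rw [lv_apply]
    apply lattice_unique
    · rw [lrep_abs, hyn]; linarith [hl6 γ]
    · linarith [hl6 γ]
    · rw [lrep_coe, hy γ]

theorem lattice_gap (S : Set (G →+ UnitAddCircle)) (hfin : (bohr S (1 / 6)).Finite) (B : Set G) :
    ∃ ε : ℝ, 0 < ε ∧ ∀ l ∈ Submodule.span ℤ (lv S '' B), ‖l‖ < ε → l = 0 := by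
  have hF : ((lv S '' bohr S (1 / 6)) \ {0}).Finite := (hfin.image _).subset Set.sdiff_subset
  have hopen : IsOpen ((lv S '' bohr S (1 / 6)) \ {0})ᶜ := hF.isClosed.isOpen_compl
  have h0 : (0 : LatE S) ∈ ((lv S '' bohr S (1 / 6)) \ {0})ᶜ := by simp
  obtain ⟨ε, hε, hball⟩ := Metric.isOpen_iff.mp hopen 0 h0
  refine ⟨min ε (1 / 6), by positivity, fun l hl hlε => ?_⟩
  have h1 : l ∈ Metric.ball (0 : LatE S) ε := by
    rw [mem_ball_zero_iff]; exact lt_of_lt_of_le hlε (min_le_left _ _)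
  have h2 := lattice_small S B l hl (le_of_lt (lt_of_lt_of_le hlε (min_le_right _ _)))
  have h3 := hball h1
  by_contra hne
  exact h3 ⟨h2, hne⟩

theorem bohr_mono (S : Set (G →+ UnitAddCircle)) {r r' : ℝ} (h : r ≤ r') :
    bohr S r ⊆ bohr S r' := fun _ hx γ hγ => (hx γ hγ).trans h

theorem lattice_repr (S : Set (G →+ UnitAddCircle)) (hfin : (bohr S (1 / 6)).Finite)
    {ρ : ℝ} (hρ0 : 0 ≤ ρ) (hρ : ρ ≤ 1 / 6) :
    ∃ (m : ℕ) (N : Seminorm ℝ (Fin m → ℝ)) (ψ : (Fin m → ℤ) →+ G),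
      (∀ x, N x = 0 → x = 0) ∧
      (∀ c : Fin m → ℤ, N (fun i => (c i : ℝ)) < 1 / 2 → ∀ r : ℝ, 0 ≤ r →
        (ψ c ∈ bohr S r ↔ c ∈ LL N r)) ∧
      (∀ x ∈ bohr S ρ, ∃ c ∈ LL N ρ, x - ψ c ∈ ann S) ∧
      Submodule.span ℝ {v : Fin m → ℝ | ∃ c ∈ LL N ρ, v = fun i => (c i : ℝ)} = ⊤ := by
  classical
  set X : Set (LatE S) := lv S '' bohr S ρ with hX
  have hXfin : X.Finite := (hfin.subset (bohr_mono S hρ)).image _
  set V : Submodule ℝ (LatE S) := Submodule.span ℝ X with hV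
  have : FiniteDimensional ℝ V := FiniteDimensional.span_of_finite ℝ hXfin
  set L : Submodule ℤ (LatE S) := Submodule.span ℤ X with hL
  have hLV : ∀ l ∈ L, l ∈ V := fun l hl => by
    have : L ≤ V.restrictScalars ℤ := Submodule.span_le.mpr fun x hx => Submodule.subset_span hx
    exact this hl
  let L₀ : Submodule ℤ V := L.comap (V.subtype.restrictScalars ℤ)
  have hmem : ∀ v : V, v ∈ L₀ ↔ (v : LatE S) ∈ L := fun v => Iff.rfl
  obtain ⟨ε, hε, hgap⟩ := lattice_gap S hfin (bohr S ρ)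
  have : DiscreteTopology L₀ := by
    apply discreteTopology_of_isOpen_singleton_zero
    rw [Metric.isOpen_singleton_iff]
    refine ⟨ε, hε, fun y hy => ?_⟩
    have h1 : ‖((y : V) : LatE S)‖ < ε := by
      rw [dist_zero_right] at hy; exact hy
    have := hgap _ ((hmem y).mp y.2) h1
    ext1; ext1; exact this
  have : IsZLattice ℝ L₀ := ⟨by
    rw [eq_top_iff]
    rintro ⟨v, hv⟩ -
    induction hv using Submodule.span_induction with
    | mem x hx => exact Submodule.subset_span ((hmem _).mpr (Submodule.subset_span hx))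
    | zero => exact Submodule.zero_mem _
    | add a b ha hb iha ihb => exact Submodule.add_mem _ iha ihb
    | smul n a ha ih => exact Submodule.smul_mem _ n ih⟩
  have : Module.Finite ℤ L₀ := ZLattice.module_finite ℝ L₀
  have : Module.Free ℤ L₀ := ZLattice.module_free ℝ L₀
  let m := Module.finrank ℤ L₀
  let b : Module.Basis (Fin m) ℤ L₀ := Module.finBasis ℤ L₀
  let B : Module.Basis (Fin m) ℝ V := b.ofZLatticeBasis ℝ L₀
  have hB : ∀ i, B i = (b i : V) := fun i => Module.Basis.ofZLatticeBasis_apply ℝ L₀ b i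
  have hlift : ∀ i, ∃ y : G, ∀ γ : S, γ.1 y = (((((b i : V) : LatE S) : ∀ _ : S, ℝ) γ : ℝ) : UnitAddCircle) :=
    fun i => lattice_lift S (bohr S ρ) _ ((hmem _).mp (b i).2)
  choose x hx using hlift
  let T : (Fin m → ℝ) →ₗ[ℝ] LatE S := V.subtype ∘ₗ (B.equivFun.symm : (Fin m → ℝ) →ₗ[ℝ] V)
  have hT : ∀ a, T a = ∑ i, a i • ((b i : V) : LatE S) := fun a => by
    simp only [T, LinearMap.comp_apply, LinearEquiv.coe_coe, Module.Basis.equivFun_symm_apply,
      map_sum, map_smul, hB]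
    rfl
  have hTinj : ∀ a, T a = 0 → a = 0 := fun a ha => by
    have h1 : (B.equivFun.symm a : V) = 0 := by
      apply Subtype.ext; exact ha
    have h2 := congrArg B.equivFun h1
    rw [LinearEquiv.apply_symm_apply, map_zero] at h2
    exact h2
  let ψ : (Fin m → ℤ) →+ G :=
    AddMonoidHom.mk' (fun c => ∑ i, c i • x i) (fun c d => by
      simp [add_smul, Finset.sum_add_distrib])
  have hψ : ∀ c, ψ c = ∑ i, c i • x i := fun c => rfl
  let N : Seminorm ℝ (Fin m → ℝ) := (normSeminorm ℝ (LatE S)).comp T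
  have hN : ∀ a, N a = ‖T a‖ := fun a => rfl
  have hkey : ∀ (c : Fin m → ℤ) (γ : S), γ.1 (ψ c) =
      (((T (fun i => (c i : ℝ)) : ∀ _ : S, ℝ) γ : ℝ) : UnitAddCircle) := fun c γ => by
    rw [hψ, map_sum, hT]
    have h1 : ((∑ i, (c i : ℝ) • ((b i : V) : LatE S) : LatE S) : ∀ _ : S, ℝ) γ =
        ∑ i, (c i : ℝ) * (((b i : V) : LatE S) : ∀ _ : S, ℝ) γ := by
      rw [lp.coeFn_sum, Finset.sum_apply]
      rfl
    rw [h1]
    have h2 : ∀ t : Fin m → ℝ, ((∑ i, t i : ℝ) : UnitAddCircle) = ∑ i, ((t i : ℝ) : UnitAddCircle) :=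
      fun t => map_sum (QuotientAddGroup.mk' (AddSubgroup.zmultiples (1 : ℝ))) t Finset.univ
    rw [h2]
    refine Finset.sum_congr rfl fun i _ => ?_
    rw [map_zsmul, hx, ← zsmul_eq_mul]
    rfl
  have hrepr : ∀ y ∈ bohr S ρ, ∃ c : Fin m → ℤ, T (fun i => (c i : ℝ)) = lv S y := fun y hy => by
    have hyL : lv S y ∈ L := Submodule.subset_span ⟨y, hy, rfl⟩
    let z : L₀ := ⟨⟨lv S y, hLV _ hyL⟩, hyL⟩
    refine ⟨fun i => b.repr z i, ?_⟩
    rw [hT]
    have h1 : ∑ i, b.repr z i • b i = z := b.sum_repr z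
    have h2 : (((∑ i, b.repr z i • b i : L₀) : V) : LatE S) = ((z : V) : LatE S) := by rw [h1]
    have h3 : ((z : V) : LatE S) = lv S y := rfl
    rw [h3] at h2
    rw [← h2]
    have h4 : (((∑ i, b.repr z i • b i : L₀) : V) : LatE S) =
        ∑ i, (((b.repr z i • b i : L₀) : V) : LatE S) := by
      rw [Submodule.coe_sum, Submodule.coe_sum]
    rw [h4]
    refine Finset.sum_congr rfl fun i _ => ?_
    have h5 : (((b.repr z i • b i : L₀) : V) : LatE S) = b.repr z i • ((b i : V) : LatE S) := rfl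
    rw [h5]
    exact Int.cast_smul_eq_zsmul ℝ _ _
  have hnl : ∀ y ∈ bohr S ρ, ‖lv S y‖ ≤ ρ := fun y hy =>
    lp.norm_le_of_forall_le hρ0 fun γ => by
      rw [lv_apply, Real.norm_eq_abs, lrep_abs]; exact hy _ γ.2
  refine ⟨m, N, ψ, ?_, ?_, ?_, ?_⟩
  · intro a ha
    rw [hN, norm_eq_zero] at ha
    exact hTinj a ha
  · intro c hc r hr
    rw [hN] at hc
    have h1 : ∀ γ : S, ‖γ.1 (ψ c)‖ = |(T (fun i => (c i : ℝ)) : ∀ _ : S, ℝ) γ| := fun γ => by
      rw [hkey]
      apply lattice_norm_lt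
      have h0 : ‖(T (fun i => (c i : ℝ)) : ∀ _ : S, ℝ) γ‖ ≤ ‖T (fun i => (c i : ℝ))‖ :=
        lp.norm_apply_le_norm ENNReal.top_ne_zero (T (fun i => (c i : ℝ))) γ
      rw [Real.norm_eq_abs] at h0
      exact lt_of_le_of_lt h0 hc
    constructor
    · intro h
      change N _ ≤ r
      rw [hN]
      exact lp.norm_le_of_forall_le hr fun γ => by
        rw [Real.norm_eq_abs, ← h1]; exact h _ γ.2
    · intro h γ hγ
      have h2 := h1 ⟨γ, hγ⟩
      simp only at h2
      rw [h2]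
      have h3 : ‖T (fun i => (c i : ℝ))‖ ≤ r := h
      exact (lp.norm_apply_le_norm ENNReal.top_ne_zero _ _).trans h3
  · intro y hy
    obtain ⟨c, hc⟩ := hrepr y hy
    refine ⟨c, ?_, ?_⟩
    · change N _ ≤ ρ
      rw [hN, hc]; exact hnl y hy
    · intro γ hγ
      have h1 := hkey c ⟨γ, hγ⟩
      simp only at h1
      rw [map_sub, h1, hc, lv_apply, lrep_coe, sub_self]
  · rw [eq_top_iff]
    set W := Submodule.span ℝ {v : Fin m → ℝ | ∃ c ∈ LL N ρ, v = fun i => (c i : ℝ)} with hW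
    have hall : ∀ (v : LatE S) (hv : v ∈ V), B.equivFun ⟨v, hv⟩ ∈ W := by
      intro v hv
      induction hv using Submodule.span_induction with
      | mem u hu =>
        obtain ⟨y, hy, rfl⟩ := hu
        obtain ⟨c, hc⟩ := hrepr y hy
        apply Submodule.subset_span
        refine ⟨c, ?_, ?_⟩
        · change N _ ≤ ρ
          rw [hN, hc]; exact hnl y hy
        · rw [← LinearEquiv.eq_symm_apply]
          apply Subtype.ext
          exact hc.symm
      | zero =>
        have : B.equivFun ⟨0, Submodule.zero_mem _⟩ = 0 := map_zero B.equivFun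
        rw [this]; exact Submodule.zero_mem _
      | add a a' ha ha' iha ihb =>
        have : B.equivFun ⟨a + a', Submodule.add_mem _ ha ha'⟩ =
          B.equivFun ⟨a, ha⟩ + B.equivFun ⟨a', ha'⟩ := map_add B.equivFun ⟨a, ha⟩ ⟨a', ha'⟩
        rw [this]; exact Submodule.add_mem _ iha ihb
      | smul t a ha ih =>
        have : B.equivFun ⟨t • a, Submodule.smul_mem _ t ha⟩ = t • B.equivFun ⟨a, ha⟩ :=
          map_smul B.equivFun t ⟨a, ha⟩
        rw [this]; exact Submodule.smul_mem _ t ih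
    intro a _
    have := hall (B.equivFun.symm a) (B.equivFun.symm a).2
    have h1 : B.equivFun ⟨(B.equivFun.symm a : V), (B.equivFun.symm a).2⟩ = a :=
      LinearEquiv.apply_symm_apply B.equivFun a
    rw [h1] at this
    exact this

end H112
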