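import Mathlib
set_option autoImplicit false

/-! Numerical estimates for the assembly. -/

namespace H112

theorem log_two_gt : (0.69 : ℝ) < Real.log 2 := by
  have := Real.log_two_gt_d9; linarith

theorem lin_le_pow (L : ℕ) (a : ℕ) : (a * L + a : ℝ) ≤ a * 2 ^ L := by
  have h : ((L + 1 : ℕ) : ℝ) ≤ ((2 ^ L : ℕ) : ℝ) := by exact_mod_cast Nat.lt_two_pow_self (n := L)
  push_cast at h
  have ha : (0 : ℝ) ≤ a := Nat.cast_nonneg a
  nlinarith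

/-- bound for ε -/
theorem eps_le {L : ℕ} {κ ε : ℝ} (hκ0 : 0 ≤ κ) (hL : κ ≤ 2 ^ L)
    (hε : ε = 6 * ((8 * L + 100 : ℕ) + 2) * κ / 2 ^ (8 * L + 100)) :
    ε ≤ (1 / 2 ^ (3 * L + 45)) ^ 2 := by
  have h1 : (((8 * L + 100 : ℕ) : ℝ) + 2) ≤ 102 * 2 ^ L := by
    have := lin_le_pow L 102
    push_cast at *
    have hL0 : (0 : ℝ) ≤ L := Nat.cast_nonneg L
    nlinarith
  rw [hε, div_pow, one_pow, ← pow_mul, div_le_div_iff₀ (by positivity) (by positivity)]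
  have e1 : (2 : ℝ) ^ (8 * L + 100) = 2 ^ L * 2 ^ L * (2 ^ ((3 * L + 45) * 2) * 2 ^ 10) := by
    rw [← pow_add, ← pow_add, ← pow_add]; congr 1; ring
  rw [e1, one_mul]
  have h2 : 6 * (((8 * L + 100 : ℕ) : ℝ) + 2) * κ ≤ 6 * (102 * 2 ^ L) * 2 ^ L := by
    apply mul_le_mul _ hL hκ0 (by positivity)
    linarith
  have hp : (0 : ℝ) < 2 ^ ((3 * L + 45) * 2) := by positivity
  have hp2 : (0 : ℝ) < 2 ^ L * 2 ^ L := by positivity
  calc 6 * (((8 * L + 100 : ℕ) : ℝ) + 2) * κ * 2 ^ ((3 * L + 45) * 2)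
      ≤ 6 * (102 * 2 ^ L) * 2 ^ L * 2 ^ ((3 * L + 45) * 2) :=
        mul_le_mul_of_nonneg_right h2 hp.le
    _ = 612 * (2 ^ L * 2 ^ L * 2 ^ ((3 * L + 45) * 2)) := by ring
    _ ≤ 2 ^ 10 * (2 ^ L * 2 ^ L * 2 ^ ((3 * L + 45) * 2)) := by
        apply mul_le_mul_of_nonneg_right (by norm_num) (by positivity)
    _ = _ := by ring

theorem sqrt_eps_le {L : ℕ} {κ ε : ℝ} (hκ0 : 0 ≤ κ) (hL : κ ≤ 2 ^ L)
    (hε : ε = 6 * ((8 * L + 100 : ℕ) + 2) * κ / 2 ^ (8 * L + 100)) :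
    4 * Real.sqrt ε ≤ 1 / 2 ^ (3 * L + 43) := by
  have h1 := eps_le hκ0 hL hε
  have h2 : Real.sqrt ε ≤ 1 / 2 ^ (3 * L + 45) := by
    rw [← Real.sqrt_sq (show (0 : ℝ) ≤ 1 / 2 ^ (3 * L + 45) by positivity)]
    exact Real.sqrt_le_sqrt h1
  have e1 : (1 : ℝ) / 2 ^ (3 * L + 43) = 4 * (1 / 2 ^ (3 * L + 45)) := by
    have : (2 : ℝ) ^ (3 * L + 45) = 2 ^ (3 * L + 43) * 4 := by
      rw [show 3 * L + 45 = (3 * L + 43) + 2 by ring, pow_add]; norm_num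
    rw [this]; field_simp
  rw [e1]
  linarith

/-- the tail condition -/
theorem tail_cond {L : ℕ} {κ x : ℝ} (hκ0 : 0 ≤ κ) (hL : κ ≤ 2 ^ L)
    (hx : x ≤ (32 * ((8 * L + 100 : ℕ) : ℝ) + 30) * κ) :
    (1 / 4 : ℝ) ^ (2 ^ (8 * L + 100)) ≤ Real.exp (-x) / 4 := by
  have hL1 : (1 : ℝ) ≤ 2 ^ L := one_le_pow₀ (by norm_num)
  have h1 : x ≤ 2 ^ 12 * 2 ^ L * 2 ^ L := by
    have h2 : (32 * ((8 * L + 100 : ℕ) : ℝ) + 30) ≤ 2 ^ 12 * 2 ^ L := by
      have := lin_le_pow L 3230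
      push_cast at *
      have hL0 : (0 : ℝ) ≤ L := Nat.cast_nonneg L
      nlinarith
    refine hx.trans ?_
    exact mul_le_mul h2 hL hκ0 (by positivity)
  have h2 : x + 2 ≤ 2 ^ (8 * L + 100) := by
    have h3 : (2 : ℝ) ≤ 2 ^ 12 * 2 ^ L * 2 ^ L := by
      have : (1 : ℝ) ≤ 2 ^ L * 2 ^ L := by nlinarith
      nlinarith
    have h4 : (2 : ℝ) ^ 12 * 2 ^ L * 2 ^ L * 2 ≤ 2 ^ (8 * L + 100) := by
      have : (2 : ℝ) ^ 12 * 2 ^ L * 2 ^ L * 2 = 2 ^ (2 * L + 13) := by ring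
      rw [this]
      exact pow_le_pow_right₀ (by norm_num) (by omega)
    linarith
  have h3 : (1 / 4 : ℝ) ≤ Real.exp (-1) := by
    rw [Real.exp_neg]
    have : Real.exp 1 < 4 := by have := Real.exp_one_lt_d9; linarith
    rw [one_div]
    exact inv_anti₀ (Real.exp_pos 1) this.le
  calc (1 / 4 : ℝ) ^ (2 ^ (8 * L + 100)) ≤ Real.exp (-1) ^ (2 ^ (8 * L + 100)) :=
        pow_le_pow_left₀ (by norm_num) h3 _
    _ = Real.exp (-(2 : ℝ) ^ (8 * L + 100)) := by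
        rw [← Real.exp_nat_mul]; congr 1; push_cast; ring
    _ ≤ Real.exp (-(x + 2)) := Real.exp_le_exp.2 (by linarith)
    _ = Real.exp (-x) * Real.exp (-2) := by rw [← Real.exp_add]; congr 1; ring
    _ ≤ Real.exp (-x) / 4 := by
        have h5 : Real.exp (-2) ≤ 1 / 4 := by
          rw [Real.exp_neg, one_div]
          apply inv_anti₀ (by norm_num)
          have : (2 : ℝ) ≤ Real.exp 1 := by have := Real.exp_one_gt_d9; linarith
          have h6 : Real.exp 2 = Real.exp 1 * Real.exp 1 := by rw [← Real.exp_add]; norm_num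
          nlinarith
        have := Real.exp_pos (-x)
        nlinarith

theorem radius_ok {L M t : ℕ} {κ ρ : ℝ} (hρ0 : 0 ≤ ρ) (hL : κ ≤ 2 ^ L)
    (hMup : (M : ℝ) ≤ 300 * κ + 1) (ht' : (t : ℝ) + 1 = 2 ^ (2 * L + 20))
    (hρle : ρ ≤ 1 / 2 ^ (3 * L + 43)) : (3 * (M : ℝ) * t + 1) * ρ ≤ 1 / 6 := by
  have h2L : (1 : ℝ) ≤ 2 ^ L := one_le_pow₀ (by norm_num)
  have hM2 : (M : ℝ) ≤ 301 * 2 ^ L := by linarith
  have h5 : (3 * (M : ℝ) * t + 1) ≤ 2 ^ (3 * L + 30) := by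
    have h6 : (2 : ℝ) ^ (3 * L + 30) = 1024 * (2 ^ L * 2 ^ (2 * L + 20)) := by
      rw [← pow_add, show (1024 : ℝ) = 2 ^ 10 by norm_num, ← pow_add]; congr 1; ring
    rw [h6, ← ht']
    have ht0 : (0 : ℝ) ≤ t := Nat.cast_nonneg t
    have h7 : (M : ℝ) * t ≤ 301 * 2 ^ L * t := mul_le_mul_of_nonneg_right hM2 ht0
    have h8 : 0 ≤ (2 : ℝ) ^ L * t := by positivity
    have h9 : 3 * (M : ℝ) * t + 1 ≤ 903 * (2 ^ L * t) + 1 := by
      have : 3 * (M : ℝ) * t = 3 * (M * t) := by ring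
      rw [this]
      have : 301 * (2 : ℝ) ^ L * t = 301 * (2 ^ L * t) := by ring
      rw [this] at h7
      linarith
    have h10 : 1024 * ((2 : ℝ) ^ L * (t + 1)) = 1024 * (2 ^ L * t) + 1024 * 2 ^ L := by ring
    rw [h10]
    linarith
  calc (3 * (M : ℝ) * t + 1) * ρ ≤ 2 ^ (3 * L + 30) * (1 / 2 ^ (3 * L + 43)) :=
        mul_le_mul h5 hρle hρ0 (by positivity)
    _ = 1 / 2 ^ 13 := by
        have e1 : (2 : ℝ) ^ (3 * L + 43) = 2 ^ (3 * L + 30) * 2 ^ 13 := by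
          rw [← pow_add]
        rw [e1, mul_one_div, div_mul_eq_div_div, div_self (by positivity)]
    _ ≤ 1 / 6 := by norm_num

theorem exp_arg1 {j : ℕ} {κ b D x : ℝ} (hκ69 : 0.69 < κ) (hb : b = 12 * (j + 1) * κ)
    (hD : D = 2 * (2 * j + 1) * κ) (hx : x ≤ κ) :
    2 * b + 2 * x + 2 * D ≤ (32 * (j : ℝ) + 30) * κ := by
  rw [hb, hD]; nlinarith

theorem exp_arg2 {j : ℕ} {κ b D x : ℝ} (hκ69 : 0.69 < κ) (hb : b = 12 * (j + 1) * κ)
    (hD : D = 2 * (2 * j + 1) * κ) (hx : x ≤ κ) :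
    4 * κ + (2 * b + 2 * x + 2 * D) + (2 * D + 2 * κ) ≤ 40 * (j + 1) * κ := by
  rw [hb, hD]
  ring_nf
  linarith

theorem exp_arg3 {j L : ℕ} {κ b D x : ℝ} (hκ69 : 0.69 < κ) (hb : b = 12 * (j + 1) * κ)
    (hD : D = 2 * (2 * j + 1) * κ) (hx : x ≤ κ) (hj : j = 8 * L + 100)
    (hL' : (2 : ℝ) ^ L ≤ 2 * (1 + κ)) :
    κ + (2 * D + 2 * κ) + (4 * κ + (2 * b + 2 * x + 2 * D)) ≤
      8000 * κ * (1 + Real.log (1 + κ)) := by
  have hκ0 : 0 < κ := by linarith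
  have hlog : (L : ℝ) * Real.log 2 ≤ Real.log 2 + Real.log (1 + κ) := by
    rw [← Real.log_pow, ← Real.log_mul (by norm_num) (by linarith)]
    exact Real.log_le_log (by positivity) hL'
  have hlogκ : 0 ≤ Real.log (1 + κ) := Real.log_nonneg (by linarith)
  have hLb : (L : ℝ) ≤ 1 + 1.5 * Real.log (1 + κ) := by
    have h69 := log_two_gt
    have h5 : (L : ℝ) * Real.log 2 - Real.log 2 ≤ Real.log (1 + κ) := by linarith
    by_contra hcon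
    push Not at hcon
    have h6 : (1.5 * Real.log (1 + κ)) * Real.log 2 < ((L : ℝ) - 1) * Real.log 2 := by
      apply mul_lt_mul_of_pos_right _ (by linarith)
      linarith
    nlinarith
  have hjb : (j : ℝ) ≤ 108 + 12 * Real.log (1 + κ) := by
    rw [hj]; push_cast; linarith
  have h9 : (j : ℝ) * κ ≤ (108 + 12 * Real.log (1 + κ)) * κ :=
    mul_le_mul_of_nonneg_right hjb hκ0.le
  have h10 : 0 ≤ κ * Real.log (1 + κ) := mul_nonneg hκ0.le hlogκ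
  rw [hb, hD]
  have h11 : κ + (2 * (2 * (2 * (j : ℝ) + 1) * κ) + 2 * κ) + (4 * κ + (2 * (12 * (j + 1) * κ) +
      2 * x + 2 * (2 * (2 * j + 1) * κ))) = 40 * (j * κ) + 39 * κ + 2 * x := by ring
  rw [h11]
  have h12 : 8000 * κ * (1 + Real.log (1 + κ)) = 8000 * κ + 8000 * (κ * Real.log (1 + κ)) := by
    ring
  rw [h12]
  have h13 : (108 + 12 * Real.log (1 + κ)) * κ = 108 * κ + 12 * (κ * Real.log (1 + κ)) := by ring
  rw [h13] at h9
  linarith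

/-- contradiction for large dimension -/
theorem dim_contra {L M : ℕ} {κ : ℝ} (hκ : 0 < κ) (hM : 300 * κ ≤ M)
    (h : ((2 : ℝ) ^ (2 * L + 20)) ^ M ≤ Real.exp (40 * ((8 * L + 100 : ℕ) + 1) * κ)) : False := by
  have h1 : (M : ℝ) * ((2 * L + 20) * Real.log 2) ≤ 40 * ((8 * L + 100 : ℕ) + 1) * κ := by
    rw [← Real.exp_le_exp]
    refine le_trans (le_of_eq ?_) h
    rw [← pow_mul, mul_comm (M : ℝ), show (2 * (L : ℝ) + 20) * Real.log 2 * M =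
      ((2 * L + 20) * M : ℕ) * Real.log 2 by push_cast; ring, Real.exp_nat_mul,
      Real.exp_log (by norm_num)]
  have h2 : 300 * κ * ((2 * L + 20) * 0.69) ≤ (M : ℝ) * ((2 * L + 20) * Real.log 2) := by
    have hL0 : (0 : ℝ) ≤ L := Nat.cast_nonneg L
    apply mul_le_mul hM _ (by positivity) (by positivity)
    apply mul_le_mul_of_nonneg_left log_two_gt.le (by positivity)
  push_cast at h1
  have hL0 : (0 : ℝ) ≤ L := Nat.cast_nonneg L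
  have h3 : 0 ≤ κ * L := mul_nonneg hκ.le hL0
  nlinarith

end H112
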