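import Pool.Agent.H24.Lib.R_seed8.H112R2.Fourier
set_option autoImplicit false

/-! Module C2: entropy bound for `f` and the resulting size bound. -/

namespace H112

open Finset
open scoped Pointwise

variable {G : Type*} [AddCommGroup G]

omit [AddCommGroup G] in
theorem size_support_U {A : Finset G} : (U A).coeff.support ⊆ A := support_unif

theorem size_R_eq (q : AddMonoidAlgebra ℝ G) (n m : ℕ) :
    (q ^ n * refl (q ^ n)) ^ m = q ^ (m * n) * refl (q ^ (m * n)) := by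
  rw [mul_pow, ← refl_pow, ← pow_mul, mul_comm n m]

theorem size_add_le [DecidableEq G] {A : Finset G} (hA : A.Nonempty) {K : ℝ}
    (hK : ((A + A).card : ℝ) ≤ K * A.card) {p₁ : AddMonoidAlgebra ℝ G} (hp₁ : Law p₁)
    (hs₁ : p₁.coeff.support ⊆ A) {D : ℝ} (hD : Real.log A.card - D ≤ H p₁) :
    H (U A * p₁) - H p₁ ≤ Real.log K + D := by
  have hA0 : (0 : ℝ) < A.card := by exact_mod_cast hA.card_pos
  have hAA : (0 : ℝ) < ((A + A).card : ℝ) := by exact_mod_cast (hA.add hA).card_pos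
  have hK0 : 0 < K := by
    by_contra hcon
    have : K * A.card ≤ 0 := mul_nonpos_of_nonpos_of_nonneg (not_lt.1 hcon) hA0.le
    linarith
  have h1 : H (U A * p₁) ≤ Real.log ((A + A).card : ℝ) := by
    apply ent_le_log_card ((law_U hA).mul hp₁)
    exact support_mul_subset size_support_U hs₁ (fun a ha b hb => Finset.add_mem_add ha hb)
  have h2 : Real.log ((A + A).card : ℝ) ≤ Real.log K + Real.log A.card := by
    rw [← Real.log_mul hK0.ne' hA0.ne']
    exact Real.log_le_log hAA hK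
  linarith

/-- entropy of `f = (u * ǔ) * (r * ř)^m` with `r = (p₁p₂)^n`. -/
theorem H_f_le [DecidableEq G] {A : Finset G} (hA : A.Nonempty) {K : ℝ}
    (hK : ((A + A).card : ℝ) ≤ K * A.card) {p₁ p₂ : AddMonoidAlgebra ℝ G} (hp₁ : Law p₁)
    (hp₂ : Law p₂) (hs₁ : p₁.coeff.support ⊆ A) {D : ℝ} (hD : Real.log A.card - D ≤ H p₁)
    {n m : ℕ} (hn : 1 ≤ n) (hm : 1 ≤ m) :
    H (U A * refl (U A) * ((p₁ * p₂) ^ n * refl ((p₁ * p₂) ^ n)) ^ m) ≤
      2 * H ((p₁ * p₂) ^ (2 * m * n)) - H ((p₁ * p₂) ^ (m * n)) +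
        2 * (Real.log K + D) := by
  have hq : Law (p₁ * p₂) := hp₁.mul hp₂
  have hU : Law (U A) := law_U hA
  rw [size_R_eq]
  obtain ⟨e, he⟩ : ∃ e, m * n = e + 1 := ⟨m * n - 1, by
    have : 1 ≤ m * n := Nat.mul_pos hm hn
    omega⟩
  set Q := (p₁ * p₂) ^ (m * n) with hQ
  have hQl : Law Q := hq.pow _
  have hQe : Q = p₁ * (p₂ * (p₁ * p₂) ^ e) := by
    rw [hQ, he, pow_succ]; ring
  have hQ2 : (p₁ * p₂) ^ (2 * m * n) = Q * Q := by
    rw [hQ, ← pow_add]; congr 1; ring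
  rw [hQ2]
  have h0 := size_add_le hA hK hp₁ hs₁ hD
  have hR := H_ruzsa hQl hQl hQl
  -- first factor
  set R' := (p₂ * (p₁ * p₂) ^ e) * refl Q with hR'
  have hR'l : Law R' := (hp₂.mul (hq.pow e)).mul hQl.refl
  have h1 := H_submod hU hp₁ hR'l
  have e1 : p₁ * R' = Q * refl Q := by
    rw [hR', ← mul_assoc, ← hQe]
  have e2 : U A * p₁ * R' = U A * (Q * refl Q) := by rw [mul_assoc, e1]
  rw [e1, e2] at h1
  -- second factor
  set R'' := U A * (Q * refl (p₂ * (p₁ * p₂) ^ e)) with hR''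
  have hR''l : Law R'' := hU.mul (hQl.mul (hp₂.mul (hq.pow e)).refl)
  have h2 := H_submod hU.refl hp₁.refl hR''l
  have e3 : refl Q = refl p₁ * refl (p₂ * (p₁ * p₂) ^ e) := by
    conv_lhs => rw [hQe]
    rw [refl_mul]
  have e4 : refl p₁ * R'' = U A * (Q * refl Q) := by
    rw [hR'', e3]; ring
  have e5 : refl (U A) * refl p₁ * R'' = U A * refl (U A) * (Q * refl Q) := by
    rw [mul_assoc, e4]; ring
  rw [e4, e5, ← refl_mul, H_refl, H_refl] at h2
  linarith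

/-- Size bound for the Bohr set of radius 1/6 of the large spectrum. -/
theorem bohr_size [AddGroup.FG G] [DecidableEq G] {A : Finset G} (hA : A.Nonempty) {K : ℝ}
    (hK : ((A + A).card : ℝ) ≤ K * A.card) {p₁ p₂ : AddMonoidAlgebra ℝ G} (hp₁ : Law p₁)
    (hp₂ : Law p₂) (hs₁ : p₁.coeff.support ⊆ A) (hs₂ : p₂.coeff.support ⊆ A)
    {D : ℝ} (hD : Real.log A.card - D ≤ H p₁) {n m : ℕ} (hn : 1 ≤ n) (hm : 1 ≤ m) {b : ℝ}
    (hb : H ((p₁ * p₂) ^ (2 * m * n)) ≤ (H p₁ + H p₂) / 2 + b)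
    (h4 : (1 / 4 : ℝ) ^ m ≤ Real.exp (-(2 * b + 2 * Real.log K + 2 * D)) / 4) :
    (bohr {γ : G →+ UnitAddCircle | 1 / 2 ≤ ‖ft ((p₁ * p₂) ^ n) γ‖} (1 / 6)).Finite ∧
      ((bohr {γ : G →+ UnitAddCircle | 1 / 2 ≤ ‖ft ((p₁ * p₂) ^ n) γ‖} (1 / 6)).ncard : ℝ) ≤
        8 * A.card * Real.exp (2 * b + 2 * Real.log K + 2 * D) := by
  have hA0 : (0 : ℝ) < A.card := by exact_mod_cast hA.card_pos
  have hq : Law (p₁ * p₂) := hp₁.mul hp₂
  have hU : Law (U A) := law_U hA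
  have hH := H_f_le hA hK hp₁ hp₂ hs₁ hD hn hm
  set r := (p₁ * p₂) ^ n with hr
  have hrl : Law r := hq.pow n
  set f := U A * refl (U A) * (r * refl r) ^ m with hf
  -- entropy of the middle term
  obtain ⟨e, he⟩ : ∃ e, m * n = e + 1 := ⟨m * n - 1, by
    have : 1 ≤ m * n := Nat.mul_pos hm hn
    omega⟩
  have h1 : (H p₁ + H p₂) / 2 ≤ H ((p₁ * p₂) ^ (m * n)) := by
    have a1 : H p₁ ≤ H (p₁ * p₂) := H_le_mul hp₁ hp₂
    have a2 : H p₂ ≤ H (p₁ * p₂) := by rw [mul_comm]; exact H_le_mul hp₂ hp₁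
    have a3 : H (p₁ * p₂) ≤ H ((p₁ * p₂) ^ (m * n)) := by
      rw [he, pow_succ']; exact H_le_mul hq (hq.pow e)
    linarith
  have h2 : (H p₁ + H p₂) / 2 ≤ Real.log A.card := by
    have a1 : H p₁ ≤ Real.log A.card := ent_le_log_card hp₁ hs₁
    have a2 : H p₂ ≤ Real.log A.card := ent_le_log_card hp₂ hs₂
    linarith
  set c := 2 * b + 2 * Real.log K + 2 * D with hc
  have hHf : H f ≤ Real.log A.card + c := by linarith
  have hfg : f = (U A * r ^ m) * refl (U A * r ^ m) := by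
    rw [hf, refl_mul, refl_pow r m, mul_pow]; ring
  have hf0 : Real.exp (-(Real.log A.card + c)) ≤ f.coeff 0 := by
    have h3 := exp_neg_le_coeff_zero (hU.mul (hrl.pow m))
    rw [← hfg] at h3
    exact (Real.exp_le_exp.2 (by linarith)).trans h3
  have hexp : Real.exp (-(Real.log A.card + c)) = Real.exp (-c) / A.card := by
    rw [neg_add, Real.exp_add, Real.exp_neg, Real.exp_log hA0]
    field_simp
  rw [hexp] at hf0
  have hf0' : Real.exp (-c) ≤ f.coeff 0 * A.card := by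
    rwa [div_le_iff₀ hA0] at hf0
  have hfpos : 0 < f.coeff 0 := lt_of_lt_of_le (by positivity) hf0
  obtain ⟨hfin, hcard⟩ := bohr_finite (G := G) hA hrl (m := m) (by
    refine h4.trans ?_
    rw [← hf]
    linarith)
  refine ⟨hfin, ?_⟩
  rw [← hf] at hcard
  set N := ((bohr {γ : G →+ UnitAddCircle | 1 / 2 ≤ ‖ft r γ‖} (1 / 6)).ncard : ℝ) with hN
  have hN0 : 0 ≤ N := Nat.cast_nonneg _
  have h5 : N * (Real.exp (-c) / A.card) ≤ 8 := (mul_le_mul_of_nonneg_left hf0 hN0).trans hcard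
  have h6 : Real.exp (-c) = 1 / Real.exp c := by rw [Real.exp_neg, one_div]
  rw [h6, div_div, mul_one_div, div_le_iff₀ (by positivity)] at h5
  linarith

end H112
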