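import Pool.Agent.H24.Lib.R_seed8.H112R2.Cover
import Pool.Agent.H24.Lib.R_seed8.H112R2.Size
import Pool.Agent.H24.Lib.R_seed8.H112R2.Growth
import Pool.Agent.H24.Lib.R_seed8.H112R2.Num
set_option autoImplicit false

/-! Assembly: the near-polynomial Freiman-Ruzsa theorem. -/

namespace H112

open Finset
open scoped Pointwise

section card

variable {G : Type*} [AddCommGroup G]

theorem LL_add {m : ℕ} (N : Seminorm ℝ (Fin m → ℝ)) {a b : ℝ} {c d : Fin m → ℤ}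
    (hc : c ∈ LL N a) (hd : d ∈ LL N b) : c - d ∈ LL N (a + b) := by
  have h1 : (fun i => (((c - d) i : ℤ) : ℝ)) = (fun i => (c i : ℝ)) - (fun i => (d i : ℝ)) := by
    funext i; simp
  show N _ ≤ a + b
  rw [h1]
  exact (map_sub_le_add N _ _).trans (add_le_add hc hd)

theorem LL_zero {m : ℕ} {N : Seminorm ℝ (Fin m → ℝ)} (hN : ∀ x, N x = 0 → x = 0)
    {c : Fin m → ℤ} (hc : c ∈ LL N 0) : c = 0 := by
  have h1 : N (fun i => (c i : ℝ)) = 0 := le_antisymm hc (apply_nonneg N _)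
  have h2 := hN _ h1
  funext i
  have h3 := congrFun h2 i
  simpa using h3

theorem bohr_zero_of_ann {S : Set (G →+ UnitAddCircle)} {x : G} (hx : x ∈ ann S) {r : ℝ}
    (hr : 0 ≤ r) : x ∈ bohr S r := by
  intro γ hγ
  rw [hx γ hγ]
  simpa using hr

theorem bohr_add {S : Set (G →+ UnitAddCircle)} {x y : G} {r s : ℝ} (hx : x ∈ bohr S r)
    (hy : y ∈ bohr S s) : x + y ∈ bohr S (r + s) := by
  intro γ hγ
  rw [map_add]
  exact (norm_add_le _ _).trans (add_le_add (hx γ hγ) (hy γ hγ))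

theorem main_bohr_mono {S : Set (G →+ UnitAddCircle)} {r s : ℝ} (h : r ≤ s) :
    bohr S r ⊆ bohr S s := fun _ hx γ hγ => (hx γ hγ).trans h

theorem bohr_add_ann {S : Set (G →+ UnitAddCircle)} {x y : G} {r : ℝ} (hx : x ∈ bohr S r)
    (hy : y ∈ ann S) : x + y ∈ bohr S r := by
  intro γ hγ
  rw [map_add, hy γ hγ, add_zero]
  exact hx γ hγ

theorem bohr_add_ann' {S : Set (G →+ UnitAddCircle)} {x y : G} {r : ℝ}
    (hx : x + y ∈ bohr S r) (hy : y ∈ ann S) : x ∈ bohr S r := by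
  intro γ hγ
  have := hx γ hγ
  rw [map_add, hy γ hγ, add_zero] at this
  exact this

theorem ann_finite {S : Set (G →+ UnitAddCircle)} (hfin : (bohr S (1 / 6)).Finite) :
    Finite (ann S) := by
  have : (ann S : Set G).Finite := hfin.subset (fun x hx => bohr_zero_of_ann hx (by norm_num))
  exact this.to_subtype

theorem card_LL_le {S : Set (G →+ UnitAddCircle)} (hfin : (bohr S (1 / 6)).Finite)
    {m : ℕ} {N : Seminorm ℝ (Fin m → ℝ)} {ψ : (Fin m → ℤ) →+ G} (hN : ∀ x, N x = 0 → x = 0)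
    (h1 : ∀ c : Fin m → ℤ, N (fun i => (c i : ℝ)) < 1 / 2 → ∀ r : ℝ, 0 ≤ r →
        (ψ c ∈ bohr S r ↔ c ∈ LL N r)) {R : ℝ} (hR0 : 0 ≤ R) (hR : R ≤ 1 / 6) :
    (LL N R).Finite ∧ (LL N R).ncard * Nat.card (ann S) ≤ (bohr S (1 / 6)).ncard := by
  classical
  haveI := ann_finite hfin
  -- the map
  let f : (Fin m → ℤ) × G → G := fun z => ψ z.1 + z.2
  have hmaps : Set.MapsTo f ((LL N R) ×ˢ (ann S : Set G)) (bohr S (1 / 6)) := by
    rintro ⟨c, h⟩ ⟨hc, hh⟩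
    have hc' : N (fun i => (c i : ℝ)) ≤ R := hc
    have h3 : ψ c ∈ bohr S (1 / 6) :=
      (h1 c (by linarith) (1 / 6) (by norm_num)).2 (hc'.trans hR)
    exact bohr_add_ann h3 hh
  have hinj : Set.InjOn f ((LL N R) ×ˢ (ann S : Set G)) := by
    rintro ⟨c, h⟩ ⟨hc, hh⟩ ⟨c', h'⟩ ⟨hc', hh'⟩ heq
    simp only [f] at heq
    have hd : c - c' ∈ LL N (R + R) := LL_add N hc hc'
    have hd2 : N (fun i => (((c - c') i : ℤ) : ℝ)) < 1 / 2 := by
      have : N (fun i => (((c - c') i : ℤ) : ℝ)) ≤ R + R := hd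
      linarith
    have hd3 : ψ (c - c') ∈ ann S := by
      rw [map_sub]
      have : ψ c - ψ c' = h' - h := by
        rw [sub_eq_sub_iff_add_eq_add, add_comm h' _]
        simpa [add_comm] using heq
      rw [this]
      exact (ann S).sub_mem hh' hh
    have hd4 : c - c' ∈ LL N 0 :=
      (h1 _ hd2 0 le_rfl).1 (bohr_zero_of_ann hd3 le_rfl)
    have hd5 : c = c' := sub_eq_zero.1 (LL_zero hN hd4)
    subst hd5
    simp only [add_right_inj] at heq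
    rw [heq]
  have hfin2 : ((LL N R) ×ˢ (ann S : Set G)).Finite :=
    Set.Finite.of_injOn hmaps hinj hfin
  have hne : (ann S : Set G).Nonempty := ⟨0, (ann S).zero_mem⟩
  have hfinL : (LL N R).Finite := by
    have := hfin2.image Prod.fst
    rw [Set.fst_image_prod _ hne] at this
    exact this
  refine ⟨hfinL, ?_⟩
  have h5 : ((LL N R) ×ˢ (ann S : Set G)).ncard = (LL N R).ncard * Nat.card (ann S) := by
    rw [Set.ncard_prod]
    rfl
  rw [← h5]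
  exact Set.ncard_le_ncard_of_injOn f hmaps hinj hfin

theorem card_bohr_le {S : Set (G →+ UnitAddCircle)} (hfin : (bohr S (1 / 6)).Finite)
    {m : ℕ} {N : Seminorm ℝ (Fin m → ℝ)} {ψ : (Fin m → ℤ) →+ G} {ρ : ℝ}
    (hL : (LL N ρ).Finite)
    (h2 : ∀ x ∈ bohr S ρ, ∃ c ∈ LL N ρ, x - ψ c ∈ ann S) :
    (bohr S ρ).ncard ≤ (LL N ρ).ncard * Nat.card (ann S) := by
  classical
  haveI := ann_finite hfin
  let f : (Fin m → ℤ) × G → G := fun z => ψ z.1 + z.2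
  have hann : (ann S : Set G).Finite := Set.toFinite _
  have hfin2 : ((LL N ρ) ×ˢ (ann S : Set G)).Finite := hL.prod hann
  have hsub : bohr S ρ ⊆ f '' ((LL N ρ) ×ˢ (ann S : Set G)) := by
    intro x hx
    obtain ⟨c, hc, hc2⟩ := h2 x hx
    exact ⟨(c, x - ψ c), ⟨hc, hc2⟩, by simp [f]⟩
  have h5 : ((LL N ρ) ×ˢ (ann S : Set G)).ncard = (LL N ρ).ncard * Nat.card (ann S) := by
    rw [Set.ncard_prod]
    rfl
  rw [← h5]
  exact (Set.ncard_le_ncard hsub (hfin2.image f)).trans (Set.ncard_image_le hfin2)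


end card

section core

variable {G : Type*} [AddCommGroup G]

/-- all the structure extracted from the set, before optimising parameters -/
theorem core [AddGroup.FG G] [DecidableEq G] {K : ℝ} {A : Finset G} (hA : A.Nonempty)
    (hK : ((A + A).card : ℝ) ≤ K * A.card) (hK1 : 1 ≤ K) (j : ℕ) {κ b D ε : ℝ}
    (hκ : κ = Real.log (2 * K)) (hb : b = 12 * (j + 1) * κ) (hD : D = 2 * (2 * j + 1) * κ)
    (hε : ε = 6 * (j + 2) * κ / 2 ^ j) (hρ : 4 * Real.sqrt ε ≤ 1 / 12)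
    (h4 : (1 / 4 : ℝ) ^ (2 ^ j) ≤ Real.exp (-(2 * b + 2 * Real.log K + 2 * D)) / 4) :
    ∃ (S : Set (G →+ UnitAddCircle)) (X : Finset G),
      (bohr S (1 / 6)).Finite ∧
      ((bohr S (1 / 6)).ncard : ℝ) ≤ (8 * Real.exp (2 * b + 2 * Real.log K + 2 * D)) * A.card ∧
      (∀ a ∈ A, ∃ x ∈ X, a - x ∈ bohr S (4 * Real.sqrt ε)) ∧
      (X.card : ℝ) ≤ K * Real.exp (2 * D + 1) ∧
      (A.card : ℝ) * Real.exp (-(2 * D + 1)) ≤ (bohr S (4 * Real.sqrt ε)).ncard := by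
  classical
  have hκ0 : 0 ≤ κ := by
    rw [hκ]; exact Real.log_nonneg (by linarith)
  obtain ⟨p₁, p₂, hp₁, hp₂, hs₁, hs₂, hH₁, hH₂, hgrow⟩ :=
    exists_good_pair hA hK (J := 2 * j + 1) (by omega)
  set q := p₁ * p₂ with hq
  have hqlaw : Law q := hp₁.mul hp₂
  rw [← hκ] at hH₁ hH₂ hgrow
  have hD₁ : Real.log A.card - D ≤ H p₁ := by
    refine le_trans (le_of_eq ?_) hH₁
    rw [hD]; push_cast; ring
  have hn1 : 1 ≤ 2 ^ j := Nat.one_le_two_pow
  -- growth bound at 2^(2j+1)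
  have hg1 : H (q ^ (2 * 2 ^ j * 2 ^ j)) ≤ (H p₁ + H p₂) / 2 + b := by
    have e1 : 2 * 2 ^ j * 2 ^ j = 2 ^ (2 * j + 1) := by ring
    rw [e1]
    refine (hgrow (2 * j + 1) le_rfl).trans (le_of_eq ?_)
    rw [hb]; push_cast; ring
  have hsz := bohr_size hA hK hp₁ hp₂ hs₁ hs₂ hD₁ (n := 2 ^ j) (m := 2 ^ j) hn1 hn1
    (b := b) hg1 h4
  -- near invariance
  have hinc : H (q ^ (2 ^ j + 1)) - H q ≤ ((2 ^ j : ℕ) : ℝ) * ε := by
    have h1 : H (q ^ (2 ^ j + 1)) ≤ H (q ^ (2 ^ (j + 1))) := by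
      have e1 : q ^ (2 ^ (j + 1)) = q ^ (2 ^ j + 1) * q ^ (2 ^ j - 1) := by
        rw [← pow_add]; congr 1
        have : 2 ^ (j + 1) = 2 ^ j + 2 ^ j := by ring
        omega
      rw [e1]
      exact H_le_mul (hqlaw.pow _) (hqlaw.pow _)
    have h2 := hgrow (j + 1) (by omega)
    have h3 : (H p₁ + H p₂) / 2 ≤ H q := by
      have a1 : H p₁ ≤ H q := H_le_mul hp₁ hp₂
      have a2 : H p₂ ≤ H q := by
        rw [hq, mul_comm]; exact H_le_mul hp₂ hp₁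
      linarith
    have h4' : ((2 ^ j : ℕ) : ℝ) * ε = 6 * (j + 2) * κ := by
      rw [hε]; push_cast
      field_simp
    rw [h4']
    push_cast at h2
    nlinarith
  obtain ⟨E, hEA, hEcard, hE⟩ := near_invariance hp₁ hp₂ hs₁ hn1 hD₁ hinc
  rw [← hq] at hE
  set S : Set (G →+ UnitAddCircle) := {γ | 1 / 2 ≤ ‖ft (q ^ 2 ^ j) γ‖} with hS
  have hApos : (0 : ℝ) < A.card := by exact_mod_cast hA.card_pos
  have hEpos : (0 : ℝ) < E.card := lt_of_lt_of_le (by positivity) hEcard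
  have hEne : E.Nonempty := by
    rw [← Finset.card_pos]; exact_mod_cast hEpos
  -- E - E inside the Bohr set
  have hEE : ∀ x ∈ E, ∀ y ∈ E, x - y ∈ bohr S (4 * Real.sqrt ε) := by
    intro x hx y hy γ hγ
    exact hE x hx y hy γ hγ
  -- covering
  have hcov : ((A + E).card : ℝ) ≤ (K * Real.exp (2 * D + 1)) * E.card := by
    have h1 : ((A + E).card : ℝ) ≤ (A + A).card := by
      exact_mod_cast Finset.card_le_card (Finset.add_subset_add_left hEA)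
    have h2 : (A.card : ℝ) ≤ Real.exp (2 * D + 1) * E.card := by
      have h3 : (A.card : ℝ) = Real.exp (2 * D + 1) * (A.card * Real.exp (-(2 * D + 1))) := by
        rw [Real.exp_neg]; field_simp
      rw [h3]
      exact mul_le_mul_of_nonneg_left hEcard (Real.exp_pos _).le
    calc ((A + E).card : ℝ) ≤ K * A.card := h1.trans hK
      _ ≤ K * (Real.exp (2 * D + 1) * E.card) := mul_le_mul_of_nonneg_left h2 (by linarith)
      _ = _ := by ring
  obtain ⟨X, hXA, hXcard, hX⟩ := Finset.ruzsa_covering_add hEne hcov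
  refine ⟨S, X, hsz.1, ?_, ?_, hXcard, ?_⟩
  · refine hsz.2.trans (le_of_eq ?_)
    ring
  · intro a ha
    obtain ⟨x, hx, y, hy, hxy⟩ := Finset.mem_add.1 (hX ha)
    obtain ⟨u, hu, v, hv, huv⟩ := Finset.mem_sub.1 hy
    refine ⟨x, hx, ?_⟩
    have : a - x = u - v := by rw [← hxy, ← huv]; abel
    rw [this]
    exact hEE u hu v hv
  · refine hEcard.trans ?_
    obtain ⟨e, he⟩ := hEne
    have hfinρ : (bohr S (4 * Real.sqrt ε)).Finite :=
      hsz.1.subset (main_bohr_mono (hρ.trans (by norm_num)))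
    have : (E.card : ℝ) ≤ (bohr S (4 * Real.sqrt ε)).ncard := by
      have h1 : (E.image fun x => x - e).card = E.card :=
        Finset.card_image_of_injective _ (sub_left_injective)
      have h2 : (((E.image fun x => x - e) : Finset G) : Set G).ncard ≤
          (bohr S (4 * Real.sqrt ε)).ncard := by
        refine Set.ncard_le_ncard ?_ hfinρ
        intro z hz
        rw [Finset.coe_image] at hz
        obtain ⟨x, hx, rfl⟩ := hz
        exact hEE x hx e he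
      rw [Set.ncard_coe_finset, h1] at h2
      exact_mod_cast h2
    exact this


theorem dim_aux {S : Set (G →+ UnitAddCircle)} (hfin : (bohr S (1 / 6)).Finite)
    {m : ℕ} {N : Seminorm ℝ (Fin m → ℝ)} {ψ : (Fin m → ℤ) →+ G} (hN : ∀ x, N x = 0 → x = 0)
    {ρ a V y : ℝ} (ha : 0 < a)
    (h1 : ∀ c : Fin m → ℤ, N (fun i => (c i : ℝ)) < 1 / 2 → ∀ r : ℝ, 0 ≤ r →
        (ψ c ∈ bohr S r ↔ c ∈ LL N r))
    (h2 : ∀ x ∈ bohr S ρ, ∃ c ∈ LL N ρ, x - ψ c ∈ ann S)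
    (hspan : Submodule.span ℝ {v : Fin m → ℝ | ∃ c ∈ LL N ρ, v = fun i => (c i : ℝ)} = ⊤)
    (hρ0 : 0 < ρ) (hρ12 : ρ ≤ 1 / 12) {M t : ℕ} (hMm : M ≤ m)
    (hRr : (3 * (M : ℝ) * t + 1) * ρ ≤ 1 / 6)
    (hlow : a * Real.exp (-y) ≤ (bohr S ρ).ncard)
    (hsize : ((bohr S (1 / 6)).ncard : ℝ) ≤ V * a) :
    ((t : ℝ) + 1) ^ M ≤ V * Real.exp y := by
  have hR0 : 0 ≤ (3 * (M : ℝ) * t + 1) * ρ := by positivity
  obtain ⟨hfinR, hcardR⟩ := card_LL_le hfin hN h1 hR0 hRr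
  have hgrow := dim_growth N hρ0.le hspan (M := M) (t := t) hMm hfinR
  have hLfin : (LL N ρ).Finite :=
    (card_LL_le hfin hN h1 hρ0.le (by linarith)).1
  have hbl := card_bohr_le hfin hLfin h2
  have h5 : (t + 1) ^ M * (bohr S ρ).ncard ≤ (bohr S (1 / 6)).ncard := by
    calc (t + 1) ^ M * (bohr S ρ).ncard
        ≤ (t + 1) ^ M * ((LL N ρ).ncard * Nat.card (ann S)) := Nat.mul_le_mul_left _ hbl
      _ = ((t + 1) ^ M * (LL N ρ).ncard) * Nat.card (ann S) := by ring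
      _ ≤ (LL N ((3 * M * t + 1) * ρ)).ncard * Nat.card (ann S) :=
          Nat.mul_le_mul_right _ hgrow
      _ ≤ _ := hcardR
  have h6 : ((t : ℝ) + 1) ^ M * (a * Real.exp (-y)) ≤ V * a := by
    calc ((t : ℝ) + 1) ^ M * (a * Real.exp (-y))
        ≤ ((t : ℝ) + 1) ^ M * (bohr S ρ).ncard :=
          mul_le_mul_of_nonneg_left hlow (by positivity)
      _ ≤ (bohr S (1 / 6)).ncard := by exact_mod_cast h5
      _ ≤ _ := hsize
  have h8' : ((t : ℝ) + 1) ^ M * Real.exp (-y) ≤ V := by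
    refine le_of_mul_le_mul_right ?_ ha
    calc ((t : ℝ) + 1) ^ M * Real.exp (-y) * a
        = ((t : ℝ) + 1) ^ M * (a * Real.exp (-y)) := by ring
      _ ≤ V * a := h6
  rw [Real.exp_neg, ← div_eq_mul_inv, div_le_iff₀ (Real.exp_pos _)] at h8'
  exact h8'

/-- the structure theorem: all hypotheses of the final geometric steps, with good bounds. -/
theorem structure_thm [AddGroup.FG G] [DecidableEq G] {K : ℝ} {A : Finset G} (hA : A.Nonempty)
    (hK : ((A + A).card : ℝ) ≤ K * A.card) (hK1 : 1 ≤ K) {κ : ℝ} (hκ : κ = Real.log (2 * K)) :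
    ∃ (S : Set (G →+ UnitAddCircle)) (X : Finset G) (V ρ : ℝ) (m : ℕ)
      (N : Seminorm ℝ (Fin m → ℝ)) (ψ : (Fin m → ℤ) →+ G),
      (bohr S (1 / 6)).Finite ∧ 1 ≤ V ∧ ((bohr S (1 / 6)).ncard : ℝ) ≤ V * A.card ∧
      0 < ρ ∧ ρ ≤ 1 / 12 ∧ (∀ a ∈ A, ∃ x ∈ X, a - x ∈ bohr S ρ) ∧
      (∀ x, N x = 0 → x = 0) ∧
      (∀ c : Fin m → ℤ, N (fun i => (c i : ℝ)) < 1 / 2 → ∀ r : ℝ, 0 ≤ r →
        (ψ c ∈ bohr S r ↔ c ∈ LL N r)) ∧
      (∀ x ∈ bohr S ρ, ∃ c ∈ LL N ρ, x - ψ c ∈ ann S) ∧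
      (m : ℝ) ≤ 300 * κ ∧
      (X.card : ℝ) * V ≤ Real.exp (8000 * κ * (1 + Real.log (1 + κ))) := by
  classical
  have hK0 : (0 : ℝ) < K := by linarith
  have hκlog2 : Real.log 2 ≤ κ := by
    rw [hκ]; exact Real.log_le_log (by norm_num) (by linarith)
  have hκ69 : (0.69 : ℝ) < κ := lt_of_lt_of_le log_two_gt hκlog2
  have hκ0 : 0 < κ := by linarith
  have hlogK : Real.log K ≤ κ := by
    rw [hκ]; exact Real.log_le_log hK0 (by linarith)
  have hlogK0 : 0 ≤ Real.log K := Real.log_nonneg hK1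
  obtain ⟨n, hn1, hn2⟩ := exists_nat_pow_near (show (1 : ℝ) ≤ 1 + κ by linarith) (one_lt_two)
  obtain ⟨L, hLdef⟩ : ∃ L : ℕ, L = n + 1 := ⟨_, rfl⟩
  have hL : κ ≤ 2 ^ L := by rw [hLdef]; linarith
  have hL' : (2 : ℝ) ^ L ≤ 2 * (1 + κ) := by rw [hLdef, pow_succ]; linarith
  obtain ⟨j, hj⟩ : ∃ j : ℕ, j = 8 * L + 100 := ⟨_, rfl⟩
  obtain ⟨b, hb⟩ : ∃ b : ℝ, b = 12 * (j + 1) * κ := ⟨_, rfl⟩
  obtain ⟨D, hD⟩ : ∃ D : ℝ, D = 2 * (2 * j + 1) * κ := ⟨_, rfl⟩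
  obtain ⟨ε, hε⟩ : ∃ ε : ℝ, ε = 6 * (j + 2) * κ / 2 ^ j := ⟨_, rfl⟩
  have hε0 : 0 < ε := by rw [hε]; positivity
  have hρle : 4 * Real.sqrt ε ≤ 1 / 2 ^ (3 * L + 43) :=
    sqrt_eps_le hκ0.le hL (by rw [hε, hj])
  have hρ12 : 4 * Real.sqrt ε ≤ 1 / 12 := by
    refine hρle.trans ?_
    apply one_div_le_one_div_of_le (by norm_num)
    calc (12 : ℝ) ≤ 2 ^ 4 := by norm_num
      _ ≤ 2 ^ (3 * L + 43) := pow_le_pow_right₀ (by norm_num) (by omega)
  have hexp : 2 * b + 2 * Real.log K + 2 * D ≤ (32 * (j : ℝ) + 30) * κ :=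
    exp_arg1 hκ69 hb hD hlogK
  have h4 : (1 / 4 : ℝ) ^ (2 ^ j) ≤ Real.exp (-(2 * b + 2 * Real.log K + 2 * D)) / 4 := by
    rw [hj]
    apply tail_cond hκ0.le hL
    rw [← hj]; exact hexp
  obtain ⟨S, X, hfin, hsize, hX, hXcard, hlow⟩ :=
    core hA hK hK1 j hκ hb hD hε hρ12 h4
  set V : ℝ := 8 * Real.exp (2 * b + 2 * Real.log K + 2 * D) with hV
  set ρ : ℝ := 4 * Real.sqrt ε with hρdef
  have hρ0 : 0 < ρ := by rw [hρdef]; positivity
  obtain ⟨m, N, ψ, hN, h1, h2, hspan⟩ := lattice_repr S hfin hρ0.le (by linarith : ρ ≤ 1 / 6)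
  have hb0 : 0 ≤ b := by rw [hb]; positivity
  have hD0 : 0 ≤ D := by rw [hD]; positivity
  have hV1 : 1 ≤ V := by
    have : 1 ≤ Real.exp (2 * b + 2 * Real.log K + 2 * D) := Real.one_le_exp (by positivity)
    rw [hV]; linarith
  have hApos : (0 : ℝ) < A.card := by exact_mod_cast hA.card_pos
  have h8 : (8 : ℝ) ≤ Real.exp (4 * κ) := by
    have h5 : Real.exp (4 * Real.log 2) ≤ Real.exp (4 * κ) := Real.exp_le_exp.2 (by linarith)
    have h6 : Real.exp (4 * Real.log 2) = 16 := by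
      rw [show (4 : ℝ) * Real.log 2 = (4 : ℕ) * Real.log 2 by norm_num, Real.exp_nat_mul,
        Real.exp_log (by norm_num)]
      norm_num
    linarith
  have he1 : Real.exp 1 ≤ Real.exp (2 * κ) := Real.exp_le_exp.2 (by linarith)
  -- the dimension bound
  have hdim : (m : ℝ) ≤ 300 * κ := by
    by_contra hcon
    push Not at hcon
    obtain ⟨M, hMdef⟩ : ∃ M : ℕ, M = ⌈300 * κ⌉₊ := ⟨_, rfl⟩
    have hMm : M ≤ m := by rw [hMdef]; exact Nat.ceil_le.2 hcon.le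
    have hMlow : 300 * κ ≤ M := by rw [hMdef]; exact Nat.le_ceil _
    have hMup : (M : ℝ) ≤ 300 * κ + 1 := by
      rw [hMdef]; exact (Nat.ceil_lt_add_one (by positivity)).le
    obtain ⟨t, ht⟩ : ∃ t : ℕ, t + 1 = 2 ^ (2 * L + 20) :=
      ⟨2 ^ (2 * L + 20) - 1, Nat.sub_add_cancel Nat.one_le_two_pow⟩
    have ht' : (t : ℝ) + 1 = 2 ^ (2 * L + 20) := by exact_mod_cast ht
    have hRr : (3 * (M : ℝ) * t + 1) * ρ ≤ 1 / 6 := radius_ok hρ0.le hL hMup ht' hρle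
    have h7 : ((t : ℝ) + 1) ^ M ≤ V * Real.exp (2 * D + 1) :=
      dim_aux hfin hN hApos h1 h2 hspan hρ0 hρ12 hMm hRr hlow hsize
    apply dim_contra (L := L) (M := M) hκ0 hMlow
    rw [← ht']
    refine h7.trans ?_
    rw [← hj]
    calc V * Real.exp (2 * D + 1)
        ≤ (Real.exp (4 * κ) * Real.exp (2 * b + 2 * Real.log K + 2 * D)) *
            (Real.exp (2 * D) * Real.exp (2 * κ)) := by
          rw [hV, Real.exp_add (2 * D) 1]
          gcongr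
      _ = Real.exp (4 * κ + (2 * b + 2 * Real.log K + 2 * D) + (2 * D + 2 * κ)) := by
          rw [← Real.exp_add, ← Real.exp_add, ← Real.exp_add]
      _ ≤ Real.exp (40 * (j + 1) * κ) := Real.exp_le_exp.2 (exp_arg2 hκ69 hb hD hlogK)
  refine ⟨S, X, V, ρ, m, N, ψ, hfin, hV1, hsize, hρ0, hρ12, hX, hN, h1, h2, hdim, ?_⟩
  -- final numeric bound
  calc (X.card : ℝ) * V ≤ (K * Real.exp (2 * D + 1)) * V :=
        mul_le_mul_of_nonneg_right hXcard (by linarith)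
    _ ≤ (Real.exp κ * (Real.exp (2 * D) * Real.exp (2 * κ))) *
          (Real.exp (4 * κ) * Real.exp (2 * b + 2 * Real.log K + 2 * D)) := by
        rw [hV, Real.exp_add (2 * D) 1]
        have hKe : K ≤ Real.exp κ := by
          rw [hκ, Real.exp_log (by linarith)]; linarith
        gcongr
    _ = Real.exp (κ + (2 * D + 2 * κ) + (4 * κ + (2 * b + 2 * Real.log K + 2 * D))) := by
        rw [← Real.exp_add, ← Real.exp_add, ← Real.exp_add, ← Real.exp_add]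
    _ ≤ Real.exp (8000 * κ * (1 + Real.log (1 + κ))) :=
        Real.exp_le_exp.2 (exp_arg3 hκ69 hb hD hlogK hj hL')

end core

end H112
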