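import Pool.Agent.H24.Lib.R_seed8.H112R2.Conv
set_option autoImplicit false

/-! Module E3: conditioning on sums, the fibring inequality. -/

namespace H112

open Finset

variable {G : Type*} [AddCommGroup G]

/-! ### auxiliary lemmas -/

theorem Tilt_mapDomain_apply {Ω α : Type*} [DecidableEq α] (w : Ω →₀ ℝ) (f : Ω → α) (y : α) :
    w.mapDomain f y = ∑ o ∈ w.support, if f o = y then w o else 0 := by
  classical
  rw [Finsupp.mapDomain, Finsupp.sum, Finsupp.finsetSum_apply]
  apply Finset.sum_congr rfl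
  intro o _
  rw [Finsupp.single_apply]

/-- chain rule -/
theorem Tilt_chain {α γ : Type*} (v : α × γ →₀ ℝ) (hv : ∀ o, 0 ≤ v o) (u : γ →₀ ℝ)
    (hu : v.mapDomain Prod.snd = u) (c : γ → (α →₀ ℝ))
    (hc : ∀ s ∈ u.support, ∀ x, c s x = v (x, s) / u s) :
    (u.sum fun s a => a * ent (c s)) = ent v - ent u := by
  classical
  set A := v.support.image Prod.fst with hA
  set C := v.support.image Prod.snd with hC
  have hsub : v.support ⊆ A ×ˢ C := by
    intro o ho
    rw [Finset.mem_product]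
    exact ⟨Finset.mem_image_of_mem _ ho, Finset.mem_image_of_mem _ ho⟩
  have hus : ∀ s ∈ C, u s = ∑ x ∈ A, v (x, s) := by
    intro s hs
    rw [← hu, Tilt_mapDomain_apply]
    rw [Finset.sum_subset hsub, Finset.sum_product]
    · apply Finset.sum_congr rfl
      intro x _
      simp only
      rw [Finset.sum_ite_eq' C s, if_pos hs]
    · intro o _ ho
      rw [Finsupp.notMem_support_iff.1 ho, ite_self]
  have hsu : u.support ⊆ C := by
    rw [← hu]
    exact Finsupp.mapDomain_support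
  have hentv : ent v = ∑ s ∈ C, ∑ x ∈ A, Real.negMulLog (v (x, s)) := by
    rw [Finset.sum_comm, ← Finset.sum_product']
    unfold ent Finsupp.sum
    apply Finset.sum_subset hsub
    intro o _ ho
    change Real.negMulLog (v o) = 0
    rw [Finsupp.notMem_support_iff.1 ho, Real.negMulLog_zero]
  have hkey : ∀ s ∈ C, ∑ x ∈ A, Real.negMulLog (v (x, s)) =
      u s * ent (c s) + Real.negMulLog (u s) := by
    intro s hs
    by_cases h : s ∈ u.support
    · have hne : u s ≠ 0 := Finsupp.mem_support_iff.1 h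
      have hcs : ∀ x, v (x, s) = c s x * u s := by
        intro x
        rw [hc s h x, div_mul_cancel₀ _ hne]
      have hcsup : (c s).support ⊆ A := by
        intro x hx
        rw [Finsupp.mem_support_iff, hc s h x] at hx
        have : v (x, s) ≠ 0 := by
          intro h0
          rw [h0, zero_div] at hx
          exact hx rfl
        exact Finset.mem_image.2 ⟨(x, s), Finsupp.mem_support_iff.2 this, rfl⟩
      have hcsum : ∑ x ∈ A, c s x = 1 := by
        have : ∑ x ∈ A, c s x = (∑ x ∈ A, v (x, s)) / u s := by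
          rw [Finset.sum_div]
          exact Finset.sum_congr rfl fun x _ => hc s h x
        rw [this, ← hus s hs, div_self hne]
      have hent : ent (c s) = ∑ x ∈ A, Real.negMulLog (c s x) := by
        unfold ent Finsupp.sum
        apply Finset.sum_subset hcsup
        intro x _ hx
        change Real.negMulLog (c s x) = 0
        rw [Finsupp.notMem_support_iff.1 hx, Real.negMulLog_zero]
      rw [hent, Finset.mul_sum]
      have : ∑ x ∈ A, Real.negMulLog (v (x, s)) =
          ∑ x ∈ A, (u s * Real.negMulLog (c s x) + c s x * Real.negMulLog (u s)) := by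
        apply Finset.sum_congr rfl
        intro x _
        rw [hcs x, Real.negMulLog_mul]
      rw [this, Finset.sum_add_distrib, ← Finset.sum_mul, hcsum, one_mul]
    · have h0 : u s = 0 := Finsupp.notMem_support_iff.1 h
      rw [h0, zero_mul, Real.negMulLog_zero, add_zero]
      apply Finset.sum_eq_zero
      intro x hx
      have h1 := hus s hs
      rw [h0] at h1
      have h2 := (Finset.sum_eq_zero_iff_of_nonneg (fun x _ => hv (x, s))).1 h1.symm x hx
      rw [h2, Real.negMulLog_zero]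
  rw [hentv, Finset.sum_congr rfl hkey, Finset.sum_add_distrib]
  have e1 : ∑ s ∈ C, u s * ent (c s) = u.sum fun s a => a * ent (c s) := by
    rw [Finsupp.sum]
    symm
    apply Finset.sum_subset hsu
    intro s _ hs
    rw [Finsupp.notMem_support_iff.1 hs, zero_mul]
  have e2 : ∑ s ∈ C, Real.negMulLog (u s) = ent u := by
    unfold ent Finsupp.sum
    symm
    apply Finset.sum_subset hsu
    intro s _ hs
    change Real.negMulLog (u s) = 0
    rw [Finsupp.notMem_support_iff.1 hs, Real.negMulLog_zero]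
  rw [e1, e2]
  ring

/-- joint law of `(X, X + B)` -/
noncomputable def Tilt_joint (p b : AddMonoidAlgebra ℝ G) : G × G →₀ ℝ :=
  (prodLaw p.coeff b.coeff).mapDomain fun o => (o.1, o.1 + o.2)

theorem Tilt_joint_inj : Function.Injective (fun o : G × G => (o.1, o.1 + o.2)) := by
  rintro ⟨a, b⟩ ⟨c, d⟩ h
  simp only [Prod.mk.injEq] at h
  obtain ⟨rfl, h2⟩ := h
  have := add_left_cancel h2
  rw [this]

theorem Tilt_joint_apply (p b : AddMonoidAlgebra ℝ G) (x s : G) :
    Tilt_joint p b (x, s) = p.coeff x * b.coeff (s - x) := by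
  unfold Tilt_joint
  have h := Finsupp.mapDomain_apply (Tilt_joint_inj (G := G)) (prodLaw p.coeff b.coeff) (x, s - x)
  simp only [add_sub_cancel] at h
  rw [h, prodLaw_apply]

theorem Tilt_joint_snd (p b : AddMonoidAlgebra ℝ G) :
    (Tilt_joint p b).mapDomain Prod.snd = (p * b).coeff := by
  unfold Tilt_joint
  rw [← Finsupp.mapDomain_comp, coeff_mul]
  rfl

theorem Tilt_ent_joint {p b : AddMonoidAlgebra ℝ G} (hp : Law p) (hb : Law b) :
    ent (Tilt_joint p b) = H p + H b := by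
  unfold Tilt_joint
  rw [ent_mapDomain_of_injOn _ (Tilt_joint_inj.injOn), ent_prodLaw hp hb]
  rfl

theorem tilt_apply (p b : AddMonoidAlgebra ℝ G) (s x : G) :
    (tilt p b s).coeff x = p.coeff x * b.coeff (s - x) / (p * b).coeff s := rfl

theorem support_tilt (p b : AddMonoidAlgebra ℝ G) (s : G) :
    (tilt p b s).coeff.support ⊆ p.coeff.support := by
  intro x hx
  rw [Finsupp.mem_support_iff, tilt_apply] at hx
  rw [Finsupp.mem_support_iff]
  intro h0
  apply hx
  rw [h0, zero_mul, zero_div]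

theorem law_tilt {p b : AddMonoidAlgebra ℝ G} (hp : Law p) (hb : Law b) {s : G}
    (hs : (p * b).coeff s ≠ 0) : Law (tilt p b s) := by
  constructor
  · intro x
    rw [tilt_apply]
    exact div_nonneg (mul_nonneg (hp.1 x) (hb.1 _)) ((Law.mul hp hb).1 s)
  · rw [Finsupp.sum]
    have h1 : ∑ x ∈ (tilt p b s).coeff.support, (tilt p b s).coeff x =
        ∑ x ∈ p.coeff.support, (tilt p b s).coeff x := by
      apply Finset.sum_subset (support_tilt p b s)
      intro x _ hx
      exact Finsupp.notMem_support_iff.1 hx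
    have h2 : ∑ x ∈ p.coeff.support, (tilt p b s).coeff x =
        (∑ x ∈ p.coeff.support, p.coeff x * b.coeff (s - x)) / (p * b).coeff s := by
      rw [Finset.sum_div]
      exact Finset.sum_congr rfl fun x _ => tilt_apply p b s x
    have h3 := coeff_mul_apply p b s
    rw [Finsupp.sum] at h3
    rw [h1, h2, ← h3, div_self hs]

/-- `H(X | X + B) = H(X) + H(B) - H(X + B)`. -/
theorem sum_H_tilt {p b : AddMonoidAlgebra ℝ G} (hp : Law p) (hb : Law b) :
    ((p * b).coeff.sum fun s a => a * H (tilt p b s)) = H p + H b - H (p * b) := by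
  have h := Tilt_chain (Tilt_joint p b) (by
      rintro ⟨x, s⟩
      rw [Tilt_joint_apply]
      exact mul_nonneg (hp.1 x) (hb.1 _)) (p * b).coeff (Tilt_joint_snd p b)
    (fun s => (tilt p b s).coeff) (by
      intro s _ x
      rw [Tilt_joint_apply, tilt_apply])
  rw [Tilt_ent_joint hp hb] at h
  exact h

theorem Tilt_prodLaw_mapDomain {α β α' β' : Type*} (p : α →₀ ℝ) (q : β →₀ ℝ) (f : α → α')
    (g : β → β') :
    (prodLaw p q).mapDomain (fun o => (f o.1, g o.2)) =
      prodLaw (p.mapDomain f) (q.mapDomain g) := by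
  classical
  ext ⟨y, z⟩
  rw [prodLaw_apply, Tilt_mapDomain_apply, Tilt_mapDomain_apply, Tilt_mapDomain_apply,
    Finset.sum_mul_sum, ← Finset.sum_product']
  have hsub : (prodLaw p q).support ⊆ p.support ×ˢ q.support := by
    intro o ho
    rw [Finsupp.mem_support_iff, prodLaw_apply] at ho
    rw [Finset.mem_product, Finsupp.mem_support_iff, Finsupp.mem_support_iff]
    exact ⟨left_ne_zero_of_mul ho, right_ne_zero_of_mul ho⟩
  rw [Finset.sum_subset hsub]
  · apply Finset.sum_congr rfl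
    intro o _
    rw [prodLaw_apply]
    by_cases h1 : f o.1 = y <;> by_cases h2 : g o.2 = z <;> simp [h1, h2]
  · intro o _ ho
    rw [Finsupp.notMem_support_iff.1 ho, ite_self]

/-- law of `(X₁ + X₂, (T₁, T₂))` -/
noncomputable def Tilt_v (p₁ b₁ p₂ b₂ : AddMonoidAlgebra ℝ G) : G × (G × G) →₀ ℝ :=
  (prodLaw (Tilt_joint p₁ b₁) (Tilt_joint p₂ b₂)).mapDomain
    (fun o => (o.1.1 + o.2.1, (o.1.2, o.2.2)))

theorem Tilt_v_apply (p₁ b₁ p₂ b₂ : AddMonoidAlgebra ℝ G) (x s s' : G) :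
    Tilt_v p₁ b₁ p₂ b₂ (x, (s, s')) =
      ∑ x₁ ∈ p₁.coeff.support, (p₁.coeff x₁ * b₁.coeff (s - x₁)) *
        (p₂.coeff (x - x₁) * b₂.coeff (s' - (x - x₁))) := by
  classical
  unfold Tilt_v
  rw [Tilt_mapDomain_apply]
  set j1 := Tilt_joint p₁ b₁ with hj1
  set j2 := Tilt_joint p₂ b₂ with hj2
  have hsub : (prodLaw j1 j2).support ⊆ j1.support ×ˢ j2.support := by
    intro o ho
    rw [Finsupp.mem_support_iff, prodLaw_apply] at ho
    rw [Finset.mem_product, Finsupp.mem_support_iff, Finsupp.mem_support_iff]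
    exact ⟨left_ne_zero_of_mul ho, right_ne_zero_of_mul ho⟩
  rw [Finset.sum_subset hsub (by
    intro o _ ho
    rw [Finsupp.notMem_support_iff.1 ho, ite_self]), Finset.sum_product]
  have h1 : ∀ o₁ ∈ j1.support, (∑ o₂ ∈ j2.support,
      if ((o₁, o₂).1.1 + (o₁, o₂).2.1, ((o₁, o₂).1.2, (o₁, o₂).2.2)) = (x, (s, s')) then
        prodLaw j1 j2 (o₁, o₂) else 0) =
      if o₁.2 = s then j1 o₁ * j2 (x - o₁.1, s') else 0 := by
    intro o₁ _
    by_cases h : o₁.2 = s
    · rw [if_pos h]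
      have h2 : ∀ o₂ ∈ j2.support,
          (if ((o₁, o₂).1.1 + (o₁, o₂).2.1, ((o₁, o₂).1.2, (o₁, o₂).2.2)) = (x, (s, s')) then
            prodLaw j1 j2 (o₁, o₂) else 0) =
          if o₂ = (x - o₁.1, s') then j1 o₁ * j2 o₂ else 0 := by
        intro o₂ _
        rw [prodLaw_apply]
        have h3 : (((o₁, o₂).1.1 + (o₁, o₂).2.1, ((o₁, o₂).1.2, (o₁, o₂).2.2)) = (x, (s, s'))) ↔
            (o₂ = (x - o₁.1, s')) := by
          rw [Prod.ext_iff, Prod.ext_iff, Prod.ext_iff]
          simp only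
          constructor
          · rintro ⟨h4, h5, h6⟩
            exact ⟨by rw [← h4]; abel, h6⟩
          · rintro ⟨h4, h5⟩
            exact ⟨by rw [h4]; abel, h, h5⟩
        by_cases h4 : o₂ = (x - o₁.1, s')
        · rw [if_pos h4, if_pos (h3.2 h4)]
        · rw [if_neg h4, if_neg (fun h5 => h4 (h3.1 h5))]
      rw [Finset.sum_congr rfl h2, Finset.sum_ite_eq']
      by_cases h5 : (x - o₁.1, s') ∈ j2.support
      · rw [if_pos h5]
      · rw [if_neg h5, Finsupp.notMem_support_iff.1 h5, mul_zero]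
    · rw [if_neg h]
      apply Finset.sum_eq_zero
      intro o₂ _
      rw [if_neg]
      intro h3
      rw [Prod.ext_iff, Prod.ext_iff] at h3
      exact h h3.2.1
  rw [Finset.sum_congr rfl h1]
  set C := insert s (j1.support.image Prod.snd) with hC
  have hsub2 : j1.support ⊆ p₁.coeff.support ×ˢ C := by
    intro o ho
    rw [Finset.mem_product]
    refine ⟨?_, Finset.mem_insert_of_mem (Finset.mem_image_of_mem _ ho)⟩
    rw [Finsupp.mem_support_iff] at ho ⊢
    intro h0
    apply ho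
    have : o = (o.1, o.2) := rfl
    rw [this, hj1, Tilt_joint_apply, h0, zero_mul]
  rw [Finset.sum_subset hsub2 (by
    intro o _ ho
    rw [Finsupp.notMem_support_iff.1 ho, zero_mul, ite_self]), Finset.sum_product]
  apply Finset.sum_congr rfl
  intro x₁ _
  simp only
  rw [Finset.sum_ite_eq' C s, if_pos (Finset.mem_insert_self _ _), hj1, hj2, Tilt_joint_apply,
    Tilt_joint_apply]

theorem Tilt_v_cond (p₁ b₁ p₂ b₂ : AddMonoidAlgebra ℝ G) (x s s' : G) :
    (tilt p₁ b₁ s * tilt p₂ b₂ s').coeff x =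
      Tilt_v p₁ b₁ p₂ b₂ (x, (s, s')) / ((p₁ * b₁).coeff s * (p₂ * b₂).coeff s') := by
  rw [Tilt_v_apply, coeff_mul_apply, Finsupp.sum, Finset.sum_div]
  rw [Finset.sum_subset (support_tilt p₁ b₁ s) (by
    intro o _ ho
    rw [Finsupp.notMem_support_iff.1 ho, zero_mul])]
  apply Finset.sum_congr rfl
  intro x₁ _
  rw [tilt_apply, tilt_apply, div_mul_div_comm]

/-- Fibring inequality: with `T_i = X_i + B_i`,
`H(T₁+T₂) + H(X₁+X₂ | T₁, T₂) ≤ H(X₁+X₂) + H(B₁+B₂)`. -/
theorem fibring {p₁ p₂ b₁ b₂ : AddMonoidAlgebra ℝ G} (hp₁ : Law p₁) (hp₂ : Law p₂)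
    (hb₁ : Law b₁) (hb₂ : Law b₂) :
    H ((p₁ * b₁) * (p₂ * b₂)) +
      ((p₁ * b₁).coeff.sum fun s a => (p₂ * b₂).coeff.sum fun s' a' =>
        a * a' * H (tilt p₁ b₁ s * tilt p₂ b₂ s')) ≤ H (p₁ * p₂) + H (b₁ * b₂) := by
  classical
  set w : (G × G) × (G × G) →₀ ℝ := prodLaw (prodLaw p₁.coeff b₁.coeff) (prodLaw p₂.coeff b₂.coeff)
    with hw
  have hwl : IsLaw w := isLaw_prodLaw (isLaw_prodLaw hp₁ hb₁) (isLaw_prodLaw hp₂ hb₂)
  -- the law of `(X₁+X₂, (T₁,T₂))`
  have hv : w.mapDomain (fun o => (o.1.1 + o.2.1, (o.1.1 + o.1.2, o.2.1 + o.2.2))) =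
      Tilt_v p₁ b₁ p₂ b₂ := by
    unfold Tilt_v Tilt_joint
    rw [← Tilt_prodLaw_mapDomain, ← Finsupp.mapDomain_comp]
    rfl
  have hu : (Tilt_v p₁ b₁ p₂ b₂).mapDomain Prod.snd = prodLaw (p₁ * b₁).coeff (p₂ * b₂).coeff := by
    unfold Tilt_v
    rw [← Finsupp.mapDomain_comp, ← Tilt_joint_snd, ← Tilt_joint_snd, ← Tilt_prodLaw_mapDomain]
    rfl
  have hvnn : ∀ o, 0 ≤ Tilt_v p₁ b₁ p₂ b₂ o := by
    rw [← hv]
    exact (isLaw_mapDomain hwl _).1
  have hchain := Tilt_chain (Tilt_v p₁ b₁ p₂ b₂) hvnn _ hu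
    (fun o => (tilt p₁ b₁ o.1 * tilt p₂ b₂ o.2).coeff) (by
      rintro ⟨s, s'⟩ _ x
      rw [prodLaw_apply]
      exact Tilt_v_cond p₁ b₁ p₂ b₂ x s s')
  have hsum : ((prodLaw (p₁ * b₁).coeff (p₂ * b₂).coeff).sum fun o a =>
      a * ent ((tilt p₁ b₁ o.1 * tilt p₂ b₂ o.2).coeff)) =
      ((p₁ * b₁).coeff.sum fun s a => (p₂ * b₂).coeff.sum fun s' a' =>
        a * a' * H (tilt p₁ b₁ s * tilt p₂ b₂ s')) := by
    unfold Finsupp.sum
    rw [← Finset.sum_product']
    apply Finset.sum_subset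
    · intro o ho
      rw [Finsupp.mem_support_iff, prodLaw_apply] at ho
      rw [Finset.mem_product, Finsupp.mem_support_iff, Finsupp.mem_support_iff]
      exact ⟨left_ne_zero_of_mul ho, right_ne_zero_of_mul ho⟩
    · intro o _ ho
      have := Finsupp.notMem_support_iff.1 ho
      simp only [this, zero_mul]
  rw [← hsum, hchain]
  -- submodularity
  have hsm := ent_submod hwl (fun o => o.1.1 + o.2.1) (fun o => (o.1.1 + o.1.2, o.2.1 + o.2.2))
    (fun o => (o.1.1 + o.1.2) + (o.2.1 + o.2.2))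
  have e1 : ent (w.mapDomain fun o => (o.1.1 + o.2.1, (o.1.1 + o.1.2, o.2.1 + o.2.2),
      (o.1.1 + o.1.2) + (o.2.1 + o.2.2))) = ent (Tilt_v p₁ b₁ p₂ b₂) := by
    have : (w.mapDomain fun o => (o.1.1 + o.2.1, (o.1.1 + o.1.2, o.2.1 + o.2.2),
        (o.1.1 + o.1.2) + (o.2.1 + o.2.2))) =
        (Tilt_v p₁ b₁ p₂ b₂).mapDomain (fun r => (r.1, r.2, r.2.1 + r.2.2)) := by
      rw [← hv, ← Finsupp.mapDomain_comp]; rfl
    rw [this, ent_mapDomain_of_injOn]
    intro a _ b _ h
    simp only [Prod.mk.injEq] at h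
    exact Prod.ext h.1 h.2.1
  have e2 : ent (w.mapDomain fun o => ((o.1.1 + o.1.2, o.2.1 + o.2.2),
      (o.1.1 + o.1.2) + (o.2.1 + o.2.2))) = ent (prodLaw (p₁ * b₁).coeff (p₂ * b₂).coeff) := by
    have : (w.mapDomain fun o => ((o.1.1 + o.1.2, o.2.1 + o.2.2),
        (o.1.1 + o.1.2) + (o.2.1 + o.2.2))) =
        (prodLaw (p₁ * b₁).coeff (p₂ * b₂).coeff).mapDomain (fun r => (r, r.1 + r.2)) := by
      rw [← hu, ← hv, ← Finsupp.mapDomain_comp, ← Finsupp.mapDomain_comp]; rfl
    rw [this, ent_mapDomain_of_injOn]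
    intro a _ b _ h
    simp only [Prod.mk.injEq] at h
    exact h.1
  have e3 : ent (w.mapDomain fun o => (o.1.1 + o.1.2) + (o.2.1 + o.2.2)) =
      H ((p₁ * b₁) * (p₂ * b₂)) := by
    unfold H
    rw [coeff_mul, ← hu, ← hv, ← Finsupp.mapDomain_comp, ← Finsupp.mapDomain_comp]; rfl
  have e4 : ent (w.mapDomain fun o => (o.1.1 + o.2.1, (o.1.1 + o.1.2) + (o.2.1 + o.2.2))) =
      H (p₁ * p₂) + H (b₁ * b₂) := by
    have h1 : w.mapDomain (fun o => ((o.1.1, o.2.1), (o.1.2, o.2.2))) =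
        prodLaw (prodLaw p₁.coeff p₂.coeff) (prodLaw b₁.coeff b₂.coeff) := by
      ext ⟨⟨x1, x2⟩, ⟨y1, y2⟩⟩
      have hinj : Function.Injective
          (fun o : (G × G) × (G × G) => ((o.1.1, o.2.1), (o.1.2, o.2.2))) := by
        rintro ⟨⟨a, b⟩, ⟨c, d⟩⟩ ⟨⟨a', b'⟩, ⟨c', d'⟩⟩ h
        simp only [Prod.mk.injEq] at h
        obtain ⟨⟨rfl, rfl⟩, ⟨rfl, rfl⟩⟩ := h
        rfl
      have := Finsupp.mapDomain_apply hinj w ((x1, y1), (x2, y2))
      simp only at this
      rw [this, hw]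
      simp only [prodLaw_apply]
      ring
    have h2 : w.mapDomain (fun o => (o.1.1 + o.2.1, o.1.2 + o.2.2)) =
        prodLaw (p₁ * p₂).coeff (b₁ * b₂).coeff := by
      rw [coeff_mul, coeff_mul, ← Tilt_prodLaw_mapDomain, ← h1, ← Finsupp.mapDomain_comp]; rfl
    have h3 : (w.mapDomain fun o => (o.1.1 + o.2.1, (o.1.1 + o.1.2) + (o.2.1 + o.2.2))) =
        (prodLaw (p₁ * p₂).coeff (b₁ * b₂).coeff).mapDomain (fun r => (r.1, r.1 + r.2)) := by
      rw [← h2, ← Finsupp.mapDomain_comp]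
      congr 1
      funext o
      simp only [Function.comp_apply, Prod.mk.injEq, true_and]
      abel
    rw [h3, ent_mapDomain_of_injOn _ (Tilt_joint_inj.injOn), ent_prodLaw (Law.mul hp₁ hp₂)
      (Law.mul hb₁ hb₂)]
    rfl
  rw [e1, e2, e3, e4] at hsm
  linarith

end H112
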